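import Pool.Agent.MP_850d05_lc.H20.Def

/-! Uniformly arithmetical families of predicates and functions. -/

set_option linter.unusedSectionVars false

namespace Pool.Agent.MP_850d05_lc.H20

open Classical

abbrev Base := {B : Set (ℕ → Prop) // IsBase B}

/-- The arithmetical hierarchy on coded types. -/
def Sg (B : Base) : ℕ → ∀ {α : Type} [Primcodable α], (α → Prop) → Prop
  | 0, _, _, p => ∃ q ∈ B.1, ∀ x, p x ↔ q (Encodable.encode x)
  | n + 1, α, _, p => ∃ q : α × ℕ → Prop, Sg B n q ∧ ∀ x, p x ↔ ∃ y, ¬ q (x, y)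

section
variable {α β γ σ : Type} [Primcodable α] [Primcodable β] [Primcodable γ] [Primcodable σ]
  {B : Base}

theorem Sg.comp : ∀ (n : ℕ) {α β : Type} [Primcodable α] [Primcodable β] {p : β → Prop}
    {f : α → β}, Sg B n p → Computable f → Sg B n fun x => p (f x)
  | 0, α, _, _, _, _, f, ⟨q, hq, h⟩, hf =>
    ⟨_, B.2.subst q hq (fun n => (((Encodable.decode (α := α) n).map fun x =>
        Encodable.encode (f x))).getD 0)
      (Computable.option_getD (Computable.option_map Computable.decode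
        ((Computable.encode.comp hf).comp Computable.snd).to₂) (Computable.const 0)),
      fun x => by simp [h]⟩
  | n + 1, _, _, _, _, _, f, ⟨q, hq, h⟩, hf =>
    ⟨fun z => q (f z.1, z.2), Sg.comp n hq ((hf.comp Computable.fst).pair Computable.snd),
      fun x => h (f x)⟩

theorem Sg.prim {p : α → Prop} (h : PrimrecPred p) : Sg B 0 p := by
  obtain ⟨_, h⟩ := h
  refine ⟨fun n => ((Encodable.decode (α := α) n).map fun x => decide (p x)).getD false = true,
    B.2.comp _ (PrimrecPred.computablePred ?_), fun x => by simp⟩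
  exact Primrec.eq.comp (Primrec.option_getD.comp (Primrec.option_map Primrec.decode
    (h.comp Primrec.snd).to₂) (Primrec.const false)) (Primrec.const true)

theorem Sg.not {n : ℕ} {p : α → Prop} (h : Sg B n p) : Sg B (n + 1) fun x => ¬ p x :=
  ⟨fun z => p z.1, Sg.comp n h Computable.fst, fun _ => by simp⟩

theorem Sg.not0 {p : α → Prop} : Sg B 0 p → Sg B 0 fun x => ¬ p x
  | ⟨q, hq, h⟩ => ⟨_, B.2.neg q hq, fun x => not_congr (h x)⟩

theorem Sg.succ : ∀ (n : ℕ) {α : Type} [Primcodable α] {p : α → Prop},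
    Sg B n p → Sg B (n + 1) p
  | 0, _, _, p, h => ⟨fun z => ¬ p z.1, (Sg.comp 0 h Computable.fst).not0, fun _ => by simp⟩
  | n + 1, _, _, _, ⟨q, hq, h⟩ => ⟨q, Sg.succ n hq, h⟩

theorem Sg.mono {n m : ℕ} {p : α → Prop} (h : Sg B n p) (hm : n ≤ m) : Sg B m p := by
  induction hm with
  | refl => exact h
  | step _ ih => exact Sg.succ _ ih

theorem Sg.andor : ∀ (n : ℕ) {α : Type} [Primcodable α] {p q : α → Prop}, Sg B n p → Sg B n q →
    (Sg B n fun x => p x ∧ q x) ∧ Sg B n fun x => p x ∨ q x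
  | 0, _, _, p, q, ⟨r, hr, h⟩, ⟨s, hs, h'⟩ =>
    ⟨⟨_, B.2.conj r hr s hs, fun x => and_congr (h x) (h' x)⟩,
      ⟨_, B.2.neg _ (B.2.conj _ (B.2.neg r hr) _ (B.2.neg s hs)), fun x =>
        (or_congr (h x) (h' x)).trans or_iff_not_and_not⟩⟩
  | n + 1, α, _, p, q, ⟨r, hr, h⟩, ⟨s, hs, h'⟩ => by
    refine ⟨⟨fun z : α × ℕ => r (z.1, z.2.unpair.1) ∨ s (z.1, z.2.unpair.2), (Sg.andor n
      (Sg.comp n hr (Primrec.fst.pair (Primrec.fst.comp (Primrec.unpair.comp Primrec.snd))).to_comp)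
      (Sg.comp n hs
        (Primrec.fst.pair (Primrec.snd.comp (Primrec.unpair.comp Primrec.snd))).to_comp)).2,
      fun x => ?_⟩, ⟨fun z => r z ∧ s z, (Sg.andor n hr hs).1, fun x => ?_⟩⟩
    · simp only [h, h', not_or]
      exact ⟨fun ⟨⟨a, ha⟩, b, hb⟩ => ⟨Nat.pair a b, by simpa using ⟨ha, hb⟩⟩,
        fun ⟨y, a, b⟩ => ⟨⟨_, a⟩, _, b⟩⟩
    · simp only [h, h', not_and_or, exists_or]

theorem Sg.sigmaOver : ∀ (n : ℕ) {p : ℕ → Prop}, Sg B n p ↔ SigmaOver B.1 n p
  | 0, p => ⟨fun ⟨q, hq, h⟩ => by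
      have : p = q := funext fun x => propext (h x)
      exact this ▸ hq, fun h => ⟨p, h, fun _ => Iff.rfl⟩⟩
  | n + 1, p => ⟨fun ⟨q, hq, h⟩ => ⟨fun z => q z.unpair,
      (Sg.sigmaOver n).1 (Sg.comp n hq Primrec.unpair.to_comp), fun x => by simp [h]⟩,
    fun ⟨q, hq, h⟩ => ⟨fun z => q (Nat.pair z.1 z.2),
      Sg.comp n ((Sg.sigmaOver n).2 hq) Primrec₂.natPair.to_comp, h⟩⟩

/-- An index type together with a base class for each index. -/
class HB (D : Type) where
  base : D → Base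

instance {D : Type} [HB D] {S : D → Prop} : HB {a // S a} := ⟨fun a => HB.base a.1⟩

variable {D : Type} [HB D]

/-- A family of predicates of bounded arithmetical level. -/
def Ar (p : D → α → Prop) : Prop := ∃ n, ∀ a, Sg (HB.base a) n (p a)

/-- A family of functions whose graphs have bounded arithmetical level. -/
def AF (f : D → α → β) : Prop := Ar fun a (x : α × β) => f a x.1 = x.2

variable {p q : D → α → Prop}

theorem Ar.of_iff (h : Ar p) (e : ∀ a x, q a x ↔ p a x) : Ar q := by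
  have : q = p := by funext a x; exact propext (e a x)
  exact this ▸ h
theorem Ar.prim (h : ∀ a, PrimrecPred (p a)) : Ar p := ⟨0, fun a => Sg.prim (h a)⟩
theorem Ar.cst (r : D → Prop) : Ar fun a (_ : α) => r a :=
  Ar.prim fun a => by
    by_cases h : r a
    · exact (Primrec.eq.comp (Primrec.const (α := α) 0) (Primrec.const 0)).of_eq fun _ => by simp [h]
    · exact (Primrec.eq.comp (Primrec.const (α := α) 0) (Primrec.const 1)).of_eq fun _ => by simp [h]
theorem Ar.sub (h : Ar p) (S : D → Prop) : Ar fun (a : {a // S a}) x => p a.1 x :=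
  h.imp fun _ hn a => hn a.1
theorem Ar.split {S : D → Prop} {r : {a // ¬ S a} → α → Prop} (h : Ar p) (h' : Ar r) :
    Ar fun a x => if k : S a then p a x else r ⟨a, k⟩ x := by
  obtain ⟨n, hn⟩ := h
  obtain ⟨m, hm⟩ := h'
  refine ⟨max n m, fun a => ?_⟩
  by_cases k : S a
  · simpa only [dif_pos k] using (hn a).mono (le_max_left _ _)
  · simp only [dif_neg k]
    exact (hm ⟨a, k⟩).mono (le_max_right _ _)
theorem Ar.pre {r : D → β → Prop} (h : Ar r) {f : α → β} (hf : Primrec f) :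
    Ar fun a x => r a (f x) := h.imp fun n hn a => Sg.comp n (hn a) hf.to_comp
theorem Ar.not (h : Ar p) : Ar fun a x => ¬ p a x :=
  let ⟨n, hn⟩ := h; ⟨n + 1, fun a => (hn a).not⟩
theorem Ar.and (h : Ar p) (h' : Ar q) : Ar fun a x => p a x ∧ q a x :=
  let ⟨n, hn⟩ := h; let ⟨m, hm⟩ := h'
  ⟨max n m, fun a => (Sg.andor _ ((hn a).mono (le_max_left _ _)) ((hm a).mono (le_max_right _ _))).1⟩
theorem Ar.or (h : Ar p) (h' : Ar q) : Ar fun a x => p a x ∨ q a x :=
  (h.not.and h'.not).not.of_iff fun _ _ => or_iff_not_and_not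
theorem Ar.imp (h : Ar p) (h' : Ar q) : Ar fun a x => p a x → q a x :=
  (h.not.or h').of_iff fun _ _ => imp_iff_not_or
theorem Ar.iff (h : Ar p) (h' : Ar q) : Ar fun a x => p a x ↔ q a x :=
  ((h.imp h').and (h'.imp h)).of_iff fun _ _ => iff_def
theorem Ar.ex [Inhabited β] {r : D → α → β → Prop} (h : Ar fun a (x : α × β) => r a x.1 x.2) :
    Ar fun a x => ∃ y, r a x y := by
  obtain ⟨n, hn⟩ := (h.pre (f := fun z : α × ℕ => (z.1, (Encodable.decode z.2).getD default))
    (Primrec.fst.pair (Primrec.option_getD_default.comp (Primrec.decode.comp Primrec.snd)))).not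
  refine ⟨n + 1, fun a => ⟨_, hn a, fun x => ?_⟩⟩
  simp only [not_not]
  exact ⟨fun ⟨y, hy⟩ => ⟨Encodable.encode y, by simpa using hy⟩, fun ⟨_, hy⟩ => ⟨_, hy⟩⟩
theorem Ar.all [Inhabited β] {r : D → α → β → Prop} (h : Ar fun a (x : α × β) => r a x.1 x.2) :
    Ar fun a x => ∀ y, r a x y :=
  (Ar.ex (r := fun a x y => ¬ r a x y) h.not).not.of_iff fun _ _ => by simp

theorem AF.prim {f : D → α → β} (h : ∀ a, Primrec (f a)) : AF f :=
  Ar.prim fun a => Primrec.eq.comp ((h a).comp Primrec.fst) Primrec.snd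
theorem AF.sub {f : D → α → β} (h : AF f) (S : D → Prop) : AF fun (a : {a // S a}) x => f a.1 x :=
  Ar.sub h S
theorem AF.split {S : D → Prop} {f : D → α → β} {g : {a // ¬ S a} → α → β} (h : AF f) (h' : AF g) :
    AF fun a x => if k : S a then f a x else g ⟨a, k⟩ x :=
  (Ar.split (S := S) h h').of_iff fun a x => by by_cases k : S a <;> simp [k]
theorem AF.of_eq {f g : D → α → β} (h : AF f) (e : ∀ a x, g a x = f a x) : AF g := by
  have : g = f := by funext a x; exact e a x
  exact this ▸ h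
theorem AF.id : AF fun (_ : D) (x : α) => x := AF.prim fun _ => Primrec.id
theorem AF.const {c : D → β} : AF fun a (_ : α) => c a := AF.prim fun _ => Primrec.const _
theorem Ar.app [Inhabited β] {r : D → β → Prop} (h : Ar r) {f : D → α → β} (hf : AF f) :
    Ar fun a x => r a (f a x) :=
  (Ar.ex (r := fun a x y => f a x = y ∧ r a y) (Ar.and hf (h.pre Primrec.snd))).of_iff
    fun _ _ => by simp
theorem AF.pair {f : D → α → β} {g : D → α → γ} (hf : AF f) (hg : AF g) :
    AF fun a x => (f a x, g a x) :=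
  ((Ar.pre hf (Primrec.fst.pair (Primrec.fst.comp Primrec.snd))).and
    (Ar.pre hg (Primrec.fst.pair (Primrec.snd.comp Primrec.snd)))).of_iff fun _ _ => Prod.ext_iff
theorem AF.app [Inhabited β] {g : D → β → γ} (hg : AF g) {f : D → α → β} (hf : AF f) :
    AF fun a x => g a (f a x) :=
  (Ar.ex (r := fun a (x : α × γ) y => f a x.1 = y ∧ g a y = x.2)
    ((Ar.pre hf ((Primrec.fst.comp Primrec.fst).pair Primrec.snd)).and
      (Ar.pre hg (Primrec.snd.pair (Primrec.snd.comp Primrec.fst))))).of_iff fun _ _ => by simp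

variable [Inhabited β] [Inhabited γ]

theorem AF.p1 {g : β → γ} (hg : Primrec g) {f : D → α → β} (hf : AF f) :
    AF fun a x => g (f a x) := AF.app (g := fun _ => g) (AF.prim fun _ => hg) hf
theorem AF.p2 {g : β → γ → σ} (hg : Primrec₂ g) {f : D → α → β} {f' : D → α → γ} (hf : AF f)
    (hf' : AF f') : AF fun a x => g (f a x) (f' a x) :=
  AF.app (g := fun _ (y : β × γ) => g y.1 y.2) (AF.prim fun _ => hg) (hf.pair hf')
theorem Ar.r2 {r : β → γ → Prop} (hr : PrimrecRel r) {f : D → α → β} {f' : D → α → γ} (hf : AF f)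
    (hf' : AF f') : Ar fun a x => r (f a x) (f' a x) :=
  Ar.app (r := fun _ (y : β × γ) => r y.1 y.2) (Ar.prim fun _ => hr) (hf.pair hf')
theorem Ar.app2 {r : D → β → γ → Prop} (h : Ar fun a (y : β × γ) => r a y.1 y.2) {f : D → α → β}
    {f' : D → α → γ} (hf : AF f) (hf' : AF f') : Ar fun a x => r a (f a x) (f' a x) :=
  h.app (hf.pair hf')
theorem AF.fst {f : D → α → β × γ} (hf : AF f) : AF fun a x => (f a x).1 := AF.p1 Primrec.fst hf
theorem AF.snd {f : D → α → β × γ} (hf : AF f) : AF fun a x => (f a x).2 := AF.p1 Primrec.snd hf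
theorem Ar.eq {f g : D → α → β} (hf : AF f) (hg : AF g) : Ar fun a x => f a x = g a x :=
  Ar.r2 Primrec.eq hf hg
theorem Ar.ne {f g : D → α → β} (hf : AF f) (hg : AF g) : Ar fun a x => f a x ≠ g a x :=
  (Ar.eq hf hg).not
theorem AF.ite {f g : D → α → β} [∀ a x, Decidable (p a x)] (h : Ar p) (hf : AF f) (hg : AF g) :
    AF fun a x => if p a x then f a x else g a x :=
  (((h.pre Primrec.fst).and hf).or ((h.pre Primrec.fst).not.and hg)).of_iff fun a x => by
    by_cases e : p a x.1 <;> simp [e]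
theorem AF.dec [∀ a x, Decidable (p a x)] (h : Ar p) : AF fun a x => decide (p a x) := by
  have := AF.ite (f := fun _ _ => true) (g := fun _ _ => false) h AF.const AF.const
  refine Ar.of_iff this fun a x => ?_
  by_cases e : p a x.1 <;> simp [e]

section
variable {f g : D → α → ℕ} (hf : AF f) (hg : AF g)
include hf hg
theorem Ar.le : Ar fun a x => f a x ≤ g a x := Ar.r2 Primrec.nat_le hf hg
theorem Ar.lt : Ar fun a x => f a x < g a x := Ar.r2 Primrec.nat_lt hf hg
theorem AF.add : AF fun a x => f a x + g a x := AF.p2 Primrec.nat_add hf hg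
theorem AF.mul : AF fun a x => f a x * g a x := AF.p2 Primrec.nat_mul hf hg
theorem AF.pow : AF fun a x => f a x ^ g a x :=
  AF.p2 (Primrec₂.unpaired'.1 Nat.Primrec.pow) hf hg
theorem Ar.dvd : Ar fun a x => f a x ∣ g a x :=
  (Ar.eq (AF.p2 Primrec.nat_mod hg hf) (AF.const (c := fun _ => 0))).of_iff fun _ _ =>
    Nat.dvd_iff_mod_eq_zero ..
theorem AF.bit : AF fun a x => (f a x).testBit (g a x) := by
  have := (Ar.eq (AF.p2 Primrec.nat_mod (AF.p2 Primrec.nat_div hf
    (AF.pow (AF.const (c := fun _ => 2)) hg)) (AF.const (c := fun _ => 2)))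
    (AF.const (c := fun _ => 1)))
  refine Ar.of_iff (AF.dec this) fun a x => ?_
  simp only [Nat.testBit_eq_decide_div_mod_eq]
end

theorem AF.xor {f g : D → α → ℕ} (hf : AF f) (hg : AF g) : AF fun a x => f a x ^^^ g a x := by
  refine AF.app (g := fun _ (y : ℕ × ℕ) => y.1 ^^^ y.2) ?_ (hf.pair hg)
  refine Ar.of_iff (p := fun _ (x : (ℕ × ℕ) × ℕ) => ∀ i, x.2.testBit i = true ↔
    x.1.1.testBit i ≠ x.1.2.testBit i) (Ar.all (Ar.iff (Ar.eq (AF.bit AF.id.fst.snd AF.id.snd)
      AF.const) (Ar.ne (AF.bit AF.id.fst.fst.fst AF.id.snd) (AF.bit AF.id.fst.fst.snd AF.id.snd))))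
    fun _ x => ⟨fun e i => by simp [← e], fun e => Nat.eq_of_testBit_eq fun i => ?_⟩
  have := e i
  rw [Nat.testBit_xor]
  revert this
  cases x.2.testBit i <;> cases x.1.1.testBit i <;> cases x.1.2.testBit i <;> simp

theorem AF.cons {f : D → α → β} {g : D → α → List β} (hf : AF f) (hg : AF g) :
    AF fun a x => f a x :: g a x := AF.p2 Primrec.list_cons hf hg
theorem AF.append {f g : D → α → List β} (hf : AF f) (hg : AF g) :
    AF fun a x => f a x ++ g a x := AF.p2 Primrec.list_append hf hg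
theorem AF.getI {f : D → α → List β} {g : D → α → ℕ} (hf : AF f) (hg : AF g) :
    AF fun a x => (f a x).getI (g a x) := AF.p2 Primrec.list_getI hf hg
theorem AF.length {f : D → α → List β} (hf : AF f) : AF fun a x => (f a x).length :=
  AF.p1 Primrec.list_length hf
theorem Ar.mem {f : D → α → β} {g : D → α → List β} (hf : AF f) (hg : AF g) :
    Ar fun a x => f a x ∈ g a x :=
  (Ar.lt (AF.p2 Primrec.list_idxOf hf hg) hg.length).of_iff fun _ _ =>
    List.idxOf_lt_length_iff.symm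

variable [Inhabited α]

/-- Recursion with an arithmetical step. -/
theorem AF.natrec {s : D → α → β} {g : D → α → ℕ → β → β} {n : D → α → ℕ} (hn : AF n) (hs : AF s)
    (hg : AF fun a (x : α × ℕ × β) => g a x.1 x.2.1 x.2.2) :
    AF fun a x => Nat.rec (motive := fun _ => β) (s a x) (g a x) (n a x) := by
  have h1 : Ar fun a (y : (α × β) × List β) => y.2.getI 0 = s a y.1.1 :=
    Ar.eq (AF.id.snd.getI AF.const) (hs.app AF.id.fst.fst)
  have h2 : Ar fun a (y : (α × β) × List β) => ∀ i, i < n a y.1.1 →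
      y.2.getI (i + 1) = g a y.1.1 i (y.2.getI i) :=
    Ar.all (Ar.imp (Ar.lt AF.id.snd (hn.app AF.id.fst.fst.fst))
      (Ar.eq (AF.id.fst.snd.getI (AF.id.snd.add AF.const))
        (hg.app (AF.id.fst.fst.fst.pair (AF.id.snd.pair (AF.id.fst.snd.getI AF.id.snd))))))
  have h3 : Ar fun a (y : (α × β) × List β) => y.2.getI (n a y.1.1) = y.1.2 :=
    Ar.eq (AF.id.snd.getI (hn.app AF.id.fst.fst)) AF.id.fst.snd
  refine Ar.of_iff (Ar.ex (r := fun a (x : α × β) (l : List β) => l.getI 0 = s a x.1 ∧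
    (∀ i, i < n a x.1 → l.getI (i + 1) = g a x.1 i (l.getI i)) ∧ l.getI (n a x.1) = x.2)
    (h1.and (h2.and h3))) fun a x => ⟨fun e => ?_, fun ⟨l, e0, e1, e2⟩ => ?_⟩
  · have k : ∀ i ≤ n a x.1, ((List.range (n a x.1 + 1)).map fun i =>
        Nat.rec (motive := fun _ => β) (s a x.1) (g a x.1) i).getI i =
        Nat.rec (motive := fun _ => β) (s a x.1) (g a x.1) i := fun i hi => by
      rw [List.getI_eq_getElem _ (by simp; omega)]; simp
    exact ⟨_, k 0 (Nat.zero_le _), fun i hi => by rw [k _ hi, k _ hi.le], (k _ le_rfl).trans e⟩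
  · have k : ∀ i ≤ n a x.1, Nat.rec (motive := fun _ => β) (s a x.1) (g a x.1) i = l.getI i := by
      intro i
      induction i with
      | zero => exact fun _ => e0.symm
      | succ i ih => intro hi; rw [e1 i hi, ← ih (by omega)]
    exact (k _ le_rfl).trans e2

theorem AF.map {l : D → α → List β} {g : D → α → β → γ} (hl : AF l)
    (hg : AF fun a (x : α × β) => g a x.1 x.2) : AF fun a x => (l a x).map (g a x) := by
  refine Ar.of_iff (p := fun a (y : α × List γ) => y.2.length = (l a y.1).length ∧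
    ∀ i, i < y.2.length → y.2.getI i = g a y.1 ((l a y.1).getI i))
    ((Ar.eq AF.id.snd.length (hl.app AF.id.fst).length).and (Ar.all (Ar.imp
      (Ar.lt AF.id.snd AF.id.fst.snd.length) (Ar.eq (AF.id.fst.snd.getI AF.id.snd)
        (hg.app (AF.id.fst.fst.pair ((hl.app AF.id.fst.fst).getI AF.id.snd)))))))
    fun a y => ⟨fun e => ?_, fun ⟨e0, e1⟩ => ?_⟩
  · rw [← e]
    refine ⟨by simp, fun i hi => ?_⟩
    rw [List.getI_eq_getElem _ hi, List.getI_eq_getElem _ (by simpa using hi)]; simp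
  · refine List.ext_getElem (by simp [e0]) fun i h1 h2 => ?_
    have := e1 i h2
    rw [List.getI_eq_getElem _ h2, List.getI_eq_getElem _ (e0 ▸ h2)] at this
    simp [this]

theorem AF.sum {l : D → α → List ℕ} (hl : AF l) : AF fun a x => (l a x).sum :=
  AF.p1 ((Primrec.list_foldr (h := fun _ (y : ℕ × ℕ) => y.1 + y.2) Primrec.id (Primrec.const 0)
    (Primrec.nat_add.comp (Primrec.fst.comp Primrec.snd) (Primrec.snd.comp Primrec.snd))).of_eq
      fun l => by induction l <;> simp_all) hl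

/-- The least witness. -/
noncomputable def pick (P : β → Prop) : β :=
  if h : ∃ n, ∃ s, P s ∧ Encodable.encode s = n then (Nat.find_spec h).choose else default

theorem pick_spec {P : β → Prop} (h : ∃ s, P s) : P (pick P) ∧
    ∀ s, P s → Encodable.encode (pick P) ≤ Encodable.encode s := by
  have h' : ∃ n, ∃ s, P s ∧ Encodable.encode s = n := let ⟨s, hs⟩ := h; ⟨_, s, hs, rfl⟩
  have := (Nat.find_spec h').choose_spec
  rw [pick, dif_pos h']
  exact ⟨this.1, fun s hs => this.2.le.trans (Nat.find_min' h' ⟨s, hs, rfl⟩)⟩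

theorem AF.pick {r : D → α → β → Prop} (h : Ar fun a (x : α × β) => r a x.1 x.2) :
    AF fun a x => pick (r a x) := by
  have e : Primrec (Encodable.encode : β → ℕ) := Primrec.encode
  refine Ar.of_iff (p := fun a (y : α × β) => (r a y.1 y.2 ∧ ∀ s, r a y.1 s →
      Encodable.encode y.2 ≤ Encodable.encode s) ∨ ((¬ ∃ s, r a y.1 s) ∧ y.2 = default))
    ((h.and (Ar.all (Ar.imp (h.app (AF.id.fst.fst.pair AF.id.snd))
      (Ar.le (AF.p1 e AF.id.fst.snd) (AF.p1 e AF.id.snd))))).or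
      ((Ar.ex (r := fun a (y : α × β) s => r a y.1 s) (h.app (AF.id.fst.fst.pair AF.id.snd))).not.and
        (Ar.eq (f := fun _ (y : α × β) => y.2) AF.id.snd AF.const)))
    fun a y => ?_
  by_cases k : ∃ s, r a y.1 s
  · have := pick_spec k
    refine ⟨fun e => Or.inl (e ▸ this), fun e => ?_⟩
    obtain ⟨e1, e2⟩ := e.resolve_right fun e => e.1 k
    exact Encodable.encode_injective (le_antisymm (this.2 _ e1) (e2 _ this.1))
  · have : H20.pick (r a y.1) = default := dif_neg fun ⟨_, s, hs, _⟩ => k ⟨s, hs⟩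
    beta_reduce
    rw [this]
    exact ⟨fun e => Or.inr ⟨k, e.symm⟩, fun e => (e.resolve_left fun e => k ⟨_, e.1⟩).2.symm⟩

/-- Dependent choice along an arithmetical relation. -/
theorem dc {r : D → β → β → Prop} (h : Ar fun a (x : β × β) => r a x.1 x.2) (s : D → β)
    (I : D → β → Prop) (h0 : ∀ a, I a (s a)) (h1 : ∀ a x, I a x → ∃ y, r a x y ∧ I a y)
    (h2 : ∀ a x y, I a x → r a x y → I a y) :
    ∃ f : D → ℕ → β, AF f ∧ ∀ a, f a 0 = s a ∧ ∀ n, I a (f a n) ∧ r a (f a n) (f a (n + 1)) := by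
  refine ⟨fun a n => Nat.rec (motive := fun _ => β) (s a) (fun _ x => pick (r a x)) n,
    AF.natrec (g := fun a _ _ x => pick (r a x)) AF.id AF.const ((AF.pick h).app AF.id.snd.snd),
    fun a => ⟨rfl, fun n => ?_⟩⟩
  have k : ∀ x, I a x → r a x (pick (r a x)) := fun x hx =>
    (pick_spec ((h1 a x hx).imp fun _ e => e.1)).1
  have : ∀ n, I a (Nat.rec (motive := fun _ => β) (s a) (fun _ x => pick (r a x)) n) := by
    intro n
    induction n with
    | zero => exact h0 a
    | succ n ih => exact h2 a _ _ ih (k _ ih)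
  exact ⟨this n, k _ (this n)⟩

end

section
variable {D S ι κ : Type} [HB D] [Primcodable ι] [Inhabited ι] [Primcodable κ] [Inhabited κ]
  [TopologicalSpace S] [CompactSpace S]

/-- The finite family `l` of open sets covers `A`. -/
def Cov (O : ι → Set S) (A : Set S) (l : List ι) : Prop := ∀ p ∈ A, ∃ i ∈ l, p ∈ O i

/-- The part of `A` outside the open sets with index in `I`. -/
def Rem (O : ι → Set S) (A : Set S) (I : ι → Prop) : Set S := {p | p ∈ A ∧ ∀ i, I i → p ∉ O i}

variable {O : ι → Set S} (hO : ∀ i, IsOpen (O i))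
include hO

omit [Primcodable ι] [Inhabited ι] [CompactSpace S] in
theorem Rem.closed {A : Set S} (hA : IsClosed A) (I : ι → Prop) : IsClosed (Rem O A I) := by
  have : Rem O A I = A ∩ ⋂ i, ⋂ _ : I i, (O i)ᶜ := by ext p; simp [Rem]
  rw [this]
  exact hA.inter (isClosed_iInter fun i => isClosed_iInter fun _ => (hO i).isClosed_compl)

omit [Primcodable ι] [Inhabited ι] in
theorem cov_rem {A : Set S} (hA : IsClosed A) (I : ι → Prop) (l : List ι) :
    Cov O (Rem O A I) l ↔ ∃ l', (∀ i, i ∈ l' → I i) ∧ Cov O A (l ++ l') := by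
  refine ⟨fun h => ?_, fun ⟨l', h1, h2⟩ p hp => ?_⟩
  · obtain ⟨t, ht⟩ := hA.isCompact.elim_finite_subcover
      (fun i : {i // i ∈ l ∨ I i} => O i.1) (fun i => hO _) fun p hp => by
        by_cases k : ∃ i, I i ∧ p ∈ O i
        · obtain ⟨i, h1, h2⟩ := k
          exact Set.mem_iUnion.2 ⟨⟨i, Or.inr h1⟩, h2⟩
        · obtain ⟨i, h1, h2⟩ := h p ⟨hp, fun i h1 h2 => k ⟨i, h1, h2⟩⟩
          exact Set.mem_iUnion.2 ⟨⟨i, Or.inl h1⟩, h2⟩
    refine ⟨(t.toList.map Subtype.val).filter I, fun i hi => by simpa using (List.mem_filter.1 hi).2,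
      fun p hp => ?_⟩
    obtain ⟨i, hi, h2⟩ := Set.mem_iUnion₂.1 (ht hp)
    refine ⟨i.1, List.mem_append.2 (i.2.imp id fun k => List.mem_filter.2 ⟨?_, by simpa⟩), h2⟩
    exact List.mem_map.2 ⟨i, Finset.mem_toList.2 hi, rfl⟩
  · obtain ⟨i, hi, h3⟩ := h2 p hp.1
    exact ⟨i, (List.mem_append.1 hi).resolve_right fun k => hp.2 i (h1 i k) h3, h3⟩

theorem ar_rem {A : D → Set S} (hA : ∀ a, IsClosed (A a)) (hc : Ar fun a => Cov O (A a))
    {I : D → ι → Prop} (hI : Ar I) : Ar fun a => Cov O (Rem O (A a) (I a)) :=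
  Ar.of_iff (Ar.ex (r := fun a l l' => (∀ i, i ∈ l' → I a i) ∧ Cov O (A a) (l ++ l'))
    ((Ar.all ((Ar.mem AF.id.snd AF.id.fst.snd).imp (hI.app AF.id.snd))).and
      (hc.app (AF.id.fst.append AF.id.snd)))) fun a l => cov_rem hO (hA a) _ l

/-- Greedy removal of open sets. -/
theorem greedy {A : D → Set S} (hA : ∀ a, IsClosed (A a)) (hne : ∀ a, (A a).Nonempty)
    (hc : Ar fun a => Cov O (A a)) {J : κ → ι → Prop}
    (hJ : Ar fun (_ : D) (x : κ × ι) => J x.1 x.2) :
    ∃ R : D → κ → Prop, Ar R ∧ ∀ a, (Rem O (A a) fun i => ∃ j, R a j ∧ J j i).Nonempty ∧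
      ∀ j, ¬ R a j → ∀ p ∈ Rem O (A a) fun i => ∃ j, R a j ∧ J j i, ∃ i, J j i ∧ p ∈ O i := by
  let e : ℕ → κ := fun n => (Encodable.decode n).getD default
  have he : AF fun (_ : D) n => e n :=
    AF.prim fun _ => Primrec.option_getD_default.comp Primrec.decode
  let G : D → List κ → Prop := fun a L => Cov O (Rem O (A a) fun i => ∃ j, j ∈ L ∧ J j i) []
  have hG : Ar G := by
    refine Ar.of_iff (Ar.ex (r := fun a (L : List κ) (l' : List ι) =>
      (∀ i, i ∈ l' → ∃ j, j ∈ L ∧ J j i) ∧ Cov O (A a) ([] ++ l'))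
      ((Ar.all ((Ar.mem AF.id.snd AF.id.fst.snd).imp (Ar.ex ((Ar.mem AF.id.snd
        AF.id.fst.fst.fst).and (hJ.app (AF.id.snd.pair AF.id.fst.snd)))))).and
          (hc.app (AF.const.append AF.id.snd)))) fun a L => cov_rem hO (hA a) _ _
  let L : D → ℕ → List κ := fun a n => Nat.rec (motive := fun _ => List κ) []
    (fun i l => if G a (e i :: l) then l else e i :: l) n
  have hL : AF L := AF.natrec (g := fun a _ i l => if G a (e i :: l) then l else e i :: l)
    AF.id AF.const (AF.ite (hG.app ((he.app AF.id.snd.fst).cons AF.id.snd.snd)) AF.id.snd.snd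
      ((he.app AF.id.snd.fst).cons AF.id.snd.snd))
  refine ⟨fun a j => ∃ n, j ∈ L a n, Ar.ex (Ar.mem AF.id.fst (hL.app AF.id.snd)), fun a => ?_⟩
  have s : ∀ n, L a (n + 1) = if G a (e n :: L a n) then L a n else e n :: L a n := fun _ => rfl
  have m : ∀ j, Monotone fun n => j ∈ L a n := fun j => monotone_nat_of_le_succ fun n h => by
    rw [s]; split_ifs
    · exact h
    · exact List.mem_cons_of_mem _ h
  have g : ∀ n, ¬ G a (L a n) := by
    intro n
    induction n with
    | zero =>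
      intro h
      obtain ⟨p, hp⟩ := hne a
      simpa using h p ⟨hp, fun i ⟨j, hj, _⟩ => by simp [L] at hj⟩
    | succ n ih => rw [s]; split_ifs with k; exacts [ih, k]
  refine ⟨?_, fun j hj p hp => ?_⟩
  · by_contra k
    obtain ⟨l, h1, h2⟩ := (cov_rem hO (hA a) (fun i => ∃ j, (∃ n, j ∈ L a n) ∧ J j i) []).1
      fun p hp => (k ⟨p, hp⟩).elim
    have : ∃ n, ∀ i, i ∈ l → ∃ j, j ∈ L a n ∧ J j i := by
      clear h2
      induction l with
      | nil => exact ⟨0, by simp⟩
      | cons i l ih =>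
        obtain ⟨n, hn⟩ := ih fun i hi => h1 i (List.mem_cons_of_mem _ hi)
        obtain ⟨j, ⟨n', hj⟩, hj'⟩ := h1 i List.mem_cons_self
        refine ⟨max n n', fun i' hi => ?_⟩
        rcases List.mem_cons.1 hi with rfl | hi
        · exact ⟨j, m j (le_max_right _ _) hj, hj'⟩
        · exact (hn i' hi).imp fun j h => ⟨m j (le_max_left _ _) h.1, h.2⟩
    obtain ⟨n, hn⟩ := this
    exact g n ((cov_rem hO (hA a) _ _).2 ⟨l, hn, h2⟩)
  · have ej : e (Encodable.encode j) = j := by simp [e]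
    by_cases k : G a (e (Encodable.encode j) :: L a (Encodable.encode j))
    · by_contra c
      rw [ej] at k
      simpa using k p ⟨hp.1, fun i ⟨j', h1, h2⟩ h3 => (List.mem_cons.1 h1).elim
        (fun e => c ⟨i, e ▸ h2, h3⟩) fun e => hp.2 i ⟨j', ⟨_, e⟩, h2⟩ h3⟩
    · exact (hj ⟨Encodable.encode j + 1, by rw [s, if_neg k, ej]; exact List.mem_cons_self⟩).elim

/-- An arithmetical point. -/
theorem point {A : D → Set S} (hA : ∀ a, IsClosed (A a)) (hne : ∀ a, (A a).Nonempty)
    (hc : Ar fun a => Cov O (A a)) :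
    ∃ p : D → S, (Ar fun a i => p a ∈ O i) ∧ ∀ a, p a ∈ A a := by
  obtain ⟨R, hR, h⟩ := greedy hO hA hne hc (J := fun j i => j = i) (Ar.eq AF.id.fst AF.id.snd)
  choose p hp using fun a => (h a).1
  refine ⟨p, hR.not.of_iff fun a i => ⟨fun h1 h2 => (hp a).2 i ⟨i, h2, rfl⟩ h1, fun h1 => ?_⟩,
    fun a => (hp a).1⟩
  obtain ⟨i', rfl, k⟩ := (h a).2 i h1 _ (hp a)
  exact k

end

end Pool.Agent.MP_850d05_lc.H20
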