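import Mathlib

/-! Definitions used in the statement. -/

namespace Pool.Agent.MP_850d05_lc.H20

/-- `B` is a class of predicates on `ℕ` that contains the computable predicates and is closed under
negation, conjunction and substitution of computable functions. Examples: the computable
predicates; the predicates computable from a fixed oracle; the sets of an omega-model of ACA_0. -/
structure IsBase (B : Set (ℕ → Prop)) : Prop where
  comp : ∀ p : ℕ → Prop, ComputablePred p → p ∈ B
  neg : ∀ p ∈ B, (fun x => ¬ p x) ∈ B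
  conj : ∀ p ∈ B, ∀ q ∈ B, (fun x => p x ∧ q x) ∈ B
  subst : ∀ p ∈ B, ∀ f : ℕ → ℕ, Computable f → (fun x => p (f x)) ∈ B

/-- The arithmetical hierarchy over `B`. Level `0` is `B`, and `p` is Sigma `n + 1` when `p x` holds
iff some `y` has `¬ q ⟨x, y⟩`, for a Sigma `n` predicate `q`. -/
def SigmaOver (B : Set (ℕ → Prop)) : ℕ → (ℕ → Prop) → Prop
  | 0, p => p ∈ B
  | n + 1, p => ∃ q : ℕ → Prop, SigmaOver B n q ∧ ∀ x, p x ↔ ∃ y, ¬ q (Nat.pair x y)

end Pool.Agent.MP_850d05_lc.H20
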