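import Pool.Agent.MP_850d05_lc.H20.Ar

/-! Dynamics of colourings under xor. -/

set_option linter.unusedSectionVars false

namespace Pool.Agent.MP_850d05_lc.H20

open MeasureTheory Set Filter Topology

abbrev Co := ℕ × ℕ × Bool
abbrev XX := Co → Bool
abbrev PP := ProbabilityMeasure XX
abbrev Cy := List (Co × Bool)
abbrev At := List Cy × List Cy
abbrev Bo := List At

def act (t : ℕ) (ζ : XX) : XX := fun q => ζ (q.1 ^^^ t, q.2)
def cyl (C : Cy) : Set XX := {ζ | ∀ b, b ∈ C → ζ b.1 = b.2}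
def sh (t : ℕ) (C : Cy) : Cy := C.map fun b => ((b.1.1 ^^^ t, b.1.2), b.2)
/-- The cylinder fixing the coordinates in `W` as in `ζ`. -/
def wd (W : List Co) (ζ : XX) : Cy := W.map fun q => (q, ζ q)
theorem cont_act (t : ℕ) : Continuous (act t) := continuous_pi fun _ => continuous_apply _
noncomputable def pact (t : ℕ) (μ : PP) : PP := μ.map (cont_act t).measurable.aemeasurable
noncomputable def ms (μ : PP) (S : Set XX) : ℝ := (μ : Measure XX).real S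
noncomputable def ev (L : List Cy) (μ : PP) : ℝ := (L.map fun C => ms μ (cyl C)).sum
def hs (h : At) : Set PP := {μ | ev h.2 μ < ev h.1 μ}
def bo (u : Bo) : Set PP := {μ | ∀ h, h ∈ u → μ ∈ hs h}
def shA (t : ℕ) (h : At) : At := (h.1.map (sh t), h.2.map (sh t))
def shB (t : ℕ) (u : Bo) : Bo := u.map (shA t)
noncomputable def act2 (t : ℕ) (p : XX × PP) : XX × PP := (act t p.1, pact t p.2)
noncomputable def act3 (t : ℕ) (p : XX × XX × PP) : XX × XX × PP :=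
  (act t p.1, act t p.2.1, pact t p.2.2)
def tr (ζ : XX) : ℕ × ℕ → Bool := fun q => ζ (q.1, q.2, true)
def Inv {S : Type} (a : ℕ → S → S) (A : Set S) : Prop := ∀ t, ∀ p ∈ A, a t p ∈ A
def Orb {S : Type} [TopologicalSpace S] (a : ℕ → S → S) (p : S) : Set S :=
  closure (range fun t => a t p)
structure Minl {S : Type} [TopologicalSpace S] (a : ℕ → S → S) (A : Set S) : Prop where
  ne : A.Nonempty
  cl : IsClosed A
  inv : Inv a A
  orb : ∀ p ∈ A, ∀ q ∈ A, q ∈ Orb a p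
def Pos (μ : PP) (C : Cy) : Prop := 0 < ms μ (cyl C)
def Supp (μ : PP) : Set XX := Rem cyl univ fun C => ¬ Pos μ C
def Fib (M : Set XX) (ω : ℕ × ℕ → Bool) : Set PP :=
  {μ | ∀ᵐ ζ ∂(μ : Measure XX), ζ ∈ M ∧ tr ζ = ω}
def Om (x : XX) : Set XX := Rem cyl univ fun C => ∃ n, ∀ w, n < w → x ∉ cyl (sh w C)
def ca (a : ℕ) : Cy := [((0, a, false), true)]
def nb (n : ℕ) : Cy := (List.range n).map fun i => ((0, i, true), false)
def xof (c : ℕ → ℕ) : XX := fun q => if q.2.2 then q.1.testBit q.2.1 else decide (c q.1 = q.2.1)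

theorem act_zero (ζ : XX) : act 0 ζ = ζ := by funext q; simp [act]
theorem act_act (s t : ℕ) (ζ : XX) : act s (act t ζ) = act (s ^^^ t) ζ := by
  funext q; simp [act, Nat.xor_assoc]
theorem act_self (t : ℕ) (ζ : XX) : act t (act t ζ) = ζ := by
  rw [act_act, Nat.xor_self, act_zero]
theorem mem_sh {t : ℕ} {C : Cy} {ζ : XX} : ζ ∈ cyl (sh t C) ↔ act t ζ ∈ cyl C :=
  ⟨fun h b hb => h _ (List.mem_map.2 ⟨b, hb, rfl⟩), fun h b hb => by
    obtain ⟨b', hb', rfl⟩ := List.mem_map.1 hb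
    exact h b' hb'⟩
theorem cyl_sh (t : ℕ) (C : Cy) : cyl (sh t C) = act t ⁻¹' cyl C := Set.ext fun _ => mem_sh
theorem cyl_nil : cyl [] = univ := by ext ζ; simp [cyl]
theorem cyl_append (C C' : Cy) : cyl (C ++ C') = cyl C ∩ cyl C' := by
  ext ζ
  simp only [cyl, List.mem_append, Set.mem_ofPred_eq, mem_inter_iff, or_imp, forall_and]
theorem mem_wd {W : List Co} {ζ η : XX} : η ∈ cyl (wd W ζ) ↔ ∀ q ∈ W, η q = ζ q :=
  ⟨fun h q hq => h _ (List.mem_map.2 ⟨q, hq, rfl⟩), fun h b hb => by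
    obtain ⟨q, hq, rfl⟩ := List.mem_map.1 hb
    exact h q hq⟩
theorem mem_ca {a : ℕ} {ζ : XX} : ζ ∈ cyl (ca a) ↔ ζ (0, a, false) = true := by simp [cyl, ca]
theorem mem_nb {n : ℕ} {ζ : XX} : ζ ∈ cyl (nb n) ↔ ∀ i < n, ζ (0, i, true) = false :=
  ⟨fun h i hi => h _ (List.mem_map.2 ⟨i, List.mem_range.2 hi, rfl⟩), fun h b hb => by
    obtain ⟨i, hi, rfl⟩ := List.mem_map.1 hb
    exact h i (List.mem_range.1 hi)⟩

theorem clopen_cyl (C : Cy) : IsClopen (cyl C) := by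
  induction C with
  | nil => rw [cyl_nil]; exact isClopen_univ
  | cons b C ih =>
    have h : cyl (b :: C) = (fun ζ : XX => ζ b.1) ⁻¹' {b.2} ∩ cyl C := by
      ext ζ
      simp [cyl]
    rw [h]
    exact ((isClopen_discrete _).preimage (continuous_apply b.1)).inter ih
theorem open_cyl (C : Cy) : IsOpen (cyl C) := (clopen_cyl C).isOpen
theorem meas_cyl (C : Cy) : MeasurableSet (cyl C) := (open_cyl C).measurableSet
theorem wd_basis {ζ : XX} {U : Set XX} (h : U ∈ 𝓝 ζ) : ∃ W, cyl (wd W ζ) ⊆ U := by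
  rw [nhds_pi, Filter.mem_pi] at h
  obtain ⟨I, hI, s, hs, hU⟩ := h
  refine ⟨hI.toFinset.toList, fun η hη => hU fun q hq => ?_⟩
  rw [mem_wd.1 hη q (Finset.mem_toList.2 (hI.mem_toFinset.2 hq))]
  exact mem_of_mem_nhds (hs q)
theorem cyl_basis {ζ : XX} {U : Set XX} (h : U ∈ 𝓝 ζ) : ∃ C, ζ ∈ cyl C ∧ cyl C ⊆ U := by
  obtain ⟨W, hW⟩ := wd_basis h
  exact ⟨wd W ζ, mem_wd.2 fun _ _ => rfl, hW⟩
/-- `act t` as a measurable equivalence. -/
def ta_equiv (t : ℕ) : XX ≃ᵐ XX where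
  toFun := act t
  invFun := act t
  left_inv := act_self t
  right_inv := act_self t
  measurable_toFun := (cont_act t).measurable
  measurable_invFun := (cont_act t).measurable
theorem ta_emb (t : ℕ) : MeasurableEmbedding (act t) := (ta_equiv t).measurableEmbedding
theorem ta_coe (t : ℕ) (μ : PP) : (pact t μ : Measure XX) = (μ : Measure XX).map (act t) := rfl
theorem ms_pact (t : ℕ) (μ : PP) (S : Set XX) : ms (pact t μ) S = ms μ (act t ⁻¹' S) := by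
  simp only [ms, Measure.real, ta_coe, (ta_emb t).map_apply]
theorem ms_sh (t : ℕ) (μ : PP) (C : Cy) : ms μ (cyl (sh t C)) = ms (pact t μ) (cyl C) := by
  rw [ms_pact, cyl_sh]
theorem ae_pact {t : ℕ} {μ : PP} {p : XX → Prop} :
    (∀ᵐ ζ ∂(pact t μ : Measure XX), p ζ) ↔ ∀ᵐ ζ ∂(μ : Measure XX), p (act t ζ) := by
  rw [ta_coe, (ta_emb t).ae_map_iff]
theorem pact_zero (μ : PP) : pact 0 μ = μ := by
  apply Subtype.ext
  change (μ : Measure XX).map (act 0) = μ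
  rw [show act 0 = id from funext act_zero, Measure.map_id]
theorem pact_pact (s t : ℕ) (μ : PP) : pact s (pact t μ) = pact (s ^^^ t) μ := by
  apply Subtype.ext
  change ((μ : Measure XX).map (act t)).map (act s) = (μ : Measure XX).map (act (s ^^^ t))
  rw [Measure.map_map (cont_act s).measurable (cont_act t).measurable]
  congr 1
  funext ζ
  exact act_act s t ζ
theorem pact_self (t : ℕ) (μ : PP) : pact t (pact t μ) = μ := by
  rw [pact_pact, Nat.xor_self, pact_zero]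
theorem cont_pact (t : ℕ) : Continuous (pact t) :=
  ProbabilityMeasure.continuous_map (cont_act t)
theorem cont_act2 (t : ℕ) : Continuous (act2 t) :=
  ((cont_act t).comp continuous_fst).prodMk ((cont_pact t).comp continuous_snd)
theorem cont_act3 (t : ℕ) : Continuous (act3 t) :=
  ((cont_act t).comp continuous_fst).prodMk
    (((cont_act t).comp (continuous_fst.comp continuous_snd)).prodMk
      ((cont_pact t).comp (continuous_snd.comp continuous_snd)))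

theorem cont_ms {S : Set XX} (h : IsClopen S) : Continuous fun μ => ms μ S := by
  refine continuous_iff_continuousAt.2 fun μ => ?_
  have h1 := ProbabilityMeasure.tendsto_measure_of_isClopen_of_tendsto
    (μs := fun ν : PP => ν) (μ := μ) (L := 𝓝 μ) tendsto_id h
  have h2 := (NNReal.continuous_coe.tendsto _).comp h1
  exact h2
theorem cont_ev (L : List Cy) : Continuous (ev L) :=
  continuous_list_sum L fun C _ => cont_ms (clopen_cyl C)
theorem open_hs (h : At) : IsOpen (hs h) := isOpen_lt (cont_ev h.2) (cont_ev h.1)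
theorem open_bo (u : Bo) : IsOpen (bo u) := by
  have : bo u = ⋂ h ∈ {h | h ∈ u}, hs h := by ext μ; simp [bo]
  rw [this]
  exact (List.finite_toSet u).isOpen_biInter fun h _ => open_hs h
theorem td_ev (t : ℕ) (L : List Cy) (μ : PP) : ev (L.map (sh t)) μ = ev L (pact t μ) := by
  simp only [ev, List.map_map, Function.comp_def, ms_sh]
theorem mem_shA {t : ℕ} {h : At} {μ : PP} : μ ∈ hs (shA t h) ↔ pact t μ ∈ hs h := by
  change ev (h.2.map (sh t)) μ < ev (h.1.map (sh t)) μ ↔ ev h.2 (pact t μ) < ev h.1 (pact t μ)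
  rw [td_ev, td_ev]
theorem mem_shB {t : ℕ} {u : Bo} {μ : PP} : μ ∈ bo (shB t u) ↔ pact t μ ∈ bo u :=
  ⟨fun H h hh => mem_shA.1 (H _ (List.mem_map.2 ⟨h, hh, rfl⟩)), fun H h hh => by
    obtain ⟨h', hh', rfl⟩ := List.mem_map.1 hh
    exact mem_shA.2 (H h' hh')⟩
theorem bo_append (u u' : Bo) : bo (u ++ u') = bo u ∩ bo u' := by
  ext μ
  simp only [bo, List.mem_append, Set.mem_ofPred_eq, mem_inter_iff, or_imp, forall_and]
theorem pos_iff {μ : PP} {C : Cy} : Pos μ C ↔ μ ∈ bo [([C], [])] := by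
  simp [Pos, bo, hs, ev]
theorem supp_closed (μ : PP) : IsClosed (Supp μ) := Rem.closed open_cyl isClosed_univ _
theorem td_null {μ : PP} {S : Set XX} (h : ¬ 0 < ms μ S) : (μ : Measure XX) S = 0 := by
  have h0 : (μ : Measure XX).real S = 0 := le_antisymm (not_lt.1 h) measureReal_nonneg
  exact (measureReal_eq_zero_iff (measure_ne_top _ _)).1 h0
theorem ae_supp (μ : PP) : ∀ᵐ ζ ∂(μ : Measure XX), ζ ∈ Supp μ := by
  have : ∀ᵐ ζ ∂(μ : Measure XX), ∀ C : Cy, ¬ Pos μ C → ζ ∉ cyl C := by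
    refine ae_all_iff.2 fun C => ?_
    by_cases hC : Pos μ C
    · exact Eventually.of_forall fun _ h => absurd hC h
    · exact (measure_eq_zero_iff_ae_notMem.1 (td_null hC)).mono fun _ h _ => h
  exact this.mono fun ζ h => ⟨mem_univ _, h⟩
theorem supp_pos {μ : PP} {ζ : XX} (h : ζ ∈ Supp μ) {U : Set XX} (hU : U ∈ 𝓝 ζ) : 0 < ms μ U := by
  obtain ⟨C, hC, hCU⟩ := cyl_basis hU
  have : Pos μ C := by_contra fun hn => h.2 C hn hC
  exact lt_of_lt_of_le this (measureReal_mono hCU)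
theorem ex_of_pos {μ : PP} {S : Set XX} (h : 0 < ms μ S) {p : XX → Prop}
    (hp : ∀ᵐ ζ ∂(μ : Measure XX), p ζ) : ∃ ζ ∈ S, p ζ := by
  by_contra hn
  have h0 : (μ : Measure XX) S = 0 :=
    measure_eq_zero_iff_ae_notMem.2 (hp.mono fun ζ h1 h2 => hn ⟨ζ, h2, h1⟩)
  simp [ms, Measure.real, h0] at h
theorem supp_sub {μ : PP} {F : Set XX} (hF : IsClosed F) (h : ∀ᵐ ζ ∂(μ : Measure XX), ζ ∈ F) :
    Supp μ ⊆ F := fun ζ hζ => by_contra fun hn => by
  obtain ⟨η, h1, h2⟩ := ex_of_pos (supp_pos hζ (hF.isOpen_compl.mem_nhds hn)) h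
  exact h1 h2
theorem ae_iff_ms {μ : PP} {S : Set XX} (h : MeasurableSet S) :
    (∀ᵐ ζ ∂(μ : Measure XX), ζ ∈ S) ↔ 1 ≤ ms μ S := by
  have h1 : (∀ᵐ ζ ∂(μ : Measure XX), ζ ∈ S) ↔ (μ : Measure XX) S = 1 :=
    (prob_compl_eq_zero_iff h)
  rw [h1, ms, Measure.real]
  constructor
  · intro h2; simp [h2]
  · intro h2
    refine le_antisymm prob_le_one ?_
    rwa [← ENNReal.toReal_le_toReal ENNReal.one_ne_top (measure_ne_top _ _), ENNReal.toReal_one]
theorem orb_sub {S : Type} [TopologicalSpace S] {a : ℕ → S → S} {A : Set S} (hA : IsClosed A)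
    (hi : Inv a A) {p : S} (hp : p ∈ A) : Orb a p ⊆ A :=
  closure_minimal (range_subset_iff.2 fun t => hi t p hp) hA
theorem orb_inv {S : Type} [TopologicalSpace S] {a : ℕ → S → S} (hc : ∀ t, Continuous (a t))
    (ha : ∀ s t p, a s (a t p) = a (s ^^^ t) p) (p : S) : Inv a (Orb a p) := fun t _ hq =>
  map_mem_closure (hc t) hq fun _ ⟨s, hs⟩ => ⟨t ^^^ s, by rw [← hs]; exact (ha t s p).symm⟩

theorem pp_ext {μ ν : PP} (h : ∀ C, ms μ (cyl C) = ms ν (cyl C)) : μ = ν := by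
  have hb : TopologicalSpace.IsTopologicalBasis (range cyl) :=
    TopologicalSpace.isTopologicalBasis_of_isOpen_of_nhds (forall_mem_range.2 open_cyl)
      fun a u ha hu => by
        obtain ⟨C, h1, h2⟩ := cyl_basis (hu.mem_nhds ha)
        exact ⟨_, ⟨C, rfl⟩, h1, h2⟩
  refine ProbabilityMeasure.toMeasure_injective (ext_of_generate_finite (range cyl)
    (BorelSpace.measurable_eq.trans hb.borel_eq_generateFrom) ?_ ?_ (by simp))
  · rintro _ ⟨C, rfl⟩ _ ⟨C', rfl⟩ _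
    exact ⟨_, cyl_append C C'⟩
  · rintro _ ⟨C, rfl⟩
    exact (ENNReal.toReal_eq_toReal_iff' (measure_ne_top _ _) (measure_ne_top _ _)).1 (h C)
theorem tb_sep {μ ν : PP} {C : Cy} (h : ms ν (cyl C) < ms μ (cyl C)) :
    ∃ a : At, μ ∈ hs a ∧ ν ∈ hs a.swap := by
  obtain ⟨n, hn⟩ := exists_nat_one_div_lt (sub_pos.2 h)
  have h0 : (0 : ℝ) < (n : ℝ) + 1 := by positivity
  have h1 : 0 ≤ ((n : ℝ) + 1) * ms ν (cyl C) := mul_nonneg h0.le measureReal_nonneg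
  have e1 : ∀ (k : ℕ) (D : Cy) (m : PP), ev (List.replicate k D) m = k * ms m (cyl D) :=
    fun k D m => by simp [ev]
  have e2 : ∀ m : PP, ms m (cyl []) = 1 := fun m => by simp [cyl_nil, ms]
  rw [div_lt_iff₀ h0] at hn
  refine ⟨(List.replicate (n + 1) C, List.replicate (⌊((n : ℝ) + 1) * ms ν (cyl C)⌋₊ + 1) []),
    ?_, ?_⟩
  · show ev (List.replicate _ _) μ < ev (List.replicate _ _) μ
    rw [e1, e1, e2]
    push_cast
    linarith [Nat.floor_le h1]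
  · show ev (List.replicate _ _) ν < ev (List.replicate _ _) ν
    rw [e1, e1, e2]
    push_cast
    linarith [Nat.lt_floor_add_one (((n : ℝ) + 1) * ms ν (cyl C))]
theorem bo_basis {μ : PP} {U : Set PP} (h : U ∈ 𝓝 μ) : ∃ u, μ ∈ bo u ∧ bo u ⊆ U := by
  obtain ⟨u, h1, h2⟩ := (isOpen_interior (s := U)).isClosed_compl.isCompact.induction_on
    (p := fun S => ∃ u, μ ∈ bo u ∧ bo u ⊆ Sᶜ) ⟨[], fun _ h => by simp at h, by simp⟩
    (fun S T hST ⟨u, h1, h2⟩ => ⟨u, h1, h2.trans (compl_subset_compl.2 hST)⟩)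
    (fun S T ⟨u, h1, h2⟩ ⟨u', h1', h2'⟩ => ⟨u ++ u', by rw [bo_append]; exact ⟨h1, h1'⟩, by
      rw [bo_append, compl_union]; exact inter_subset_inter h2 h2'⟩)
    fun ν hν => by
      obtain ⟨a, h1, h2⟩ : ∃ a : At, μ ∈ hs a ∧ ν ∈ hs a.swap := by
        obtain ⟨C, hC⟩ := not_forall.1 fun h0 => hν (pp_ext (μ := μ) (ν := ν) h0 ▸
          mem_interior_iff_mem_nhds.2 h)
        rcases lt_or_gt_of_ne hC with h3 | h3
        · obtain ⟨a, h4, h5⟩ := tb_sep h3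
          exact ⟨a.swap, h5, h4⟩
        · exact tb_sep h3
      exact ⟨hs a.swap, mem_nhdsWithin_of_mem_nhds ((open_hs _).mem_nhds h2), [a],
        fun b hb => List.mem_singleton.1 hb ▸ h1,
        fun m hm h3 => lt_asymm (show ev a.1 m < ev a.2 m from h3) (hm a List.mem_cons_self)⟩
  exact ⟨u, h1, h2.trans (by rw [compl_compl]; exact interior_subset)⟩
theorem tendsto_of_cyl {J : Type} {V : Filter J} {m : J → PP} {μ : PP}
    (h : ∀ C, Tendsto (fun v => ms (m v) (cyl C)) V (𝓝 (ms μ (cyl C)))) : Tendsto m V (𝓝 μ) :=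
  tendsto_nhds_of_unique_mapClusterPt fun _ hν => pp_ext fun C => eq_of_nhds_neBot
    (ClusterPt.mono (hν.continuousAt_comp (f := fun a : PP => ms a (cyl C))
      (cont_ms (clopen_cyl C)).continuousAt) (h C))
/-- Portmanteau along a filter, with moving sets. -/
theorem usc_filter {J : Type} {V : Filter J} [V.NeBot] {m : J → PP} {μ : PP}
    (hm : Tendsto m V (𝓝 μ)) {S : J → Set XX} {N : Set XX} (hN : IsClosed N)
    (hS : ∀ U, IsOpen U → N ⊆ U → ∀ᶠ v in V, S v ⊆ U) {r : ℝ} (hr : ∀ᶠ v in V, r ≤ ms (m v) (S v)) :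
    r ≤ ms μ N := by
  refine not_lt.1 fun h => ?_
  obtain ⟨U, h1, h2, h3⟩ := N.exists_isOpen_lt_of_lt (μ := (μ : Measure XX)) (ENNReal.ofReal r)
    ((ENNReal.lt_ofReal_iff_toReal_lt (measure_ne_top _ _)).2 h)
  obtain ⟨F, h4, h5, h6⟩ := exists_clopen_of_closed_subset_open hN h2 h1
  have h7 : ms μ F < r := (measureReal_mono h6).trans_lt
    ((ENNReal.lt_ofReal_iff_toReal_lt (measure_ne_top _ _)).1 h3)
  obtain ⟨v, ⟨e1, e2⟩, e3⟩ := ((hr.and (hS F h4.isOpen h5)).and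
    ((((cont_ms h4).tendsto μ).comp hm).eventually (gt_mem_nhds h7))).exists
  exact (e1.trans (measureReal_mono e2)).not_gt e3
theorem usc {S : Type} [TopologicalSpace S] {N : Set (S × XX)} (hN : IsClosed N) {m : S → PP}
    (hm : Continuous m) (r : ℝ) : IsClosed {p | r ≤ ms (m p) {ζ | (p, ζ) ∈ N}} := by
  refine isClosed_of_closure_subset fun p hp => ?_
  have := mem_closure_iff_nhdsWithin_neBot.1 hp
  refine usc_filter (hm.continuousWithinAt (x := p)) (S := fun q => {ζ | (q, ζ) ∈ N})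
    (hN.preimage (by fun_prop)) (fun U hU h1 => ?_) self_mem_nhdsWithin
  refine ((isCompact_univ.eventually_forall_of_forall_eventually
    (P := fun q ζ => (q, ζ) ∈ N → ζ ∈ U) fun ζ _ => ?_).filter_mono nhdsWithin_le_nhds).mono
    fun q hq ζ => hq ζ trivial
  exact mem_of_superset ((hN.isOpen_compl.union (hU.preimage continuous_snd)).mem_nhds
    (or_iff_not_imp_left.2 fun h2 => h1 (not_not.1 h2))) fun z hz h2 => hz.resolve_left fun h3 => h3 h2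

theorem te_mem {x ζ : XX} :
    ζ ∈ Om x ↔ ∀ C, ζ ∈ cyl C → ∃ᶠ w in atTop, act w x ∈ cyl C := by
  simp only [Om, Rem, mem_ofPred_eq, mem_univ, true_and, mem_sh, frequently_atTop']
  refine forall_congr' fun C => ?_
  rw [imp_not_comm]
  push Not
  rfl
theorem mem_om {x ζ : XX} : ζ ∈ Om x ↔ MapClusterPt ζ atTop fun w => act w x := by
  rw [te_mem, mapClusterPt_iff_frequently]
  refine ⟨fun h U hU => ?_, fun h C hC => h _ ((open_cyl C).mem_nhds hC)⟩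
  obtain ⟨C, h1, h2⟩ := cyl_basis hU
  exact (h C h1).mono fun _ hw => h2 hw
theorem om_closed (x : XX) : IsClosed (Om x) := by
  have : Om x = {ζ | ClusterPt ζ (map (fun w => act w x) atTop)} := Set.ext fun _ => mem_om
  rw [this]
  exact isClosed_setOfPred_clusterPt
theorem om_ne (x : XX) : (Om x).Nonempty := by
  obtain ⟨ζ, h⟩ := exists_clusterPt_of_compactSpace (map (fun w => act w x) atTop)
  exact ⟨ζ, mem_om.2 h⟩
theorem om_inv (x : XX) : Inv act (Om x) := by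
  intro t ζ h
  have ht : Tendsto (fun w => t ^^^ w) atTop atTop := by
    rw [← Nat.cofinite_eq_atTop]
    exact Function.Injective.tendsto_cofinite fun _ _ e => Nat.xor_right_inj.1 e
  refine te_mem.2 fun C hC => ht.frequently ((te_mem.1 h _ (mem_sh.2 hC)).mono fun w hw => ?_)
  rw [← act_act]
  exact mem_sh.1 hw
theorem om_col {c : ℕ → ℕ} {I : Finset ℕ} (h : ∀ s, s ≠ 0 → c s ∈ I) {ζ : XX}
    (hζ : ζ ∈ Om (xof c)) : ∃ a ∈ I, ζ ∈ cyl (ca a) := by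
  by_contra hn
  obtain ⟨w, h1, h2⟩ := ((te_mem.1 hζ (wd (I.toList.map fun a => (0, a, false)) ζ)
    (mem_wd.2 fun _ _ => rfl)).and_eventually (eventually_ne_atTop 0)).exists
  refine hn ⟨c w, h w h2, mem_ca.2 ?_⟩
  rw [← mem_wd.1 h1 _ (List.mem_map.2 ⟨c w, Finset.mem_toList.2 (h w h2), rfl⟩)]
  simp [act, xof]

theorem fib_act {M : Set XX} (hM : Inv act M) {ζ : XX} {μ : PP} (h : μ ∈ Fib M (tr ζ)) (t : ℕ) :
    pact t μ ∈ Fib M (tr (act t ζ)) :=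
  ae_pact.2 (Eventually.mono h fun η hη =>
    ⟨hM t η hη.1, funext fun q => congrFun hη.2 (q.1 ^^^ t, q.2)⟩)
theorem fib_closed {M : Set XX} (hM : IsClosed M) :
    IsClosed {p : XX × PP | p.2 ∈ Fib M (tr p.1)} := by
  have ht : Continuous tr := continuous_pi fun _ => continuous_apply _
  have hN : IsClosed {q : (XX × PP) × XX | q.2 ∈ M ∧ tr q.2 = tr q.1.1} :=
    (hM.preimage continuous_snd).inter
      (isClosed_eq (ht.comp continuous_snd) (ht.comp continuous_fst.fst))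
  refine (congrArg IsClosed (Set.ext fun p => ?_)).mpr (usc hN continuous_snd 1)
  exact ae_iff_ms (hN.preimage (Continuous.prodMk_right p)).measurableSet
theorem fib_pt {M : Set XX} {ω : ℕ × ℕ → Bool} {μ : PP} (h : μ ∈ Fib M ω) : ∃ ζ ∈ M, tr ζ = ω :=
  Eventually.exists (f := ae (μ : Measure XX)) h
/-- The complement of a cylinder as a union of cylinders. -/
def ng (C : Cy) : List Cy := C.map fun b => [(b.1, !b.2)]
/-- The basic open sets that are removed to get the measures living on one fibre of `M`. -/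
def QI (M : Set XX) (u : Bo) : Prop := (∃ C, Cov cyl M (ng C) ∧ u = [([C], [])]) ∨
  ∃ s i, u = [([[((s, i, true), true)]], []), ([[((s, i, true), false)]], [])]
theorem tc_ng {C : Cy} {ζ : XX} : (∃ D ∈ ng C, ζ ∈ cyl D) ↔ ζ ∉ cyl C := by
  constructor
  · rintro ⟨_, hD, h1⟩ h2
    obtain ⟨b, hb, rfl⟩ := List.mem_map.1 hD
    exact Bool.eq_not_self _ |>.1 ((h2 b hb).symm.trans (h1 _ List.mem_cons_self))
  · intro h
    obtain ⟨b, h1⟩ := not_forall.1 h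
    obtain ⟨hb, h2⟩ := Classical.not_imp.1 h1
    exact ⟨_, List.mem_map.2 ⟨b, hb, rfl⟩, fun c hc => by
      rw [List.mem_singleton.1 hc]; exact Bool.eq_not_iff.2 h2⟩
theorem tc_two {μ : PP} {C D : Cy} : μ ∈ bo [([C], []), ([D], [])] ↔ Pos μ C ∧ Pos μ D := by
  rw [pos_iff, pos_iff, ← mem_inter_iff, ← bo_append]; rfl
theorem mem_q {M : Set XX} (hM : IsClosed M) {μ : PP} :
    μ ∈ Rem bo univ (QI M) ↔ ∃ ω, μ ∈ Fib M ω := by
  classical
  constructor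
  · rintro ⟨-, h⟩
    refine ⟨fun q => decide (Pos μ [((q.1, q.2, true), true)]), (ae_supp μ).mono fun ζ hζ =>
      ⟨by_contra fun h1 => ?_, funext fun q => ?_⟩⟩
    · obtain ⟨C, h2, h3⟩ := cyl_basis (hM.isOpen_compl.mem_nhds h1)
      exact hζ.2 C (fun h4 => h _ (Or.inl ⟨C, fun p hp => tc_ng.2 fun h5 => h3 h5 hp, rfl⟩)
        (pos_iff.1 h4)) h2
    · have h1 : Pos μ [((q.1, q.2, true), ζ (q.1, q.2, true))] :=
        by_contra fun h2 => hζ.2 _ h2 (by simp [cyl])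
      show ζ (q.1, q.2, true) = _
      cases h2 : ζ (q.1, q.2, true) <;> rw [h2] at h1
      · exact (decide_eq_false fun h3 => h _ (Or.inr ⟨q.1, q.2, rfl⟩) (tc_two.2 ⟨h3, h1⟩)).symm
      · exact (decide_eq_true h1).symm
  · rintro ⟨ω, h⟩
    refine ⟨trivial, ?_⟩
    rintro _ (⟨C, h1, rfl⟩ | ⟨s, i, rfl⟩) h2
    · obtain ⟨ζ, h3, h4⟩ := ex_of_pos (pos_iff.2 h2) h
      exact tc_ng.1 (h1 ζ h4.1) h3
    · obtain ⟨ζ, h3, h4⟩ := ex_of_pos (tc_two.1 h2).1 h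
      obtain ⟨η, h5, h6⟩ := ex_of_pos (tc_two.1 h2).2 h
      exact Bool.noConfusion ((h3 _ List.mem_cons_self).symm.trans
        ((congrFun (h4.2.trans h6.2.symm) (s, i)).trans (h5 _ List.mem_cons_self)))
theorem q_ne {M : Set XX} (hM : M.Nonempty) : ∃ ω, (Fib M ω).Nonempty := by
  obtain ⟨ζ, hζ⟩ := hM
  refine ⟨tr ζ, ⟨Measure.dirac ζ, inferInstance⟩, ?_⟩
  show ∀ᵐ η ∂Measure.dirac ζ, η ∈ M ∧ tr η = tr ζ
  rw [ae_dirac_eq]
  exact ⟨hζ, rfl⟩

theorem tf_cl (q : Co) (b : Bool) : IsClosed {ζ : XX | ζ q = b} :=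
  isClosed_eq (continuous_apply q) continuous_const
theorem tf_tr (c : ℕ → ℕ) (s i : ℕ) : tr (xof c) (s, i) = s.testBit i := by simp [tr, xof]
theorem tf_om {c : ℕ → ℕ} {ζ : XX} (h : ζ ∈ Om (xof c)) (s i : ℕ) :
    ζ (s, i, true) = xor (s.testBit i) (ζ (0, i, true)) := by
  have hc : IsClosed {ζ : XX | ζ (s, i, true) = xor (s.testBit i) (ζ (0, i, true))} :=
    isClosed_eq (continuous_apply _)
      ((continuous_of_discreteTopology (f := fun b => xor (s.testBit i) b)).comp (continuous_apply _))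
  refine hc.mem_of_mapClusterPt (mem_om.1 h) (Eventually.of_forall fun w => ?_)
  simp [act, xof, Nat.testBit_xor]
theorem fib_zero {c : ℕ → ℕ} {M : Set XX} (hM : Minl act M) (hO : M ⊆ Om (xof c)) {Y : Set PP}
    (hY : Minl pact Y) (hf : ∀ μ ∈ Y, ∃ ω, μ ∈ Fib M ω) : (Y ∩ Fib M (tr (xof c))).Nonempty := by
  obtain ⟨μ, hμ⟩ := hY.ne
  obtain ⟨ω, hω⟩ := hf μ hμ
  obtain ⟨z, hz, rfl⟩ := fib_pt hω
  let t : ℕ → ℕ := fun n => Nat.ofBits fun i : Fin n => z (0, i, true)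
  obtain ⟨p, -, hp⟩ := (isCompact_univ (X := XX × PP)).exists_mapClusterPt (f := atTop)
    (u := fun n => (act (t n) z, pact (t n) μ)) (by simp)
  have h1 : p ∈ Prod.snd ⁻¹' Y := (hY.cl.preimage continuous_snd).mem_of_mapClusterPt hp
    (Eventually.of_forall fun n => hY.inv _ _ hμ)
  have h2 := (fib_closed hM.cl).mem_of_mapClusterPt hp
    (Eventually.of_forall fun n => fib_act hM.inv hω (t n))
  have h3 : tr p.1 = tr (xof c) := by
    funext ⟨s, i⟩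
    rw [tf_tr]
    refine ((tf_cl (s, i, true) (s.testBit i)).preimage continuous_fst).mem_of_mapClusterPt hp ?_
    filter_upwards [eventually_gt_atTop i] with n hn
    change z (s ^^^ t n, i, true) = s.testBit i
    rw [tf_om (hO hz), Nat.testBit_xor, Nat.testBit_ofBits_lt _ _ hn]
    simp
  exact ⟨p.2, h1, h3 ▸ h2⟩
theorem mem_y0 {c : ℕ → ℕ} {M : Set XX} {Y : Set PP} (hf : ∀ μ ∈ Y, ∃ ω, μ ∈ Fib M ω) :
    Rem bo Y (fun u => ∃ s i, u = [([[((s, i, true), !(s.testBit i))]], [])]) =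
      Y ∩ Fib M (tr (xof c)) := by
  ext μ
  refine and_congr_right fun hμ => ⟨fun h => ?_, ?_⟩
  · obtain ⟨ω, hω⟩ := hf μ hμ
    have e : ω = tr (xof c) := by
      funext ⟨s, i⟩
      rw [tf_tr]
      by_contra hne
      refine h _ ⟨s, i, rfl⟩ (pos_iff.1 (one_pos.trans_le ((ae_iff_ms (meas_cyl _)).1 ?_)))
      filter_upwards [hω] with ζ hζ b hb
      rw [List.mem_singleton.1 hb]
      rw [← hζ.2] at hne
      exact Bool.eq_not_iff.2 hne
    exact e ▸ hω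
  · rintro h _ ⟨s, i, rfl⟩ hu
    obtain ⟨ζ, h1, h2⟩ := ex_of_pos (pos_iff.2 hu) h
    have h3 := h1 _ (List.mem_singleton_self _)
    have h4 := (congrFun h2.2 (s, i)).trans (tf_tr c s i)
    exact Bool.eq_not_iff.1 h3 h4
theorem fib_nb {c : ℕ → ℕ} {M : Set XX} {μ : PP} (h : μ ∈ Fib M (tr (xof c))) (n : ℕ) :
    ∀ᵐ ζ ∂(μ : Measure XX), ζ ∈ cyl (nb n) := by
  filter_upwards [h] with ζ hζ
  exact mem_nb.2 fun i _ => ((congrFun hζ.2 (0, i)).trans (tf_tr c 0 i)).trans (Nat.zero_testBit i)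
theorem nb_dvd {c : ℕ → ℕ} {y n : ℕ} (h : xof c ∈ cyl (sh y (nb n))) : 2 ^ n ∣ y := by
  refine Nat.dvd_of_mod_eq_zero (Nat.eq_of_testBit_eq fun i => ?_)
  rw [Nat.testBit_mod_two_pow, Nat.zero_testBit]
  by_cases hi : i < n
  · simpa [act, xof, hi] using mem_nb.1 (mem_sh.1 h) i hi
  · simp [hi]

/-- A fibrewise irreducible convex system of measures over `M`. -/
structure Irr (M : Set XX) (Q : Set PP) : Prop where
  ne : Q.Nonempty
  cl : IsClosed Q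
  inv : Inv pact Q
  fib : ∀ μ ∈ Q, ∃ ω, μ ∈ Fib M ω
  cv : ∀ ν ω, ν ∈ Fib M ω → (∀ h, ν ∈ hs h → (Q ∩ hs h).Nonempty) → ν ∈ Q
  vis : ∀ h, (Q ∩ hs h).Nonempty → ∀ μ ∈ Q, ∃ t, pact t μ ∈ hs h

theorem ra_le (μ : PP) (S : Set XX) : 0 ≤ ms μ S ∧ ms μ S ≤ 1 :=
  ⟨measureReal_nonneg, measureReal_le_one⟩
theorem ra_rep (n : ℕ) (C : Cy) (μ : PP) : ev (List.replicate n C) μ = n * ms μ (cyl C) := by
  simp [ev]
theorem ra_flat (L : List Cy) {k : Cy → ℝ} (hk : ∀ C, 0 ≤ k C) (N : ℕ) (μ : PP) :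
    N * (L.map fun C => k C * ms μ (cyl C)).sum - L.length ≤
      ev (L.flatMap fun C => List.replicate ⌊N * k C⌋₊ C) μ ∧
    ev (L.flatMap fun C => List.replicate ⌊N * k C⌋₊ C) μ ≤
      N * (L.map fun C => k C * ms μ (cyl C)).sum := by
  induction L with
  | nil => simp [ev]
  | cons C L ih =>
    have e := ra_rep ⌊N * k C⌋₊ C μ
    have h1 := mul_le_mul_of_nonneg_right (Nat.floor_le (mul_nonneg N.cast_nonneg (hk C)))
      (ra_le μ (cyl C)).1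
    have h2 := mul_le_mul_of_nonneg_right (Nat.lt_floor_add_one (N * k C)).le (ra_le μ (cyl C)).1
    have h3 := (ra_le μ (cyl C)).2
    simp only [ev, List.flatMap_cons, List.map_append, List.sum_append, List.map_cons,
      List.sum_cons, List.length_cons, Nat.cast_succ] at ih e ⊢
    constructor <;> linarith [ih.1, ih.2]
/-- Real half-spaces are visited. -/
theorem vis_real {M : Set XX} {Q : Set PP} (hQ : Irr M Q) (L : List Cy) (k : Cy → ℝ)
    (hk : ∀ C, 0 ≤ k C) {μ0 : PP} (h0 : μ0 ∈ Q) {η : ℝ} (hη : 0 < η) {ν : PP} (hν : ν ∈ Q) :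
    ∃ t, (L.map fun C => k C * ms μ0 (cyl C)).sum - η <
      (L.map fun C => k C * ms (pact t ν) (cyl C)).sum := by
  rcases lt_or_ge ((L.map fun C => k C * ms μ0 (cyl C)).sum - η) 0 with h | h
  · refine ⟨0, h.trans_le (List.sum_nonneg fun r hr => ?_)⟩
    obtain ⟨C, -, rfl⟩ := List.mem_map.1 hr
    exact mul_nonneg (hk C) (ra_le _ _).1
  obtain ⟨N, hN⟩ := exists_nat_gt ((L.length + 1) / η)
  have hN0 : (0 : ℝ) < N := lt_of_le_of_lt (by positivity) hN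
  rw [div_lt_iff₀ hη] at hN
  have one : ∀ μ : PP, ms μ (cyl []) = 1 := fun μ => by simp [cyl_nil, ms]
  obtain ⟨t, ht⟩ := hQ.vis (L.flatMap fun C => List.replicate ⌊N * k C⌋₊ C,
    List.replicate ⌈N * ((L.map fun C => k C * ms μ0 (cyl C)).sum - η)⌉₊ []) ⟨μ0, h0, by
      show ev _ _ < ev _ _
      rw [ra_rep, one]
      linarith [(ra_flat L hk N μ0).1, Nat.ceil_lt_add_one (mul_nonneg hN0.le h)]⟩ ν hν
  refine ⟨t, lt_of_mul_lt_mul_left ?_ hN0.le⟩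
  change ev _ _ < ev _ _ at ht
  rw [ra_rep, one, mul_one] at ht
  exact (Nat.le_ceil _).trans_lt (ht.trans_le (ra_flat L hk N _).2)
/-- Finite convex combinations. -/
theorem ex_mix {ι : Type} [Fintype ι] (w : ι → ℝ) (hw : ∀ i, 0 ≤ w i) (h1 : ∑ i, w i = 1)
    (μ : ι → PP) : ∃ ν : PP, ∀ S, ms ν S = ∑ i, w i * ms (μ i) S := by
  refine ⟨⟨∑ i, ENNReal.ofReal (w i) • (μ i : Measure XX), ⟨?_⟩⟩, fun S => ?_⟩
  · simp only [Measure.finsetSum_apply, Measure.smul_apply, measure_univ, smul_eq_mul, mul_one]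
    rw [← ENNReal.ofReal_sum_of_nonneg fun i _ => hw i, h1, ENNReal.ofReal_one]
  · simp only [ms, ProbabilityMeasure.coe_mk, Measure.real, Measure.finsetSum_apply,
      Measure.smul_apply, smul_eq_mul]
    rw [ENNReal.toReal_sum fun i _ => ENNReal.mul_ne_top ENNReal.ofReal_ne_top (measure_ne_top _ _)]
    exact Finset.sum_congr rfl fun i _ => by rw [ENNReal.toReal_mul, ENNReal.toReal_ofReal (hw i)]
theorem mix_mem {M : Set XX} {Q : Set PP} (hQ : Irr M Q) {ι : Type} [Fintype ι] {w : ι → ℝ}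
    (hw : ∀ i, 0 ≤ w i) (h1 : ∑ i, w i = 1) {μ : ι → PP} {ω : ℕ × ℕ → Bool}
    (hμ : ∀ i, w i ≠ 0 → μ i ∈ Q ∧ μ i ∈ Fib M ω) {ν : PP}
    (hν : ∀ S, ms ν S = ∑ i, w i * ms (μ i) S) : ν ∈ Q := by
  have _ := h1
  have e : ∀ L, ev L ν = ∑ i, w i * ev L (μ i) := fun L => by
    induction L with
    | nil => simp [ev]
    | cons C L ih =>
      simp only [ev, List.map_cons, List.sum_cons, mul_add, Finset.sum_add_distrib] at ih ⊢
      rw [ih, hν]
  refine hQ.cv ν ω ((measureReal_eq_zero_iff (measure_ne_top _ _)).1 ((hν _).trans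
    (Finset.sum_eq_zero fun i _ => ?_))) fun h hh => ?_
  · by_cases h0 : w i = 0
    · rw [h0, zero_mul]
    · exact mul_eq_zero_of_right _ ((measureReal_eq_zero_iff (measure_ne_top _ _)).2 (hμ i h0).2)
  · by_contra hn
    change ev _ _ < ev _ _ at hh
    rw [e, e] at hh
    refine hh.not_ge (Finset.sum_le_sum fun i _ => ?_)
    by_cases h0 : w i = 0
    · simp [h0]
    · exact mul_le_mul_of_nonneg_left (not_lt.1 fun h' => hn ⟨μ i, (hμ i h0).1, h'⟩) (hw i)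

/-- Points that agree on `W` with a point of `A` whose measure is close to `m` on `L`. -/
def Near (A : Set (XX × PP)) (L : List Cy) (ε : ℝ) (W : List Co) : Set (PP × XX) :=
  {p | ∃ q ∈ A, (∀ b ∈ W, q.1 b = p.2 b) ∧ ∀ C ∈ L, |ms q.2 (cyl C) - ms p.1 (cyl C)| ≤ ε}

noncomputable def rb_p (L : List Cy) (μ ν : PP) : ℝ :=
  (L.map fun C => ms μ (cyl C) * ms ν (cyl C)).sum
theorem rb_sq (L : List Cy) (μ ν : PP) :
    (L.map fun C => (ms ν (cyl C) - ms μ (cyl C)) ^ 2).sum =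
      rb_p L ν ν - 2 * rb_p L μ ν + rb_p L μ μ := by
  unfold rb_p
  induction L with
  | nil => simp
  | cons C L ih => simp only [List.map_cons, List.sum_cons, ih]; ring
theorem rb_aff (L : List Cy) (μ : PP) {ι : Type} [Fintype ι] {w : ι → ℝ} {m : ι → PP} {ν : PP}
    (h : ∀ S, ms ν S = ∑ i, w i * ms (m i) S) : rb_p L μ ν = ∑ i, w i * rb_p L μ (m i) := by
  unfold rb_p
  induction L with
  | nil => simp
  | cons C L ih =>
    simp only [List.map_cons, List.sum_cons]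
    rw [ih, h, Finset.mul_sum, ← Finset.sum_add_distrib]
    exact Finset.sum_congr rfl fun i _ => by ring
theorem rb_cont (L : List Cy) {S : Type} [TopologicalSpace S] {f f' : S → PP} (hf : Continuous f)
    (hf' : Continuous f') : Continuous fun p => rb_p L (f p) (f' p) :=
  continuous_list_sum L fun C _ =>
    ((cont_ms (clopen_cyl C)).comp hf).mul ((cont_ms (clopen_cyl C)).comp hf')
theorem rb_onto {M : Set XX} (hM : Minl act M) {A : Set (XX × PP)} (hA : IsClosed A)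
    (hne : A.Nonempty) (hi : Inv act2 A) (hs : ∀ p ∈ A, p.1 ∈ M) {ζ : XX} (hζ : ζ ∈ M) :
    ∃ μ, (ζ, μ) ∈ A := by
  obtain ⟨p, hp⟩ := hne
  have hc : IsClosed (Prod.fst '' A) := (hA.isCompact.image continuous_fst).isClosed
  have hv : Inv act (Prod.fst '' A) := by
    rintro t _ ⟨q, hq, rfl⟩
    exact ⟨_, hi t q hq, rfl⟩
  obtain ⟨q, hq, rfl⟩ := orb_sub hc hv ⟨p, hp, rfl⟩ (hM.orb _ (hs p hp) _ hζ)
  exact ⟨q.2, hq⟩
def rb_r (W : Finset Co) (ζ : XX) : W → Bool := fun q => ζ q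
theorem rb_sum (μ : PP) (W : Finset Co) (s : Finset (W → Bool)) :
    ∑ D ∈ s, ms μ (rb_r W ⁻¹' {D}) = ms μ (rb_r W ⁻¹' s) :=
  sum_measureReal_preimage_singleton s fun D _ =>
    (measurable_pi_lambda (rb_r W) fun q => measurable_pi_apply q.1) (measurableSet_singleton D)
theorem rb_one (μ : PP) (W : Finset Co) : ∑ D, ms μ (rb_r W ⁻¹' {D}) = 1 := by
  rw [rb_sum]; simp [ms]
theorem rim_approx {M : Set XX} {Q : Set PP} (hM : Minl act M) (hQ : Irr M Q) {A : Set (XX × PP)}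
    (hA : IsClosed A) (hne : A.Nonempty) (hi : Inv act2 A)
    (hAs : ∀ p ∈ A, p.1 ∈ M ∧ p.2 ∈ Q ∧ p.2 ∈ Fib M (tr p.1)) (L : List Cy) {ε : ℝ} (hε : 0 < ε)
    (W : List Co) : ∃ m ∈ Q, 1 - ε ≤ ms m {ζ | (m, ζ) ∈ Near A L ε W} := by
  classical
  obtain ⟨s, hs, hmax⟩ := hQ.cl.isCompact.exists_isMaxOn hQ.ne
    (rb_cont L continuous_id continuous_id).continuousOn
  simp only [id] at hmax
  have hge : ∀ μ ∈ Q, (L.map fun C => (ms μ (cyl C) - ms s (cyl C)) ^ 2).sum ≤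
      2 * (rb_p L s s - rb_p L s μ) := fun μ hμ => by
    have h1 : rb_p L μ μ ≤ rb_p L s s := hmax hμ
    rw [rb_sq]; linarith only [h1]
  have hnn : ∀ μ : PP, ∀ x ∈ L.map fun C => (ms μ (cyl C) - ms s (cyl C)) ^ 2, 0 ≤ x := by
    intro μ x hx
    obtain ⟨C, -, rfl⟩ := List.mem_map.1 hx
    exact sq_nonneg _
  have hg0 : ∀ μ ∈ Q, 0 ≤ rb_p L s s - rb_p L s μ := fun μ hμ => by
    have := (List.sum_nonneg (hnn μ)).trans (hge μ hμ)
    linarith only [this]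
  have hcl : ∀ μ ∈ Q, rb_p L s s - rb_p L s μ ≤ ε ^ 2 / 8 → ∀ C ∈ L,
      |ms μ (cyl C) - ms s (cyl C)| ≤ ε / 2 := fun μ hμ h C hC => by
    have h1 := (List.single_le_sum (hnn μ) _ (List.mem_map.2 ⟨C, hC, rfl⟩)).trans (hge μ hμ)
    exact abs_le_of_sq_le_sq' (by linarith only [h1, h]) (by linarith only [hε]) |> abs_le.2
  obtain ⟨μ0, h0⟩ := hQ.ne
  obtain ⟨ω, hω⟩ := hQ.fib μ0 h0
  have hch : ∀ (V : Finset Co) (D : V → Bool), ∃ p : XX × PP, (p.2 ∈ Q ∧ p.2 ∈ Fib M ω) ∧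
      (0 < ms μ0 (rb_r V ⁻¹' {D}) → p ∈ A ∧ rb_r V p.1 = D) := fun V D => by
    by_cases h : 0 < ms μ0 (rb_r V ⁻¹' {D})
    · obtain ⟨ζ, h1, h2, h3⟩ := ex_of_pos h hω
      obtain ⟨μ, hμ⟩ := rb_onto hM hA hne hi (fun p hp => (hAs p hp).1) h2
      exact ⟨(ζ, μ), ⟨(hAs _ hμ).2.1, h3 ▸ (hAs _ hμ).2.2⟩, fun _ => ⟨hμ, h1⟩⟩
    · exact ⟨(fun _ => true, μ0), ⟨h0, hω⟩, fun h' => absurd h' h⟩
  choose P hP hP' using hch
  have hmix : ∀ V : Finset Co, ∃ ν ∈ Q, ∀ S, ms ν S = 1 / 2 * ms μ0 S +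
      ∑ D, ms μ0 (rb_r V ⁻¹' {D}) / 2 * ms (P V D).2 S := fun V => by
    have hw : ∀ i : Option (V → Bool),
        0 ≤ (i.elim (1 / 2) fun D => ms μ0 (rb_r V ⁻¹' {D}) / 2 : ℝ) := fun i => by
      cases i with
      | none => exact one_half_pos.le
      | some D => exact div_nonneg measureReal_nonneg zero_le_two
    have h1 : ∑ i : Option (V → Bool),
        (i.elim (1 / 2) fun D => ms μ0 (rb_r V ⁻¹' {D}) / 2 : ℝ) = 1 := by
      simp only [Fintype.sum_option, Option.elim]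
      rw [← Finset.sum_div, rb_one]; norm_num
    obtain ⟨ν, hν⟩ := ex_mix _ hw h1 fun i => i.elim μ0 fun D => (P V D).2
    refine ⟨ν, mix_mem hQ hw h1 (ω := ω) (fun i _ => ?_) hν, fun S => ?_⟩
    · cases i with
      | none => exact ⟨h0, hω⟩
      | some D => exact hP V D
    · rw [hν, Fintype.sum_option]; rfl
  choose ν hν hν' using hmix
  obtain ⟨n, hn, hcp⟩ := hQ.cl.isCompact.exists_mapClusterPt (f := atTop) (u := ν)
    (le_principal_iff.2 (mem_map.2 (Eventually.of_forall hν)))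
  have hm : 0 < min ε 1 := lt_min hε one_pos
  obtain ⟨t, ht⟩ := vis_real hQ L (fun C => ms s (cyl C)) (fun _ => measureReal_nonneg) hs
    (η := min ε 1 * ε ^ 2 / 16) (by positivity) hn
  have hop : {μ | rb_p L s s - min ε 1 * ε ^ 2 / 16 < rb_p L s (pact t μ)} ∈ 𝓝 n :=
    (isOpen_lt continuous_const (rb_cont L continuous_const (cont_pact t))).mem_nhds ht
  obtain ⟨V, hV, hVW⟩ := ((hcp.frequently hop).and_eventually
    (eventually_ge_atTop (W.map fun b : Co => ((b.1 ^^^ t, b.2) : Co)).toFinset)).exists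
  have hV : rb_p L s s - min ε 1 * ε ^ 2 / 16 < rb_p L s (pact t (ν V)) := hV
  have haf : rb_p L s (pact t (ν V)) = 1 / 2 * rb_p L s (pact t μ0) +
      ∑ D, ms μ0 (rb_r V ⁻¹' {D}) / 2 * rb_p L s (pact t (P V D).2) := by
    rw [rb_aff L s (ι := Option (V → Bool))
      (w := fun i => i.elim (1 / 2) fun D => ms μ0 (rb_r V ⁻¹' {D}) / 2)
      (m := fun i => i.elim (pact t μ0) fun D => pact t (P V D).2)
      fun S => by simp only [Fintype.sum_option, Option.elim, ms_pact, hν'], Fintype.sum_option]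
    rfl
  have hsum : ∑ D, ms μ0 (rb_r V ⁻¹' {D}) * (rb_p L s s - rb_p L s (pact t (P V D).2)) =
      rb_p L s s - 2 * ∑ D, ms μ0 (rb_r V ⁻¹' {D}) / 2 * rb_p L s (pact t (P V D).2) := by
    simp only [mul_sub, Finset.sum_sub_distrib]
    rw [← Finset.sum_mul, rb_one, one_mul, Finset.mul_sum]
    exact congrArg _ (Finset.sum_congr rfl fun D _ => by ring)
  have ht0 : ∀ D, 0 ≤ ms μ0 (rb_r V ⁻¹' {D}) * (rb_p L s s - rb_p L s (pact t (P V D).2)) :=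
    fun D => mul_nonneg measureReal_nonneg (hg0 _ (hQ.inv t _ (hP V D).1))
  have hs0 := Finset.sum_nonneg fun D (_ : D ∈ Finset.univ) => ht0 D
  have hz := hg0 _ (hQ.inv t _ h0)
  have he1 : min ε 1 * ε ^ 2 ≤ 1 * ε ^ 2 := mul_le_mul_of_nonneg_right (min_le_right _ _) (sq_nonneg _)
  have he2 : min ε 1 * ε ^ 2 ≤ ε * ε ^ 2 := mul_le_mul_of_nonneg_right (min_le_left _ _) (sq_nonneg _)
  have hc0 := hcl _ (hQ.inv t _ h0) (by linarith only [hV, haf, hsum, hs0, he1])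
  let good : (V → Bool) → Prop := fun D => 0 < ms μ0 (rb_r V ⁻¹' {D}) ∧
    rb_p L s s - rb_p L s (pact t (P V D).2) ≤ ε ^ 2 / 8
  have hbad : (∑ D with ¬ good D, ms μ0 (rb_r V ⁻¹' {D})) * (ε ^ 2 / 8) ≤
      ∑ D, ms μ0 (rb_r V ⁻¹' {D}) * (rb_p L s s - rb_p L s (pact t (P V D).2)) := by
    rw [Finset.sum_mul]
    refine (Finset.sum_le_sum fun D hD => ?_).trans
      (Finset.sum_le_sum_of_subset_of_nonneg (Finset.filter_subset _ _) fun D _ _ => ht0 D)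
    have hn0 : 0 ≤ ms μ0 (rb_r V ⁻¹' {D}) := measureReal_nonneg
    rcases hn0.eq_or_lt with h | h
    · rw [← h, zero_mul, zero_mul]
    · exact mul_le_mul_of_nonneg_left
        (le_of_not_ge fun h' => (Finset.mem_filter.1 hD).2 ⟨h, h'⟩) h.le
  have hb : ∑ D with ¬ good D, ms μ0 (rb_r V ⁻¹' {D}) ≤ ε :=
    le_of_mul_le_mul_right (a := ε ^ 2 / 8) (by linarith only [hbad, hV, haf, hsum, hz, he2])
      (by positivity)
  have hspl := Finset.sum_filter_add_sum_filter_not Finset.univ good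
    fun D => ms μ0 (rb_r V ⁻¹' {D})
  rw [rb_one, rb_sum] at hspl
  refine ⟨pact t μ0, hQ.inv t _ h0, ?_⟩
  rw [ms_pact]
  refine le_trans (b := ms μ0 (rb_r V ⁻¹' (Finset.univ.filter good : Finset (V → Bool))))
    (by linarith only [hspl, hb]) (measureReal_mono fun e he => ?_)
  obtain ⟨h1, h2⟩ := (Finset.mem_filter.1 (Finset.mem_coe.1 he)).2
  refine ⟨act2 t (P V (rb_r V e)), hi t _ (hP' V _ h1).1, fun b hb => ?_, fun C hC => ?_⟩
  · exact congrFun (hP' V _ h1).2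
      ⟨(b.1 ^^^ t, b.2), hVW (List.mem_toFinset.2 (List.mem_map.2 ⟨b, hb, rfl⟩))⟩
  · have a1 := abs_le.1 (hcl _ (hQ.inv t _ (hP V _).1) h2 C hC)
    have a2 := abs_le.1 (hc0 C hC)
    change |ms (pact t (P V (rb_r V e)).2) (cyl C) - ms (pact t μ0) (cyl C)| ≤ ε
    exact abs_le.2 ⟨by linarith only [a1.1, a2.2], by linarith only [a1.2, a2.1]⟩

def Xs (z : XX) (l : PP) : Set (XX × PP) := Orb act2 (z, l)
structure Ctx (x : XX) (l : PP) (z : XX) : Prop where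
  zK : z ∈ Supp l
  full : ∀ p ∈ Xs z l, ∀ᵐ η ∂(p.2 : Measure XX), (η, p.2) ∈ Xs z l
  minl : Minl act2 (Xs z l)
  clu : MapClusterPt (z, l) atTop fun w => act2 w (x, l)

/-- A limit of the approximate solutions. -/
theorem rc_lim {M : Set XX} {Q : Set PP} (hM : Minl act M) (hQ : Irr M Q) {A : Set (XX × PP)}
    (hA : IsClosed A) (hne : A.Nonempty) (hi : Inv act2 A)
    (hAs : ∀ p ∈ A, p.1 ∈ M ∧ p.2 ∈ Q ∧ p.2 ∈ Fib M (tr p.1)) :
    ∃ m : PP, 1 ≤ ms m {ζ | (ζ, m) ∈ A} := by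
  obtain ⟨f, hf⟩ := exists_surjective_nat Cy
  obtain ⟨g, hg⟩ := exists_surjective_nat Co
  choose m _ hm using fun n : ℕ => rim_approx hM hQ hA hne hi hAs ((List.range n).map f)
    (Nat.one_div_pos_of_nat (n := n)) ((List.range n).map g)
  let V : Ultrafilter ℕ := Ultrafilter.of atTop
  have hV : (V : Filter ℕ) ≤ atTop := Ultrafilter.of_le _
  have h0 : Tendsto (fun n : ℕ => 1 / ((n : ℝ) + 1)) V (𝓝 0) :=
    tendsto_one_div_add_atTop_nhds_zero_nat.mono_left hV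
  obtain ⟨μ, -, hμ⟩ := isCompact_univ.ultrafilter_le_nhds (V.map m) (by simp)
  have hμ : Tendsto m V (𝓝 μ) := hμ
  refine ⟨μ, le_of_forall_lt_imp_le_of_dense fun r hr => usc_filter hμ
    (hA.preimage (Continuous.prodMk_left μ)) (S := fun n => {ζ | (m n, ζ) ∈
      Near A ((List.range n).map f) (1 / ((n : ℝ) + 1)) ((List.range n).map g)})
    (fun U hU hs => ?_) ?_⟩
  · by_contra hc
    have hc := Ultrafilter.eventually_not.2 hc
    obtain ⟨q0, -⟩ := hne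
    have : ∀ n : ℕ, ∃ q : XX × (XX × PP), ¬ {ζ | (m n, ζ) ∈ Near A ((List.range n).map f)
        (1 / ((n : ℝ) + 1)) ((List.range n).map g)} ⊆ U → q.1 ∉ U ∧ q.2 ∈ A ∧
          (∀ b ∈ (List.range n).map g, q.2.1 b = q.1 b) ∧ ∀ C ∈ (List.range n).map f,
            |ms q.2.2 (cyl C) - ms (m n) (cyl C)| ≤ 1 / ((n : ℝ) + 1) := fun n => by
      by_cases e : {ζ | (m n, ζ) ∈ Near A ((List.range n).map f)
        (1 / ((n : ℝ) + 1)) ((List.range n).map g)} ⊆ U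
      · exact ⟨(q0.1, q0), fun h => (h e).elim⟩
      · obtain ⟨ζ, ⟨q, h1, h2⟩, h3⟩ := not_subset.1 e
        exact ⟨(ζ, q), fun _ => ⟨h3, h1, h2⟩⟩
    choose q hq using this
    have hq := hc.mono fun n h => hq n h
    obtain ⟨p, -, hp⟩ := isCompact_univ.ultrafilter_le_nhds (V.map q) (by simp)
    have hp : Tendsto q V (𝓝 p) := hp
    have e1 : p.2.1 = p.1 := funext fun b => by
      obtain ⟨k, rfl⟩ := hg b
      refine tendsto_nhds_unique_of_eventuallyEq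
        (((continuous_apply (g k)).comp continuous_snd.fst).tendsto p |>.comp hp)
        (((continuous_apply (g k)).comp continuous_fst).tendsto p |>.comp hp) ?_
      filter_upwards [hq, hV (eventually_gt_atTop k)] with n h hn
      exact h.2.2.1 _ (List.mem_map.2 ⟨k, List.mem_range.2 hn, rfl⟩)
    have e2 : p.2.2 = μ := pp_ext fun C => by
      obtain ⟨k, rfl⟩ := hf C
      have t1 := (((cont_ms (clopen_cyl (f k))).comp continuous_snd.snd).tendsto p |>.comp hp).sub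
        (((cont_ms (clopen_cyl (f k))).tendsto μ).comp hμ)
      refine sub_eq_zero.1 (abs_nonpos_iff.1 (le_of_tendsto_of_tendsto t1.abs h0 ?_))
      filter_upwards [hq, hV (eventually_gt_atTop k)] with n h hn
      exact h.2.2.2 _ (List.mem_map.2 ⟨k, List.mem_range.2 hn, rfl⟩)
    have h1 : p.2 ∈ A := hA.mem_of_tendsto ((continuous_snd.tendsto p).comp hp)
      (hq.mono fun n h => h.2.1)
    refine hU.isClosed_compl.mem_of_tendsto ((continuous_fst.tendsto p).comp hp)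
      (hq.mono fun n h => h.1) (hs ?_)
    change (p.1, μ) ∈ A
    rwa [← e1, ← e2]
  · filter_upwards [h0.eventually (gt_mem_nhds (sub_pos.2 hr))] with n hn
    exact le_trans (by linarith) (hm n)

theorem rim {M : Set XX} {Q Y : Set PP} (hM : Minl act M) (hQ : Irr M Q) (hY : Minl pact Y)
    (hYQ : Y ⊆ Q) {A : Set (XX × PP)} (hA : IsClosed A) (hne : A.Nonempty) (hi : Inv act2 A)
    (hAs : ∀ p ∈ A, p.1 ∈ M ∧ p.2 ∈ Y ∧ p.2 ∈ Fib M (tr p.1)) :
    ∀ μ ∈ Y, ∀ᵐ ζ ∂(μ : Measure XX), (ζ, μ) ∈ A := by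
  have he : ∀ μ : PP, (∀ᵐ ζ ∂(μ : Measure XX), (ζ, μ) ∈ A) ↔ 1 ≤ ms μ {ζ | (ζ, μ) ∈ A} := fun μ =>
    ae_iff_ms (S := {ζ | (ζ, μ) ∈ A}) (hA.preimage (Continuous.prodMk_left μ)).measurableSet
  obtain ⟨m, hm⟩ := rc_lim hM hQ hA hne hi fun p hp =>
    ⟨(hAs p hp).1, hYQ (hAs p hp).2.1, (hAs p hp).2.2⟩
  obtain ⟨ζ, hζ⟩ := ((he m).2 hm).exists
  intro μ hμ
  exact (he μ).2 (orb_sub (A := {μ : PP | 1 ≤ ms μ {ζ | (ζ, μ) ∈ A}})
    (usc (N := Prod.swap ⁻¹' A) (hA.preimage continuous_swap) continuous_id 1)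
    (fun t ν hν => (he _).1 (ae_pact.2 (((he ν).2 hν).mono fun η h => hi t _ h))) hm
    (hY.orb m (hAs _ hζ).2.1 μ hμ))

theorem rd_act2 (s t : ℕ) (p : XX × PP) : act2 s (act2 t p) = act2 (s ^^^ t) p := by
  simp only [act2, act_act, pact_pact]
theorem rd_self (p : XX × PP) : p ∈ Orb act2 p :=
  subset_closure ⟨0, by simp only [act2, act_zero, pact_zero]⟩
theorem rd_supp {A : Set (XX × PP)} (hA : IsClosed A) {l : PP}
    (h : ∀ᵐ ζ ∂(l : Measure XX), (ζ, l) ∈ A) {z : XX} (hz : z ∈ Supp l) : (z, l) ∈ A :=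
  supp_sub (F := (fun ζ => (ζ, l)) ⁻¹' A) (hA.preimage (continuous_id.prodMk continuous_const)) h hz
theorem rd_xor (t : ℕ) : Tendsto (fun w => t ^^^ w) atTop atTop := by
  rw [← Nat.cofinite_eq_atTop]
  exact Function.Injective.tendsto_cofinite fun a b h => Nat.xor_right_injective h
theorem ctx_of {x : XX} {M : Set XX} {Q Y : Set PP} (hM : Minl act M) (hO : M ⊆ Om x)
    (hQ : Irr M Q) (hY : Minl pact Y) (hYQ : Y ⊆ Q) {l : PP} (hl : l ∈ Y) (hf : l ∈ Fib M (tr x))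
    {z : XX} (hz : z ∈ Supp l) : Ctx x l z := by
  have htr : Continuous tr := continuous_pi fun _ => continuous_apply _
  have hz' : z ∈ M ∧ tr z = tr x :=
    supp_sub (F := {ζ | ζ ∈ M ∧ tr ζ = tr x})
      (hM.cl.inter (isClosed_eq htr continuous_const)) hf hz
  set B : Set (XX × PP) := {p | p.1 ∈ M ∧ p.2 ∈ Y ∧ p.2 ∈ Fib M (tr p.1)} with hB
  have hBc : IsClosed B :=
    (hM.cl.preimage continuous_fst).inter
      ((hY.cl.preimage continuous_snd).inter (fib_closed hM.cl))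
  have hBi : Inv act2 B := fun t p hp =>
    ⟨hM.inv t _ hp.1, hY.inv t _ hp.2.1, fib_act hM.inv hp.2.2 t⟩
  have hzB : (z, l) ∈ B := ⟨hz'.1, hl, by rw [hz'.2]; exact hf⟩
  have hoi : ∀ p, Inv act2 (Orb act2 p) := orb_inv cont_act2 rd_act2
  have hXB : Xs z l ⊆ B := orb_sub hBc hBi hzB
  have hrim : ∀ p ∈ B, ∀ μ ∈ Y, ∀ᵐ ζ ∂(μ : Measure XX), (ζ, μ) ∈ Orb act2 p := fun p hp =>
    rim hM hQ hY hYQ isClosed_closure ⟨p, rd_self p⟩ (hoi p) fun q hq => orb_sub hBc hBi hp hq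
  refine ⟨hz, fun p hp => hrim _ hzB _ (hXB hp).2.1,
    ⟨⟨_, rd_self _⟩, isClosed_closure, hoi _, fun p hp q hq => ?_⟩, ?_⟩
  · exact orb_sub isClosed_closure (hoi p)
      (rd_supp isClosed_closure (hrim p (hXB hp) l hl) hz) hq
  · set A : Set (XX × PP) :=
      {p | MapClusterPt p atTop fun w => act2 w (x, l)} ∩ {p | p.1 ∈ M} with hA
    have hAc : IsClosed A := isClosed_setOfPred_clusterPt.inter (hM.cl.preimage continuous_fst)
    have hne : A.Nonempty := by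
      obtain ⟨U, hU, hx⟩ := mapClusterPt_iff_ultrafilter.1 (mem_om.1 (hO hz'.1))
      obtain ⟨μ, -, hμ⟩ := (isCompact_univ (X := PP)).ultrafilter_le_nhds
        (U.map fun w => pact w l) (by simp)
      exact ⟨(z, μ), mapClusterPt_iff_ultrafilter.2 ⟨U, hU, hx.prodMk_nhds hμ⟩, hz'.1⟩
    have hAi : Inv act2 A := fun t p hp => by
      refine ⟨?_, hM.inv t _ hp.2⟩
      have h1 := MapClusterPt.continuousAt_comp (cont_act2 t).continuousAt hp.1
      refine MapClusterPt.of_comp (rd_xor t) ?_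
      convert h1 using 1
      funext w
      exact (rd_act2 t w _).symm
    refine (rd_supp hAc (rim hM hQ hY hYQ hAc hne hAi (fun p hp => ⟨hp.2, ?_, ?_⟩) l hl) hz).1
    · exact (hY.cl.preimage continuous_snd).mem_of_mapClusterPt hp.1
        (Eventually.of_forall fun w => hY.inv w _ hl)
    · exact (fib_closed hM.cl).mem_of_mapClusterPt hp.1
        (Eventually.of_forall fun w => fib_act hM.inv hf w)
theorem Ctx.self {x z : XX} {l : PP} (h : Ctx x l z) : (z, l) ∈ Xs z l := rd_self _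
theorem Ctx.supp {x z : XX} {l : PP} (h : Ctx x l z) {ζ : XX} (hζ : ζ ∈ Supp l) :
    (ζ, l) ∈ Xs z l := rd_supp isClosed_closure (h.full _ h.self) hζ

def RR (z : XX) (l : PP) : Set (XX × XX × PP) :=
  {p | (p.1, p.2.2) ∈ Xs z l ∧ (p.2.1, p.2.2) ∈ Xs z l}
/-- Continuous invariant fibrewise pseudometrics. -/
structure PM (z : XX) (l : PP) (d : XX × XX × PP → ℝ) : Prop where
  cont : ContinuousOn d (RR z l)
  inv : ∀ t, ∀ p ∈ RR z l, d (act3 t p) = d p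
  refl : ∀ γ μ, (γ, μ) ∈ Xs z l → d (γ, γ, μ) = 0
  symm : ∀ γ γ' μ, (γ, μ) ∈ Xs z l → (γ', μ) ∈ Xs z l → d (γ, γ', μ) = d (γ', γ, μ)
  tri : ∀ α β γ μ, (α, μ) ∈ Xs z l → (β, μ) ∈ Xs z l → (γ, μ) ∈ Xs z l →
    d (α, γ, μ) ≤ d (α, β, μ) + d (β, γ, μ)
def sec (N : Set (XX × XX × PP)) (γ : XX) (μ : PP) : Set XX := {η | (η, γ, μ) ∈ N}
noncomputable def DN (N : Set (XX × XX × PP)) (p : XX × XX × PP) : ℝ :=
  ms p.2.2 (symmDiff (sec N p.1 p.2.2) (sec N p.2.1 p.2.2))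
def Full (W : List Co) (D : Cy) : Prop := ∀ q, q ∈ W → ∃ b, (q, b) ∈ D
def Phi (l : PP) (W : List Co) (C C' : Cy) (u : Bo) : Prop :=
  ∃ t s D, Full W D ∧ l ∈ bo (shB t u) ∧ Pos l (sh t C ++ sh s D) ∧ Pos l (sh t C' ++ sh s D)
def Es (l : PP) (g : XX) : Set XX :=
  Rem cyl univ fun C' => ∃ W C u, g ∈ cyl C ∧ l ∈ bo u ∧ ¬ Phi l W C C' u
def Pio (x : XX) (l : PP) (z : XX) (C : Cy) : Prop := ∀ Cz u n, z ∈ cyl Cz → l ∈ bo u →
  ∃ w, n < w ∧ x ∈ cyl (sh w Cz) ∧ l ∈ bo (shB w u) ∧ Pos l (C ++ sh w Cz)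
def Go (x : XX) (l : PP) (z : XX) : Set XX := Rem cyl univ fun C => ¬ Pio x l z C
structure Ref (x : XX) (l : PP) (z g : XX) (V : Ultrafilter (ℕ × XX)) : Prop where
  inf : Tendsto Prod.fst (V : Filter (ℕ × XX)) atTop
  tx : Tendsto (fun v => act v.1 x) (V : Filter (ℕ × XX)) (𝓝 z)
  tl : Tendsto (fun v => pact v.1 l) (V : Filter (ℕ × XX)) (𝓝 l)
  inK : ∀ᶠ v in (V : Filter (ℕ × XX)), v.2 ∈ Supp l
  tg : Tendsto Prod.snd (V : Filter (ℕ × XX)) (𝓝 g)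
  tz : Tendsto (fun v => act v.1 v.2) (V : Filter (ℕ × XX)) (𝓝 z)
def Sol (x : XX) (l : PP) (a : ℕ) (P0 : Cy) : Prop := Pos l (ca a ++ P0) ∧
  ∀ P, Pos l (ca a ++ P0 ++ P) → ∃ y, y ≠ 0 ∧ x ∈ cyl (sh y (ca a ++ P0 ++ P)) ∧
    Pos l (ca a ++ P0 ++ P ++ sh y (ca a))
def Ast (l : PP) (g : XX) (a s : ℕ) : Prop := Cov cyl (Es l g) [ca a, [((s, a, false), false)]]

section
variable {x z g : XX} {l : PP} {V : Ultrafilter (ℕ × XX)} {d : XX × XX × PP → ℝ}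

theorem rr_closed (z : XX) (l : PP) : IsClosed (RR z l) :=
  (isClosed_closure.preimage (continuous_fst.prodMk (continuous_snd.comp continuous_snd))).inter
    (isClosed_closure.preimage ((continuous_fst.comp continuous_snd).prodMk
      (continuous_snd.comp continuous_snd)))
theorem rr_inv (h : Ctx x l z) : Inv act3 (RR z l) := fun t p hp =>
  ⟨h.minl.inv t (p.1, p.2.2) hp.1, h.minl.inv t (p.2.1, p.2.2) hp.2⟩
theorem PM.nonneg (hd : PM z l d) {p : XX × XX × PP} (hp : p ∈ RR z l) : 0 ≤ d p := by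
  obtain ⟨a, b, μ⟩ := p
  have h1 := hd.tri a b a μ hp.1 hp.2 hp.1
  rw [hd.refl a μ hp.1, hd.symm b a μ hp.2 hp.1] at h1
  linarith
theorem PM.zero (z : XX) (l : PP) : PM z l fun _ => 0 :=
  ⟨continuousOn_const, fun _ _ _ => rfl, fun _ _ _ => rfl, fun _ _ _ _ _ => rfl,
    fun _ _ _ _ _ _ _ => (add_zero _).ge⟩
theorem PM.add (hd : PM z l d) {d' : XX × XX × PP → ℝ} (hd' : PM z l d') :
    PM z l fun p => d p + d' p :=
  ⟨hd.cont.add hd'.cont, fun t p hp => by rw [hd.inv t p hp, hd'.inv t p hp],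
    fun γ μ h => by rw [hd.refl γ μ h, hd'.refl γ μ h, add_zero],
    fun γ γ' μ h h' => by rw [hd.symm γ γ' μ h h', hd'.symm γ γ' μ h h'],
    fun α β γ μ h1 h2 h3 => by
      linarith [hd.tri α β γ μ h1 h2 h3, hd'.tri α β γ μ h1 h2 h3]⟩
/-- A neighbourhood of the common zero set contains a ball of one pseudometric. -/
theorem pm_ball (hg : (g, l) ∈ Xs z l) {U : Set XX} (hU : IsOpen U)
    (hz : ∀ g', (g', l) ∈ Xs z l → (∀ d, PM z l d → d (g, g', l) = 0) → g' ∈ U) :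
    ∃ d, PM z l d ∧ ∃ δ, 0 < δ ∧ ∀ g', (g', l) ∈ Xs z l → d (g, g', l) ≤ δ → g' ∈ U := by
  have hK : IsCompact ({g' | (g', l) ∈ Xs z l} ∩ Uᶜ) :=
    ((isClosed_closure.preimage (continuous_id.prodMk continuous_const)).inter
      hU.isClosed_compl).isCompact
  have key : ∃ d, PM z l d ∧ ∃ δ, 0 < δ ∧ ∀ g' ∈ {g' | (g', l) ∈ Xs z l} ∩ Uᶜ,
      (g', l) ∈ Xs z l → δ < d (g, g', l) := by
    refine hK.induction_on (p := fun S => ∃ d, PM z l d ∧ ∃ δ, 0 < δ ∧ ∀ g' ∈ S,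
      (g', l) ∈ Xs z l → δ < d (g, g', l)) ⟨_, PM.zero z l, 1, one_pos, fun _ h => h.elim⟩ ?_ ?_ ?_
    · rintro s t hst ⟨d, hd, δ, hδ, h⟩
      exact ⟨d, hd, δ, hδ, fun g' h' => h g' (hst h')⟩
    · rintro s t ⟨d, hd, δ, hδ, h⟩ ⟨d', hd', δ', hδ', h'⟩
      refine ⟨_, hd.add hd', min δ δ', lt_min hδ hδ', fun g' hg' hx => ?_⟩
      have n1 := hd.nonneg (p := (g, g', l)) ⟨hg, hx⟩
      have n2 := hd'.nonneg (p := (g, g', l)) ⟨hg, hx⟩
      rcases hg' with h1 | h1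
      · linarith [h g' h1 hx, min_le_left δ δ']
      · linarith [h' g' h1 hx, min_le_right δ δ']
    · rintro y ⟨hy, hyU⟩
      obtain ⟨d, hd, h0⟩ : ∃ d, PM z l d ∧ d (g, y, l) ≠ 0 := by
        by_contra hc
        exact hyU (hz y hy fun d hd => by_contra fun h0 => hc ⟨d, hd, h0⟩)
      have hp : 0 < d (g, y, l) := (hd.nonneg (p := (g, y, l)) ⟨hg, hy⟩).lt_of_ne' h0
      have hc : ContinuousWithinAt (fun g' => d (g, g', l)) ({g' | (g', l) ∈ Xs z l} ∩ Uᶜ) y :=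
        (hd.cont.comp (f := fun g' : XX => (g, g', l))
          (continuous_const.prodMk (continuous_id.prodMk continuous_const)).continuousOn
          fun g' hg' => ⟨hg, hg'.1⟩) y ⟨hy, hyU⟩
      exact ⟨_, hc.eventually (lt_mem_nhds (half_lt_self hp)), d, hd, _, half_pos hp,
        fun g' h' _ => h'⟩
  obtain ⟨d, hd, δ, hδ, h⟩ := key
  exact ⟨d, hd, δ, hδ, fun g' hx hl => by_contra fun hn => (h g' ⟨hx, hn⟩ hx).not_ge hl⟩

theorem mh_closed {N : Set (XX × XX × PP)} (hN : IsClosed N) (γ : XX) (μ : PP) :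
    IsClosed (sec N γ μ) :=
  hN.preimage (f := fun η => (η, γ, μ)) (by fun_prop)

theorem mh_pre {N : Set (XX × XX × PP)} (hi : Inv act3 N) (t : ℕ) (γ : XX) (μ : PP) :
    act t ⁻¹' sec N (act t γ) (pact t μ) = sec N γ μ := by
  ext η
  refine ⟨fun k => ?_, fun k => hi t _ k⟩
  have := hi t _ k
  simp only [act3, act_self, pact_self] at this
  exact this

theorem mh_le (h : Ctx x l z) {N : Set (XX × XX × PP)} (hN : IsClosed N) (hi : Inv act3 N)
    {p q : XX × PP} (hp : p ∈ Xs z l) (hq : q ∈ Xs z l) :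
    ms p.2 (sec N p.1 p.2) ≤ ms q.2 (sec N q.1 q.2) := by
  have hc : IsClosed {s : XX × PP | ms p.2 (sec N p.1 p.2) ≤ ms s.2 (sec N s.1 s.2)} :=
    usc (S := XX × PP) (N := {w | (w.2, w.1.1, w.1.2) ∈ N})
      (hN.preimage (f := fun w : (XX × PP) × XX => (w.2, w.1.1, w.1.2)) (by fun_prop))
      (m := Prod.snd) continuous_snd _
  refine orb_sub (a := act2) hc (fun t s hs => ?_) (p := p) (mem_ofPred.2 le_rfl) (h.minl.orb p hp q hq)
  change ms p.2 (sec N p.1 p.2) ≤ ms (pact t s.2) (sec N (act t s.1) (pact t s.2))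
  rw [ms_pact, mh_pre hi]
  exact hs

theorem mh_symm (μ : PP) {A B : Set XX} (hA : MeasurableSet A) (hB : MeasurableSet B) :
    ms μ (symmDiff A B) = ms μ A + ms μ B - 2 * ms μ (A ∩ B) ∧
      ms μ (A ∪ B) + ms μ (A ∩ B) = ms μ A + ms μ B := by
  refine ⟨?_, measureReal_union_add_inter hB⟩
  have h1 := measureReal_symmDiff_eq (μ := (μ : Measure XX)) hA hB
  have h2 := measureReal_inter_add_sdiff (μ := (μ : Measure XX)) (s := A) hB
  have h3 := measureReal_inter_add_sdiff (μ := (μ : Measure XX)) (s := B) hA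
  rw [inter_comm] at h3
  simp only [ms]
  linarith

theorem pm_DN (h : Ctx x l z) {N : Set (XX × XX × PP)} (hN : IsClosed N) (hi : Inv act3 N) :
    PM z l (DN N) := by
  have hm : ∀ γ μ, MeasurableSet (sec N γ μ) := fun γ μ => (mh_closed hN γ μ).measurableSet
  refine ⟨?_, fun t p _ => ?_, fun γ μ _ => by simp [DN, ms], fun γ γ' μ _ _ => by
    simp only [DN, symmDiff_comm], fun α β γ μ _ _ _ => measureReal_symmDiff_le _⟩
  · set κ := ms l (sec N z l)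
    have hk : ∀ p ∈ Xs z l, ms p.2 (sec N p.1 p.2) = κ := fun p hp =>
      le_antisymm (mh_le h hN hi hp h.self) (mh_le h hN hi h.self hp)
    have c1 : IsClosed {w : (XX × XX × PP) × XX | (w.2, w.1.1, w.1.2.2) ∈ N} :=
      hN.preimage (f := fun w : (XX × XX × PP) × XX => (w.2, w.1.1, w.1.2.2)) (by fun_prop)
    have c2 : IsClosed {w : (XX × XX × PP) × XX | (w.2, w.1.2.1, w.1.2.2) ∈ N} :=
      hN.preimage (f := fun w : (XX × XX × PP) × XX => (w.2, w.1.2.1, w.1.2.2)) (by fun_prop)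
    have cm : Continuous fun p : XX × XX × PP => p.2.2 := by fun_prop
    have u1 : UpperSemicontinuous fun p : XX × XX × PP =>
        ms p.2.2 (sec N p.1 p.2.2 ∪ sec N p.2.1 p.2.2) :=
      upperSemicontinuous_iff_isClosed_preimage.2 fun r => usc (c1.union c2) cm r
    have u2 : UpperSemicontinuous fun p : XX × XX × PP =>
        ms p.2.2 (sec N p.1 p.2.2 ∩ sec N p.2.1 p.2.2) :=
      upperSemicontinuous_iff_isClosed_preimage.2 fun r => usc (c1.inter c2) cm r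
    have e : ∀ p ∈ RR z l, DN N p = 2 * κ - 2 * ms p.2.2 (sec N p.1 p.2.2 ∩ sec N p.2.1 p.2.2) ∧
        DN N p = 2 * ms p.2.2 (sec N p.1 p.2.2 ∪ sec N p.2.1 p.2.2) - 2 * κ := fun p hp => by
      obtain ⟨k1, k2⟩ := mh_symm p.2.2 (hm p.1 p.2.2) (hm p.2.1 p.2.2)
      have k3 := hk _ hp.1
      have k4 := hk _ hp.2
      simp only at k3 k4
      simp only [DN]
      constructor <;> linarith
    refine continuousOn_iff_lower_upperSemicontinuousOn.2 ⟨fun p hp r hr => ?_, fun p hp r hr => ?_⟩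
    · have := u2 p (κ - r / 2) (by have := (e p hp).1; linarith)
      filter_upwards [mem_nhdsWithin_of_mem_nhds this, self_mem_nhdsWithin] with q h1 h2
      have := (e q h2).1
      linarith
    · have := u1 p (κ + r / 2) (by have := (e p hp).2; linarith)
      filter_upwards [mem_nhdsWithin_of_mem_nhds this, self_mem_nhdsWithin] with q h1 h2
      have := (e q h2).2
      linarith
  · change ms (pact t p.2.2) (symmDiff (sec N (act t p.1) (pact t p.2.2))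
      (sec N (act t p.2.1) (pact t p.2.2))) = _
    rw [ms_pact, preimage_symmDiff, mh_pre hi, mh_pre hi]
    rfl

theorem mb_data (h : Ctx x l z) {g' : XX} (hg' : g' ∈ Es l g) {U : Set (XX × XX × PP)}
    (hU : U ∈ 𝓝 (g, g', l)) (W : List Co) : ∃ p ∈ RR z l, p ∈ U ∧ ∃ q ∈ RR z l,
      (∀ b ∈ W, q.1 b = q.2.1 b) ∧ ∀ d, PM z l d → d p = d q := by
  obtain ⟨U1, h1, U', h', hs⟩ := mem_nhds_prod_iff.1 hU
  obtain ⟨U2, h2, U3, h3, hs'⟩ := mem_nhds_prod_iff.1 h'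
  obtain ⟨C, hC, hC1⟩ := cyl_basis h1
  obtain ⟨C', hC', hC2⟩ := cyl_basis h2
  obtain ⟨u, hu, hu3⟩ := bo_basis h3
  have hΦ : Phi l W C C' u := by
    by_contra hn
    exact hg'.2 C' ⟨W, C, u, hC, hu, hn⟩ hC'
  obtain ⟨t, s, D, hD, ht, p1, p2⟩ := hΦ
  obtain ⟨α, hα, hα'⟩ := ex_of_pos p1 (h.full _ h.self)
  obtain ⟨β, hβ, hβ'⟩ := ex_of_pos p2 (h.full _ h.self)
  rw [cyl_append] at hα hβ
  have hr : (α, β, l) ∈ RR z l := ⟨hα', hβ'⟩
  refine ⟨act3 t (α, β, l), rr_inv h t _ hr,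
    hs ⟨hC1 (mem_sh.1 hα.1), hs' ⟨hC2 (mem_sh.1 hβ.1), hu3 (mem_shB.1 ht)⟩⟩,
    act3 s (α, β, l), rr_inv h s _ hr, fun b hb => ?_,
    fun d hd => (hd.inv t _ hr).trans (hd.inv s _ hr).symm⟩
  obtain ⟨c, hc⟩ := hD b hb
  exact (mem_sh.1 hα.2 _ hc).trans (mem_sh.1 hβ.2 _ hc).symm

theorem es_sub (h : Ctx x l z) {g' : XX} (hg' : g' ∈ Es l g) :
    (g', l) ∈ Xs z l ∧ ∀ d, PM z l d → d (g, g', l) = 0 := by
  have hR : (g, g', l) ∈ RR z l := by
    rw [← (rr_closed z l).closure_eq, mem_closure_iff_nhds]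
    intro U hU
    obtain ⟨p, hp, hpU, -⟩ := mb_data h hg' hU []
    exact ⟨p, hpU, hp⟩
  refine ⟨hR.2, fun d hd => ?_⟩
  by_contra hne
  have ha : 0 < d (g, g', l) := lt_of_le_of_ne (hd.nonneg hR) (Ne.symm hne)
  have hK : IsClosed (RR z l ∩ d ⁻¹' Ici (d (g, g', l) / 2)) :=
    hd.cont.preimage_isClosed_of_isClosed (rr_closed z l) isClosed_Ici
  obtain ⟨F, hF⟩ := hK.isCompact.elim_finite_subfamily_closed
    (fun b : Co => {q : XX × XX × PP | q.1 b = q.2.1 b})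
    (fun b => isClosed_eq ((continuous_apply b).comp continuous_fst)
      ((continuous_apply b).comp (continuous_fst.comp continuous_snd))) (by
      refine eq_empty_of_forall_notMem fun q hq => ?_
      obtain ⟨γ, γ', μ⟩ := q
      obtain rfl : γ = γ' := funext fun b => mem_iInter.1 hq.2 b
      have h0 := hd.refl γ μ hq.1.1.1
      have h1 : d (g, g', l) / 2 ≤ d (γ, γ, μ) := hq.1.2
      linarith)
  have hU : d ⁻¹' Ici (d (g, g', l) / 2) ∈ 𝓝[RR z l] (g, g', l) :=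
    hd.cont _ hR (Ici_mem_nhds (by linarith))
  obtain ⟨U, hU, hUs⟩ := mem_nhdsWithin_iff_exists_mem_nhds_inter.1 hU
  obtain ⟨p, hp, hpU, q, hq, hW, hpq⟩ := mb_data h hg' hU F.toList
  have h1 : d (g, g', l) / 2 ≤ d p := hUs ⟨hpU, hp⟩
  refine (eq_empty_iff_forall_notMem.1 hF) q ⟨⟨hq, h1.trans (hpq d hd).le⟩, ?_⟩
  exact mem_iInter₂.2 fun b hb => hW b (Finset.mem_toList.2 hb)

theorem sub_es (h : Ctx x l z) (hg : g ∈ Supp l) {g' : XX} (h1 : (g', l) ∈ Xs z l)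
    (h2 : ∀ d, PM z l d → d (g, g', l) = 0) : g' ∈ Es l g := by
  have _h1 := h1
  refine ⟨mem_univ _, ?_⟩
  rintro C' ⟨W, C, u, hC, hu, hn⟩ hC'
  apply hn
  let N0 : Set (XX × XX × PP) := {p | ∃ t al be s, al ∈ Supp l ∧ be ∈ Supp l ∧
    (∀ q ∈ W, act s be q = act s al q) ∧ p = (act t al, act t be, pact t l)}
  have hi0 : Inv act3 N0 := by
    rintro r p ⟨t, al, be, s, ha, hb, hs, rfl⟩
    exact ⟨r ^^^ t, al, be, s, ha, hb, hs, by simp only [act3, act_act, pact_pact]⟩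
  have hi : Inv act3 (closure N0) := fun r p hp =>
    map_mem_closure (cont_act3 r) hp fun q hq => hi0 r q hq
  have h0 := h2 _ (pm_DN h isClosed_closure hi)
  have h3 : (l : Measure XX) (symmDiff (sec (closure N0) g l) (sec (closure N0) g' l)) = 0 := by
    have h4 : ((l : Measure XX) (symmDiff (sec (closure N0) g l) (sec (closure N0) g' l))).toReal
        = 0 := h0
    rcases (ENNReal.toReal_eq_zero_iff _).1 h4 with h5 | h5
    · exact h5
    · exact absurd h5 (measure_ne_top _ _)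
  have h5 := (measure_eq_zero_iff_ae_notMem.1 h3).and (ae_supp l)
  have hU : cyl C ∩ cyl (wd W g) ∈ 𝓝 g :=
    ((open_cyl C).inter (open_cyl _)).mem_nhds ⟨hC, mem_wd.2 fun _ _ => rfl⟩
  obtain ⟨η, ⟨hη1, hη2⟩, hη3, hη4⟩ := ex_of_pos (supp_pos hg hU) h5
  have h6 : η ∈ sec (closure N0) g l :=
    subset_closure ⟨0, η, g, 0, hη4, hg, fun q hq => by
      rw [act_zero, act_zero]; exact (mem_wd.1 hη2 q hq).symm,
      by simp only [act_zero, pact_zero]⟩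
  have h7 : (η, g', l) ∈ closure N0 := by
    by_contra h8
    exact hη3 (Or.inl ⟨h6, h8⟩)
  have hO : IsOpen (cyl C ×ˢ (cyl C' ×ˢ bo u)) :=
    (open_cyl C).prod ((open_cyl C').prod (open_bo u))
  obtain ⟨p, ⟨hp1, hp2, hp3⟩, t, al, be, s, ha, hb, hs, rfl⟩ :=
    mem_closure_iff.1 h7 _ hO ⟨hη1, hC', hu⟩
  refine ⟨t, s, wd W (act s al), fun q hq => ⟨_, List.mem_map.2 ⟨q, hq, rfl⟩⟩, mem_shB.2 hp3,
    supp_pos ha ((open_cyl _).mem_nhds ?_), supp_pos hb ((open_cyl _).mem_nhds ?_)⟩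
  · rw [cyl_append]
    exact ⟨mem_sh.2 hp1, mem_sh.2 (mem_wd.2 fun _ _ => rfl)⟩
  · rw [cyl_append]
    exact ⟨mem_sh.2 hp2, mem_sh.2 (mem_wd.2 hs)⟩

theorem md_ex (A : Cy → Prop) (h0 : A []) (hA : ∀ C C', A C → A C' → A (C ++ C'))
    (hP : ∀ C, A C → Pio x l z C) : ∃ V : Ultrafilter (ℕ × XX), ∀ C Cz u n, A C → z ∈ cyl Cz →
      l ∈ bo u → ∀ᶠ v in (V : Filter (ℕ × XX)), n < v.1 ∧ act v.1 x ∈ cyl Cz ∧ pact v.1 l ∈ bo u ∧
        v.2 ∈ Supp l ∧ v.2 ∈ cyl C ∧ act v.1 v.2 ∈ cyl Cz := by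
  let p : Cy × Cy × Bo × ℕ → Prop := fun i => A i.1 ∧ z ∈ cyl i.2.1 ∧ l ∈ bo i.2.2.1
  let s : Cy × Cy × Bo × ℕ → Set (ℕ × XX) := fun i => {v | i.2.2.2 < v.1 ∧ act v.1 x ∈ cyl i.2.1 ∧
    pact v.1 l ∈ bo i.2.2.1 ∧ v.2 ∈ Supp l ∧ v.2 ∈ cyl i.1 ∧ act v.1 v.2 ∈ cyl i.2.1}
  have hB : Filter.IsBasis p s := by
    refine ⟨⟨([], [], [], 0), h0, by simp [cyl_nil], by simp [bo]⟩, ?_⟩
    rintro ⟨C, Cz, u, n⟩ ⟨C', Cz', u', n'⟩ ⟨a1, a2, a3⟩ ⟨b1, b2, b3⟩
    refine ⟨(C ++ C', Cz ++ Cz', u ++ u', max n n'), ⟨hA _ _ a1 b1, ?_, ?_⟩, ?_⟩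
    · rw [cyl_append]; exact ⟨a2, b2⟩
    · rw [bo_append]; exact ⟨a3, b3⟩
    · rintro v ⟨c1, c2, c3, c4, c5, c6⟩
      rw [cyl_append] at c2 c5 c6
      rw [bo_append] at c3
      exact ⟨⟨(le_max_left _ _).trans_lt c1, c2.1, c3.1, c4, c5.1, c6.1⟩,
        (le_max_right _ _).trans_lt c1, c2.2, c3.2, c4, c5.2, c6.2⟩
  haveI : hB.filter.NeBot := by
    refine hB.hasBasis.neBot_iff.2 ?_
    rintro ⟨C, Cz, u, n⟩ ⟨a1, a2, a3⟩
    obtain ⟨w, c1, c2, c3, c4⟩ := hP C a1 Cz u n a2 a3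
    obtain ⟨γ, d1, d2⟩ := ex_of_pos c4 (ae_supp l)
    rw [cyl_append] at d1
    exact ⟨(w, γ), c1, mem_sh.1 c2, mem_shB.1 c3, d2, d1.1, mem_sh.1 d1.2⟩
  refine ⟨Ultrafilter.of hB.filter, fun C Cz u n a1 a2 a3 => ?_⟩
  exact Ultrafilter.of_le _ (hB.hasBasis.mem_of_mem (i := (C, Cz, u, n)) ⟨a1, a2, a3⟩)

theorem md_nil (h : Ctx x l z) : Pio x l z [] := by
  intro Cz u n hz hl
  have hU : {p : XX × PP | p.1 ∈ cyl Cz ∧ p.2 ∈ bo u ∧ 0 < ms p.2 (cyl Cz)} ∈ 𝓝 (z, l) := by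
    refine IsOpen.mem_nhds ?_ ⟨hz, hl, supp_pos h.zK ((open_cyl Cz).mem_nhds hz)⟩
    exact ((open_cyl Cz).preimage continuous_fst).inter (((open_bo u).preimage continuous_snd).inter
      (isOpen_lt continuous_const ((cont_ms (clopen_cyl Cz)).comp continuous_snd)))
  obtain ⟨w, ⟨c1, c2, c3⟩, c4⟩ :=
    ((mapClusterPt_iff_frequently.1 h.clu _ hU).and_eventually (eventually_gt_atTop n)).exists
  refine ⟨w, c4, mem_sh.2 c1, mem_shB.2 c2, ?_⟩
  rw [List.nil_append, Pos, ms_sh]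
  exact c3

theorem go_ne (h : Ctx x l z) : (Go x l z).Nonempty := by
  obtain ⟨V, hV⟩ := md_ex (x := x) (l := l) (z := z) (fun C => C = []) rfl
    (fun C C' a b => by rw [a, b]; rfl) fun C a => a ▸ md_nil h
  obtain ⟨g, -, hg⟩ := isCompact_univ.ultrafilter_le_nhds (V.map Prod.snd) (by simp)
  refine ⟨g, mem_univ _, fun C hC hgC => hC fun Cz u n hz hl => ?_⟩
  have h1 : ∀ᶠ v in (V : Filter (ℕ × XX)), v.2 ∈ cyl C := hg ((open_cyl C).mem_nhds hgC)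
  obtain ⟨v, ⟨c1, c2, c3, c4, -, c6⟩, c7⟩ := ((hV [] Cz u n rfl hz hl).and h1).exists
  refine ⟨v.1, c1, mem_sh.2 c2, mem_shB.2 c3, supp_pos c4 ((open_cyl _).mem_nhds ?_)⟩
  rw [cyl_append]
  exact ⟨c7, mem_sh.2 c6⟩
theorem go_ref (hg : g ∈ Go x l z) : ∃ V, Ref x l z g V := by
  obtain ⟨V, hV⟩ := md_ex (x := x) (l := l) (z := z) (fun C => g ∈ cyl C) (by simp [cyl_nil])
    (fun C C' a b => by rw [cyl_append]; exact ⟨a, b⟩)
    fun C a => not_not.1 fun hn => hg.2 C hn a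
  have e1 : g ∈ cyl [] := by simp [cyl_nil]
  have e2 : z ∈ cyl [] := by simp [cyl_nil]
  have e3 : l ∈ bo [] := by simp [bo]
  refine ⟨V, tendsto_atTop.2 fun n => (hV [] [] [] n e1 e2 e3).mono fun v c => c.1.le,
    fun U hU => ?_, fun U hU => ?_, (hV [] [] [] 0 e1 e2 e3).mono fun v c => c.2.2.2.1,
    fun U hU => ?_, fun U hU => ?_⟩
  · obtain ⟨C, a, b⟩ := cyl_basis hU
    exact (hV [] C [] 0 e1 a e3).mono fun v c => b c.2.1
  · obtain ⟨u, a, b⟩ := bo_basis hU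
    exact (hV [] [] u 0 e1 e2 a).mono fun v c => b c.2.2.1
  · obtain ⟨C, a, b⟩ := cyl_basis hU
    exact (hV C [] [] 0 a e2 e3).mono fun v c => b c.2.2.2.2.1
  · obtain ⟨C, a, b⟩ := cyl_basis hU
    exact (hV [] C [] 0 e1 a e3).mono fun v c => b c.2.2.2.2.2
theorem Ref.supp (hV : Ref x l z g V) : g ∈ Supp l :=
  (supp_closed l).mem_of_tendsto hV.tg hV.inK

theorem keyL (h : Ctx x l z) (hV : Ref x l z g V) (hd : PM z l d) {η : ℕ × XX → XX} {δ : ℝ}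
    (h1 : ∀ᶠ v in (V : Filter (ℕ × XX)), (η v, l) ∈ Xs z l ∧ d (g, η v, l) ≤ δ) {γ : XX}
    (h2 : Tendsto (fun v => act v.1 (η v)) (V : Filter (ℕ × XX)) (𝓝 γ)) :
    (γ, l) ∈ Xs z l ∧ d (z, γ, l) ≤ δ := by
  have hg : (g, l) ∈ Xs z l := h.supp hV.supp
  have hγ : (γ, l) ∈ Xs z l := by
    refine h.minl.cl.mem_of_tendsto (h2.prodMk_nhds hV.tl) ?_
    filter_upwards [h1] with v hv using h.minl.inv v.1 _ hv.1
  refine ⟨hγ, ?_⟩
  have hA : Tendsto (fun v : ℕ × XX => d (act3 v.1 (v.2, η v, l))) (V : Filter (ℕ × XX))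
      (𝓝 (d (z, γ, l))) := by
    refine (hd.cont (z, γ, l) ⟨h.self, hγ⟩).tendsto.comp (tendsto_nhdsWithin_iff.2 ⟨?_, ?_⟩)
    · exact hV.tz.prodMk_nhds (h2.prodMk_nhds hV.tl)
    · filter_upwards [h1, hV.inK] with v hv hK using rr_inv h v.1 _ ⟨h.supp hK, hv.1⟩
  have hB : Tendsto (fun v : ℕ × XX => d (v.2, g, l) + δ) (V : Filter (ℕ × XX))
      (𝓝 (d (g, g, l) + δ)) := by
    refine Tendsto.add_const δ ?_
    refine (hd.cont (g, g, l) ⟨hg, hg⟩).tendsto.comp (tendsto_nhdsWithin_iff.2 ⟨?_, ?_⟩)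
    · exact hV.tg.prodMk_nhds tendsto_const_nhds
    · filter_upwards [hV.inK] with v hK using ⟨h.supp hK, hg⟩
  rw [hd.refl g l hg, zero_add] at hB
  refine le_of_tendsto_of_tendsto hA hB ?_
  filter_upwards [h1, hV.inK] with v hv hK
  rw [hd.inv v.1 _ ⟨h.supp hK, hv.1⟩]
  have := hd.tri v.2 g (η v) l (h.supp hK) hg hv.1
  linarith [hv.2]

/-- The closed invariant relation attached to a bad cell. -/
def NB (z : XX) (l : PP) (d : XX × XX × PP → ℝ) (δ : ℝ) (P : Cy) (a : ℕ) : Set (XX × XX × PP) :=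
  {p | p ∈ RR z l ∧ d p ≤ δ ∧ ∀ t, ¬ (act t p.1 ∈ cyl P ∧ act t p.2.1 ∈ cyl (ca a))}

theorem nb_closed (hd : PM z l d) (δ : ℝ) (P : Cy) (a : ℕ) : IsClosed (NB z l d δ P a) := by
  have h1 := hd.cont.preimage_isClosed_of_isClosed (rr_closed z l) (isClosed_Iic (a := δ))
  have h2 : IsClosed (⋂ t, {p : XX × XX × PP | act t p.1 ∈ cyl P ∧ act t p.2.1 ∈ cyl (ca a)}ᶜ) :=
    isClosed_iInter fun t => (((open_cyl P).preimage ((cont_act t).comp continuous_fst)).inter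
      ((open_cyl (ca a)).preimage ((cont_act t).comp continuous_snd.fst))).isClosed_compl
  convert h1.inter h2 using 1
  ext p
  exact ⟨fun hp => ⟨⟨hp.1, hp.2.1⟩, mem_iInter.2 hp.2.2⟩,
    fun hp => ⟨hp.1.1, hp.1.2, mem_iInter.1 hp.2⟩⟩
theorem nb_inv (h : Ctx x l z) (hd : PM z l d) (δ : ℝ) (P : Cy) (a : ℕ) :
    Inv act3 (NB z l d δ P a) := fun s p hp =>
  ⟨rr_inv h s p hp.1, (hd.inv s p hp.1).trans_le hp.2.1, fun t => by
    simpa only [act3, act_act] using hp.2.2 (t ^^^ s)⟩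
theorem me_base (h : Ctx x l z) (hV : Ref x l z g V) (hd : PM z l d) {δ : ℝ} {P : Cy} {a : ℕ}
    (hP : ∀ η ∈ cyl P, (η, l) ∈ Xs z l → d (g, η, l) ≤ δ)
    (hb : ∀ y, y ≠ 0 → x ∈ cyl (sh y P) → ¬ Pos l (P ++ sh y (ca a))) :
    ms l (cyl P) ≤ ms l {γ | (z, γ, l) ∈ NB z l d δ P a} := by
  let S : Set XX := {e | e ∈ cyl P ∧ (e, l) ∈ Xs z l ∧
    ∀ y, y ≠ 0 → x ∈ cyl (sh y P) → e ∉ cyl (sh y (ca a))}
  have hS : ms l (cyl P) ≤ ms l S := by
    have h1 : ∀ᵐ e ∂(l : Measure XX), ∀ y, y ≠ 0 → x ∈ cyl (sh y P) →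
        e ∉ cyl (P ++ sh y (ca a)) := by
      refine ae_all_iff.2 fun y => ?_
      by_cases hy : y ≠ 0 ∧ x ∈ cyl (sh y P)
      · have h2 := (measureReal_eq_zero_iff (measure_ne_top _ _)).1
          (le_antisymm (not_lt.1 (hb y hy.1 hy.2)) measureReal_nonneg)
        exact (measure_eq_zero_iff_ae_notMem.1 h2).mono fun e he _ _ => he
      · exact Eventually.of_forall fun e h2 h3 => absurd ⟨h2, h3⟩ hy
    refine ENNReal.toReal_mono (measure_ne_top _ _) (measure_mono_ae ?_)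
    filter_upwards [h1, h.full (z, l) h.self] with e h2 h3 h4
    exact ⟨h4, h3, fun y h5 h6 h7 => h2 y h5 h6 (by rw [cyl_append]; exact ⟨h4, h7⟩)⟩
  refine usc_filter (V := (V : Filter (ℕ × XX))) hV.tl (S := fun v => act v.1 ⁻¹' S)
    ((nb_closed hd δ P a).preimage (by fun_prop)) (fun U hU hN => ?_)
    (Eventually.of_forall fun v => ?_)
  · by_contra hn
    have h1 := Ultrafilter.eventually_not.2 hn
    have h2 : ∀ v : ℕ × XX, ∃ γ, ¬ act v.1 ⁻¹' S ⊆ U → act v.1 γ ∈ S ∧ γ ∉ U := fun v => by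
      by_cases h3 : act v.1 ⁻¹' S ⊆ U
      · exact ⟨z, fun h4 => absurd h3 h4⟩
      · obtain ⟨γ, h4⟩ := not_subset.1 h3
        exact ⟨γ, fun _ => h4⟩
    choose γ hγ using h2
    replace h1 := h1.mono hγ
    obtain ⟨γ0, h3⟩ : ∃ γ0, Tendsto γ (V : Filter (ℕ × XX)) (𝓝 γ0) :=
      ⟨_, (V.map γ).le_nhds_lim⟩
    have h4 := keyL h hV hd (η := fun v => act v.1 (γ v)) (δ := δ) (γ := γ0)
      (h1.mono fun v hv => ⟨hv.1.2.1, hP _ hv.1.1 hv.1.2.1⟩) (by simpa only [act_self] using h3)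
    refine hU.isClosed_compl.mem_of_tendsto h3 (h1.mono fun v hv => hv.2)
      (hN ⟨⟨h.self, h4.1⟩, h4.2, fun t ht => ?_⟩)
    have h5 := (((cont_act t).tendsto z).comp hV.tx).eventually ((open_cyl P).mem_nhds ht.1)
    have h6 := (((cont_act t).tendsto γ0).comp h3).eventually ((open_cyl (ca a)).mem_nhds ht.2)
    obtain ⟨v, ⟨⟨hv, h7⟩, h8⟩, h9⟩ :=
      (((h1.and h5).and h6).and (hV.inf.eventually (eventually_gt_atTop t))).exists
    refine hv.1.2.2 (t ^^^ v.1) (fun h0 => h9.ne (Nat.xor_eq_zero_iff.1 h0)) (mem_sh.2 ?_)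
      (mem_sh.2 ?_)
    · rw [← act_act]; exact h7
    · rw [← act_act, act_self]; exact h8
  · rw [ms_pact, ← preimage_comp, show act v.1 ∘ act v.1 = id from funext (act_self _), preimage_id]
    exact hS
theorem bad_lower (h : Ctx x l z) (hV : Ref x l z g V) (hd : PM z l d) {δ : ℝ} {P : Cy} {a : ℕ}
    (hP : ∀ η ∈ cyl P, (η, l) ∈ Xs z l → d (g, η, l) ≤ δ)
    (hb : ∀ y, y ≠ 0 → x ∈ cyl (sh y P) → ¬ Pos l (P ++ sh y (ca a))) :
    ∀ p ∈ Xs z l, ms l (cyl P) ≤ ms p.2 {γ | (p.1, γ, p.2) ∈ NB z l d δ P a} := by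
  have h1 := usc (S := XX × PP) (N := {q | (q.1.1, q.2, q.1.2) ∈ NB z l d δ P a})
    ((nb_closed hd δ P a).preimage (by fun_prop)) continuous_snd (ms l (cyl P))
  refine orb_sub (a := act2) h1 (fun t p hp => ?_) (me_base h hV hd hP hb)
  show _ ≤ ms (pact t p.2) _
  rw [ms_pact]
  exact (show _ ≤ ms p.2 _ from hp).trans
    (measureReal_mono fun γ hγ => nb_inv h hd δ P a t (p.1, γ, p.2) hγ)

theorem fubini_pos {l : PP} {N : Set (XX × XX)} (hN : MeasurableSet N) {P : Set XX}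
    (hP : MeasurableSet P) (h0 : 0 < ms l P)
    (h1 : ∀ᵐ η ∂(l : Measure XX), 0 < ms l {γ | (η, γ) ∈ N}) {G : Set XX}
    (hG : ∀ᵐ ζ ∂(l : Measure XX), ζ ∈ G) : ∃ γ ∈ G, 0 < ms l ({η | (η, γ) ∈ N} ∩ P) := by
  by_contra hn
  have h2 : ∀ᵐ γ ∂(l : Measure XX), ∀ᵐ η ∂(l : Measure XX), ¬ ((η, γ) ∈ N ∧ η ∈ P) :=
    hG.mono fun γ hγ => measure_eq_zero_iff_ae_notMem.1
      ((measureReal_eq_zero_iff (measure_ne_top _ _)).1
        (le_antisymm (not_lt.1 fun h => hn ⟨γ, hγ, h⟩) measureReal_nonneg))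
  have h3 := (Measure.ae_ae_comm (p := fun η γ => ¬ ((η, γ) ∈ N ∧ η ∈ P))
    (hN.inter (measurable_fst hP)).compl).2 h2
  obtain ⟨η, h4, h5, h6⟩ := ex_of_pos h0 (h1.and h3)
  obtain ⟨γ, h7, h8⟩ := ex_of_pos h5 h6
  exact h8 ⟨h7, h4⟩

theorem mf_cell (h : Ctx x l z) (hg : g ∈ Supp l) (hd : PM z l d) {δ : ℝ} (hδ : 0 < δ) :
    ∃ P0, g ∈ cyl P0 ∧ ∀ η ∈ cyl P0, (η, l) ∈ Xs z l → d (g, η, l) ≤ δ := by
  have hgX : (g, l) ∈ Xs z l := h.supp hg
  have hc : ContinuousWithinAt d (RR z l) (g, g, l) := hd.cont _ ⟨hgX, hgX⟩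
  have h1 : ∀ᶠ p in 𝓝[RR z l] (g, g, l), d p < δ :=
    hc.eventually (gt_mem_nhds (by rw [hd.refl g l hgX]; exact hδ))
  rw [eventually_nhdsWithin_iff] at h1
  have h2 : Continuous fun η : XX => ((g, η, l) : XX × XX × PP) := by fun_prop
  obtain ⟨P0, h3, h4⟩ := cyl_basis ((h2.tendsto g).eventually h1)
  exact ⟨P0, h3, fun η hη hX => (h4 hη ⟨hgX, hX⟩).le⟩

theorem bad (h : Ctx x l z) (hV : Ref x l z g V) {a : ℕ} (hga : g ∈ cyl (ca a))
    (hn : ∀ P0, ¬ Sol x l a P0) (hd : PM z l d) {δ : ℝ} (hδ : 0 < δ) {G : Set XX}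
    (hG : ∀ᵐ ζ ∂(l : Measure XX), ζ ∈ G) :
    ∃ g1 ∈ G, (g1, l) ∈ Xs z l ∧ ∃ d', PM z l d' ∧ ∃ r, 0 < r ∧ ∀ g', (g', l) ∈ Xs z l →
      d' (g1, g', l) < r → g' ∉ cyl (ca a) ∧ d (g, g', l) ≤ 2 * δ := by
  have hg := hV.supp
  have hgX : (g, l) ∈ Xs z l := h.supp hg
  obtain ⟨P0, hP0, hP1⟩ := mf_cell h hg hd hδ
  have hpos : Pos l (ca a ++ P0) :=
    supp_pos hg ((open_cyl _).mem_nhds (by rw [cyl_append]; exact ⟨hga, hP0⟩))
  obtain ⟨P, hP, hb⟩ : ∃ P, Pos l (ca a ++ P0 ++ P) ∧ ∀ y, y ≠ 0 →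
      x ∈ cyl (sh y (ca a ++ P0 ++ P)) → ¬ Pos l (ca a ++ P0 ++ P ++ sh y (ca a)) := by
    by_contra hc
    refine hn P0 ⟨hpos, fun P hP => ?_⟩
    by_contra h2
    exact hc ⟨P, hP, fun y hy hx hp => h2 ⟨y, hy, hx, hp⟩⟩
  have hδP : ∀ η ∈ cyl (ca a ++ P0 ++ P), (η, l) ∈ Xs z l → d (g, η, l) ≤ δ := fun η hη =>
    hP1 η (by rw [cyl_append, cyl_append] at hη; exact hη.1.2)
  have hlow := bad_lower h hV hd hδP hb
  have hcl := nb_closed hd δ (ca a ++ P0 ++ P) a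
  have hfull : ∀ᵐ η ∂(l : Measure XX), (η, l) ∈ Xs z l := h.full _ h.self
  have hN : MeasurableSet {p : XX × XX | (p.1, p.2, l) ∈ NB z l d δ (ca a ++ P0 ++ P) a} :=
    (hcl.preimage (f := fun p : XX × XX => (p.1, p.2, l)) (by fun_prop)).measurableSet
  obtain ⟨g1, ⟨hg1, hg1X⟩, hr⟩ := fubini_pos hN (meas_cyl (ca a ++ P0 ++ P)) hP
    (hfull.mono fun η hη => lt_of_lt_of_le hP (hlow _ hη))
    (G := G ∩ {ζ | (ζ, l) ∈ Xs z l}) (hG.and hfull)
  refine ⟨g1, hg1, hg1X, _, pm_DN h hcl (nb_inv h hd δ _ a), _, hr, fun g' hg' hlt => ?_⟩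
  obtain ⟨η, hη, hη'⟩ : ∃ η ∈ cyl (ca a ++ P0 ++ P),
      (η, g', l) ∈ NB z l d δ (ca a ++ P0 ++ P) a := by
    by_contra hc
    refine absurd hlt (not_lt.2 (measureReal_mono fun η hη => ?_))
    exact Or.inl ⟨hη.1, fun h3 => hc ⟨η, hη.2, h3⟩⟩
  refine ⟨fun h3 => hη'.2.2 0 ⟨by rwa [act_zero], by rwa [act_zero]⟩, ?_⟩
  have h4 := hd.tri g η g' l hgX hη'.1.1 hg'
  have h5 := hδP η hη hη'.1.1
  have h6 : d (η, g', l) ≤ δ := hη'.2.1
  linarith

theorem ast_zero (l : PP) (g : XX) (a : ℕ) : Ast l g a 0 := fun p _ => by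
  cases h : p (0, a, false)
  · exact ⟨[((0, a, false), false)], by simp, by simpa [cyl] using h⟩
  · exact ⟨ca a, by simp, mem_ca.2 h⟩
theorem mg_shift (h : Ctx x l z) (hd : PM z l d) {O N : Set XX} (hO : IsOpen O) (hN : IsOpen N)
    {g1 : XX} (h1 : g1 ∈ N) (h2 : (g1, l) ∈ Xs z l) {r : ℝ}
    (h3 : ∀ g', (g', l) ∈ Xs z l → d (g1, g', l) ≤ r → g' ∈ O) :
    ∃ t, act t z ∈ N ∧ ∀ γ, (γ, l) ∈ Xs z l → d (z, γ, l) ≤ r → act t γ ∈ O := by
  have hK : IsClosed ((RR z l ∩ d ⁻¹' Iic r) ∩ {p | p.2.1 ∈ Oᶜ}) :=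
    (hd.cont.preimage_isClosed_of_isClosed (rr_closed z l) isClosed_Iic).inter
      (hO.isClosed_compl.preimage continuous_snd.fst)
  have hc := (hK.isCompact.image (f := fun p => (p.1, p.2.2)) (by fun_prop)).isClosed
  obtain ⟨_, ⟨h4, h5⟩, t, rfl⟩ := mem_closure_iff.1 h2 _
    (hc.isOpen_compl.inter (hN.preimage continuous_fst)) ⟨by
      rintro ⟨⟨p1, p2, p3⟩, hp, e⟩
      obtain ⟨rfl, rfl⟩ := Prod.mk.inj e
      exact hp.2 (h3 p2 hp.1.1.2 hp.1.2), h1⟩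
  refine ⟨t, h5, fun γ h6 h7 => by_contra fun h8 => h4 ⟨act3 t (z, γ, l), ⟨⟨?_, ?_⟩, h8⟩, rfl⟩⟩
  · exact rr_inv h t _ ⟨h.self, h6⟩
  · exact (hd.inv t (z, γ, l) ⟨h.self, h6⟩).trans_le h7
theorem mg_es (h : Ctx x l z) (hV : Ref x l z g V) (hd : PM z l d) {O : Set XX} (hO : IsOpen O)
    (h1 : ∀ γ, (γ, l) ∈ Xs z l → d (z, γ, l) ≤ 0 → γ ∈ O) :
    ∀ᶠ v in (V : Filter (ℕ × XX)), ∀ e ∈ Es l g, act v.1 e ∈ O := by
  by_contra hn
  have h2 : ∀ v : ℕ × XX, ∃ η, (¬ ∀ e ∈ Es l g, act v.1 e ∈ O) → η ∈ Es l g ∧ act v.1 η ∉ O :=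
    fun v => by
      by_cases h3 : ∀ e ∈ Es l g, act v.1 e ∈ O
      · exact ⟨z, fun h4 => absurd h3 h4⟩
      · obtain ⟨η, h4⟩ := not_forall.1 h3
        exact ⟨η, fun _ => Classical.not_imp.1 h4⟩
  choose η hη using h2
  have h3 := (Ultrafilter.eventually_not.2 hn).mono hη
  obtain ⟨γ, h4⟩ : ∃ γ, Tendsto (fun v : ℕ × XX => act v.1 (η v)) V (𝓝 γ) :=
    ⟨_, (V.map fun v : ℕ × XX => act v.1 (η v)).le_nhds_lim⟩
  have h5 := keyL h hV hd (δ := 0)
    (h3.mono fun v hv => ⟨(es_sub h hv.1).1, ((es_sub h hv.1).2 d hd).le⟩) h4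
  exact hO.isClosed_compl.mem_of_tendsto h4 (h3.mono fun v hv => hv.2) (h1 γ h5.1 h5.2)
theorem extend (h : Ctx x l z) (hV : Ref x l z g V) {a : ℕ} (hga : g ∈ cyl (ca a))
    (hn : ∀ P0, ¬ Sol x l a P0) (h0 : ∀ n, ∀ᵐ ζ ∂(l : Measure XX), ζ ∈ cyl (nb n)) (S : List ℕ)
    (hS : ∀ s ∈ S, Ast l g a s) (n : ℕ) : ∃ y, n < y ∧ x ∈ cyl (sh y (nb n)) ∧
      ∀ s ∈ S, x (s ^^^ y, a, false) = false ∧ Ast l g a (s ^^^ y) := by
  obtain ⟨O, hO, hm⟩ : ∃ O : Set XX, IsOpen O ∧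
      ∀ ζ, ζ ∈ O ↔ ∀ s ∈ S, ζ (s, a, false) = false :=
    ⟨_, open_cyl (S.map fun s => ((s, a, false), false)), fun ζ => by simp [cyl]⟩
  obtain ⟨d, hd, δ, hδ, h1⟩ := pm_ball (h.supp hV.supp) ((open_cyl (ca a)).union hO)
    fun g' h1 h2 => or_iff_not_imp_left.2 fun h3 => (hm g').2 fun s hs => by
      obtain ⟨C, h4, h5⟩ := hS s hs g' (sub_es h hV.supp h1 h2)
      rcases List.mem_pair.1 h4 with rfl | rfl
      · exact absurd h5 h3
      · exact h5 _ List.mem_cons_self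
  obtain ⟨g1, h2, h3, d', hd', r, hr, h4⟩ := bad h hV hga hn hd (half_pos hδ) (h0 n)
  obtain ⟨t, h5, h6⟩ := mg_shift h hd' hO (open_cyl _) h2 h3 (r := r / 2) fun g' h5 h6 => by
    have h7 := h4 g' h5 (by linarith)
    exact (h1 g' h5 (by linarith [h7.2])).resolve_left h7.1
  have h7 := mg_es h hV hd' (hO.preimage (cont_act t)) fun γ h7 h8 => h6 γ h7 (by linarith)
  have h8 := (((cont_act t).tendsto z).comp hV.tx).eventually
    ((hO.inter (open_cyl (nb n))).mem_nhds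
      ⟨h6 z h.self (by rw [hd'.refl z l h.self]; linarith), h5⟩)
  have h9 := hV.inf.eventually ((Filter.eventually_all_finset (Finset.range (n + 1))).2
    fun j _ => eventually_gt_atTop (t ^^^ j))
  obtain ⟨v, ⟨e1, e2⟩, e3⟩ := ((h7.and h8).and h9).exists
  refine ⟨t ^^^ v.1, not_le.1 fun e4 => ?_, mem_sh.2 (act_act t v.1 x ▸ e2.2), fun s hs => ⟨?_, ?_⟩⟩
  · have := e3 _ (Finset.mem_range.2 (Nat.lt_succ_of_le e4))
    rw [Nat.xor_xor_cancel_left] at this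
    exact this.false
  · exact (hm (act (t ^^^ v.1) x)).1 (act_act t v.1 x ▸ e2.1) s hs
  · refine fun e he => ⟨[((s ^^^ (t ^^^ v.1), a, false), false)], by simp, fun b hb => ?_⟩
    rw [List.mem_singleton.1 hb]
    exact (hm (act (t ^^^ v.1) e)).1 (act_act t v.1 e ▸ e1 e he) s hs

end

def Goal (c y : ℕ → ℕ) : Prop := (∀ i, y i ≠ 0 ∧ 2 ^ i ∣ y i) ∧
  ∃ a, (∀ i, c (y i) = a) ∧ ∀ i j, i < j → c (y i ^^^ y j) = a
def Red (c : ℕ → ℕ) (a : ℕ) (Φ : ℕ → ℕ) : Prop := (∀ n m, Φ (n ^^^ m) = Φ n ^^^ Φ m) ∧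
  (∀ n, n ≠ 0 → Φ n ≠ 0 ∧ c (Φ n) ≠ a) ∧ ∀ m n, 2 ^ m ∣ n → 2 ^ m ∣ Φ n

section
variable {D : Type} [HB D] {α : Type} [Primcodable α] [Inhabited α]

theorem aa_sh : AF fun (_ : D) (y : ℕ × Cy) => sh y.1 y.2 :=
  AF.map (l := fun (_ : D) (y : ℕ × Cy) => y.2)
    (g := fun _ (y : ℕ × Cy) (b : Co × Bool) => ((b.1.1 ^^^ y.1, b.1.2), b.2)) AF.id.snd
    (((AF.xor AF.id.snd.fst.fst AF.id.fst.fst).pair AF.id.snd.fst.snd).pair AF.id.snd.snd)
theorem af_sh {t : D → α → ℕ} {C : D → α → Cy} (ht : AF t) (hC : AF C) :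
    AF fun a x => sh (t a x) (C a x) :=
  AF.app (g := fun (_ : D) (y : ℕ × Cy) => sh y.1 y.2) aa_sh (ht.pair hC)
theorem aa_shL : AF fun (_ : D) (y : ℕ × List Cy) => y.2.map (sh y.1) :=
  AF.map (l := fun (_ : D) (y : ℕ × List Cy) => y.2)
    (g := fun _ (y : ℕ × List Cy) (C : Cy) => sh y.1 C) AF.id.snd (af_sh AF.id.fst.fst AF.id.snd)
theorem af_shA {t : D → α → ℕ} {h : D → α → At} (ht : AF t) (hh : AF h) :
    AF fun a x => shA (t a x) (h a x) :=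
  (AF.app (g := fun (_ : D) (y : ℕ × List Cy) => y.2.map (sh y.1)) aa_shL (ht.pair hh.fst)).pair
    (AF.app (g := fun (_ : D) (y : ℕ × List Cy) => y.2.map (sh y.1)) aa_shL (ht.pair hh.snd))
theorem aa_shB : AF fun (_ : D) (y : ℕ × Bo) => shB y.1 y.2 :=
  AF.map (l := fun (_ : D) (y : ℕ × Bo) => y.2)
    (g := fun _ (y : ℕ × Bo) (h : At) => shA y.1 h) AF.id.snd (af_shA AF.id.fst.fst AF.id.snd)
theorem af_shB {t : D → α → ℕ} {u : D → α → Bo} (ht : AF t) (hu : AF u) :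
    AF fun a x => shB (t a x) (u a x) :=
  AF.app (g := fun (_ : D) (y : ℕ × Bo) => shB y.1 y.2) aa_shB (ht.pair hu)
theorem aa_nb : AF fun (_ : D) (n : ℕ) => nb n :=
  AF.map (l := fun (_ : D) (n : ℕ) => List.range n)
    (g := fun _ (_ : ℕ) (i : ℕ) => ((((0 : ℕ), i, true), false) : Co × Bool))
    (AF.p1 Primrec.list_range AF.id) ((AF.const.pair (AF.id.snd.pair AF.const)).pair AF.const)
theorem af_nb {n : D → α → ℕ} (hn : AF n) : AF fun a x => nb (n a x) :=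
  AF.app (g := fun (_ : D) (n : ℕ) => nb n) aa_nb hn
theorem aa_ng : AF fun (_ : D) (C : Cy) => ng C :=
  AF.map (l := fun (_ : D) (C : Cy) => C)
    (g := fun _ (_ : Cy) (b : Co × Bool) => ([(b.1, !b.2)] : Cy)) AF.id
    ((AF.id.snd.fst.pair (AF.p1 Primrec.not AF.id.snd.snd)).cons AF.const)
theorem af_ng {C : D → α → Cy} (hC : AF C) : AF fun a x => ng (C a x) :=
  AF.app (g := fun (_ : D) (C : Cy) => ng C) aa_ng hC
theorem ar_pos {l : D → PP} (hl : Ar fun a u => l a ∈ bo u) {C : D → α → Cy} (hC : AF C) :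
    Ar fun a x => Pos (l a) (C a x) :=
  (Ar.app (r := fun a (u : Bo) => l a ∈ bo u) hl
    (f := fun a x => ([([C a x], [])] : Bo))
    (((hC.cons AF.const).pair AF.const).cons AF.const)).of_iff fun _ _ => pos_iff
theorem aa_xof {c : D → ℕ → ℕ} (hc : AF c) : AF fun a (q : Co) => xof (c a) q :=
  AF.ite (p := fun _ (q : Co) => q.2.2 = true) (Ar.eq AF.id.snd.snd AF.const)
    (AF.bit AF.id.fst AF.id.snd.fst) (AF.dec (Ar.eq (hc.app AF.id.fst) AF.id.snd.fst))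
theorem ar_x {c : D → ℕ → ℕ} (hc : AF c) : Ar fun a C => xof (c a) ∈ cyl C :=
  Ar.all (r := fun a (C : Cy) (b : Co × Bool) => b ∈ C → xof (c a) b.1 = b.2)
    ((Ar.mem AF.id.snd AF.id.fst).imp (Ar.eq ((aa_xof hc).app AF.id.snd.fst) AF.id.snd.snd))
theorem aa_in : Ar fun (_ : D) (y : List Co × Cy) => ∀ b, b ∈ y.2 → (b.1 ∈ y.1 ↔ b.2 = true) :=
  Ar.all (r := fun _ (y : List Co × Cy) (b : Co × Bool) => b ∈ y.2 → (b.1 ∈ y.1 ↔ b.2 = true))
    ((Ar.mem AF.id.snd AF.id.fst.snd).imp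
      ((Ar.mem AF.id.snd.fst AF.id.fst.fst).iff (Ar.eq AF.id.snd.snd AF.const)))
theorem aa_cov (l : List Cy) : Cov cyl univ l ↔
    ∀ e : List Co, ∃ C, C ∈ l ∧ ∀ b, b ∈ C → (b.1 ∈ e ↔ b.2 = true) := by
  classical
  refine ⟨fun h e => ?_, fun h ζ _ => ?_⟩
  · obtain ⟨C, hC, k⟩ := h (fun q => decide (q ∈ e)) (mem_univ _)
    exact ⟨C, hC, fun b hb => by rw [← k b hb]; simp⟩
  · obtain ⟨C, hC, k⟩ := h ((l.flatten.map Prod.fst).filter ζ)
    refine ⟨C, hC, fun b hb => ?_⟩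
    have h1 : b.1 ∈ l.flatten.map Prod.fst :=
      List.mem_map.2 ⟨b, List.mem_flatten.2 ⟨C, hC, hb⟩, rfl⟩
    have h2 := k b hb
    rw [List.mem_filter, and_iff_right h1] at h2
    exact Bool.eq_iff_iff.2 h2
theorem ar_univX : Ar fun (_ : D) l => Cov cyl univ l :=
  Ar.of_iff (Ar.all (r := fun (_ : D) (l : List Cy) (e : List Co) =>
      ∃ C, C ∈ l ∧ ∀ b, b ∈ C → (b.1 ∈ e ↔ b.2 = true))
    (Ar.ex (r := fun (_ : D) (y : List Cy × List Co) (C : Cy) =>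
      C ∈ y.1 ∧ ∀ b, b ∈ C → (b.1 ∈ y.2 ↔ b.2 = true))
      ((Ar.mem AF.id.snd AF.id.fst.fst).and (aa_in.app (AF.id.fst.snd.pair AF.id.snd)))))
    fun _ l => aa_cov l

theorem ai_1 {x : D → XX} {l : D → PP} (hx : Ar fun a C => x a ∈ cyl C)
    (hl : Ar fun a u => l a ∈ bo u) : Ar fun a (y : (Cy × Cy) × Bo × ℕ) => ∃ w, y.2.2 < w ∧
      x a ∈ cyl (sh w y.1.2) ∧ l a ∈ bo (shB w y.2.1) ∧ Pos (l a) (y.1.1 ++ sh w y.1.2) :=
  Ar.ex (r := fun a (y : (Cy × Cy) × Bo × ℕ) (w : ℕ) => y.2.2 < w ∧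
      x a ∈ cyl (sh w y.1.2) ∧ l a ∈ bo (shB w y.2.1) ∧ Pos (l a) (y.1.1 ++ sh w y.1.2))
    ((Ar.lt AF.id.fst.snd.snd AF.id.snd).and
      ((hx.app (af_sh AF.id.snd AF.id.fst.fst.snd)).and
        ((hl.app (af_shB AF.id.snd AF.id.fst.snd.fst)).and
          (ar_pos hl (AF.id.fst.fst.fst.append (af_sh AF.id.snd AF.id.fst.fst.snd))))))
theorem ar_pio {x z : D → XX} {l : D → PP} (hx : Ar fun a C => x a ∈ cyl C)
    (hz : Ar fun a C => z a ∈ cyl C) (hl : Ar fun a u => l a ∈ bo u) :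
    Ar fun a C => Pio (x a) (l a) (z a) C := by
  have h1 := ((hz.app (AF.id (α := (Cy × Cy) × Bo × ℕ)).fst.snd).imp
    ((hl.app AF.id.snd.fst).imp (ai_1 hx hl)))
  have h2 := Ar.all (r := fun a (y : Cy × Cy) (v : Bo × ℕ) => z a ∈ cyl y.2 → l a ∈ bo v.1 →
    ∃ w, v.2 < w ∧ x a ∈ cyl (sh w y.2) ∧ l a ∈ bo (shB w v.1) ∧ Pos (l a) (y.1 ++ sh w y.2)) h1
  exact (Ar.all (r := fun a (C Cz : Cy) => ∀ v : Bo × ℕ, z a ∈ cyl Cz → l a ∈ bo v.1 →
    ∃ w, v.2 < w ∧ x a ∈ cyl (sh w Cz) ∧ l a ∈ bo (shB w v.1) ∧ Pos (l a) (C ++ sh w Cz))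
      h2).of_iff fun a C => ⟨fun h Cz v => h Cz v.1 v.2, fun h Cz u n => h Cz (u, n)⟩
theorem ai_full : Ar fun (_ : D) (y : List Co × Cy) => Full y.1 y.2 :=
  Ar.all (r := fun _ (y : List Co × Cy) (q : Co) => q ∈ y.1 → ∃ b, (q, b) ∈ y.2)
    ((Ar.mem AF.id.snd AF.id.fst.fst).imp
      (Ar.ex (r := fun _ (y : (List Co × Cy) × Co) (b : Bool) => (y.2, b) ∈ y.1.2)
        (Ar.mem (AF.id.fst.snd.pair AF.id.snd) AF.id.fst.fst.snd)))
theorem ai_phi {l : D → PP} (hl : Ar fun a u => l a ∈ bo u) :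
    Ar fun a (y : Cy × List Co × Cy × Bo) => Phi (l a) y.2.1 y.2.2.1 y.1 y.2.2.2 := by
  have i : AF fun (_ : D) (x : (Cy × List Co × Cy × Bo) × ℕ × ℕ × Cy) => x := AF.id
  have e := af_sh i.snd.snd.fst i.snd.snd.snd
  exact (Ar.ex (r := fun a (y : Cy × List Co × Cy × Bo) (v : ℕ × ℕ × Cy) => Full y.2.1 v.2.2 ∧
    l a ∈ bo (shB v.1 y.2.2.2) ∧ Pos (l a) (sh v.1 y.2.2.1 ++ sh v.2.1 v.2.2) ∧
      Pos (l a) (sh v.1 y.1 ++ sh v.2.1 v.2.2))
    ((ai_full.app (i.fst.snd.fst.pair i.snd.snd.snd)).and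
      ((hl.app (af_shB i.snd.fst i.fst.snd.snd.snd)).and
        ((ar_pos hl ((af_sh i.snd.fst i.fst.snd.snd.fst).append e)).and
          (ar_pos hl ((af_sh i.snd.fst i.fst.fst).append e)))))).of_iff fun a y =>
    ⟨fun ⟨t, s, E, h⟩ => ⟨(t, s, E), h⟩, fun ⟨v, h⟩ => ⟨v.1, v.2.1, v.2.2, h⟩⟩
theorem ar_ast {g : D → XX} {l : D → PP} (hg : Ar fun a C => g a ∈ cyl C)
    (hl : Ar fun a u => l a ∈ bo u) (col : D → ℕ) :
    Ar fun a s => Ast (l a) (g a) (col a) s := by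
  have i : AF fun (_ : D) (x : Cy × List Co × Cy × Bo) => x := AF.id
  have h1 : Ar fun a (C' : Cy) => ∃ W C u, g a ∈ cyl C ∧ l a ∈ bo u ∧ ¬ Phi (l a) W C C' u :=
    (Ar.ex (r := fun a (C' : Cy) (v : List Co × Cy × Bo) => g a ∈ cyl v.2.1 ∧ l a ∈ bo v.2.2 ∧
      ¬ Phi (l a) v.1 v.2.1 C' v.2.2) ((hg.app i.snd.snd.fst).and ((hl.app i.snd.snd.snd).and
        (ai_phi hl).not))).of_iff fun a y =>
      ⟨fun ⟨t, s, E, h⟩ => ⟨(t, s, E), h⟩, fun ⟨v, h⟩ => ⟨v.1, v.2.1, v.2.2, h⟩⟩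
  have h2 := ar_rem open_cyl (A := fun _ : D => univ) (fun _ => isClosed_univ) ar_univX h1
  have h3 : AF fun a (s : ℕ) => ([ca (col a), [((s, col a, false), false)]] : List Cy) :=
    AF.const.cons ((((AF.id.pair AF.const).pair AF.const).cons AF.const).cons AF.const)
  exact h2.app h3

/-- The number of pairs of a cylinder in `L` and a finitely supported point in `e` lying in it. -/
def cnt (L : List Cy) (e : List (List Co)) : ℕ :=
  (L.map fun C => (e.map fun p => if ∀ b, b ∈ C → decide (b.1 ∈ p) = b.2 then 1 else 0).sum).sum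
def ab_pt (p : List Co) : XX := fun q => decide (q ∈ p)
noncomputable def ab_c (C : Cy) (e : List (List Co)) : ℝ :=
  (e.map fun p => (cyl C).indicator (fun _ => (1 : ℝ)) (ab_pt p)).sum
theorem ab_cnt (L : List Cy) (e : List (List Co)) :
    (cnt L e : ℝ) = (L.map fun C => ab_c C e).sum := by
  simp only [cnt, ab_c, Nat.cast_list_sum, List.map_map]
  congr 2
  funext C
  simp only [Function.comp, Nat.cast_list_sum, List.map_map]
  congr 2
  funext p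
  simp only [Function.comp]
  split_ifs with h
  · rw [Set.indicator_of_mem (show ab_pt p ∈ cyl C from h)]; simp
  · rw [Set.indicator_of_notMem (show ab_pt p ∉ cyl C from h)]; simp
theorem ab_nil (e : List (List Co)) : ab_c [] e = e.length := by simp [ab_c, cyl_nil]
theorem ab_sig (e : List (List Co)) (he : e ≠ []) :
    ∃ ν : PP, ∀ L, (e.length : ℝ) * ev L ν = cnt L e := by
  have h0 : (0 : ℝ) < e.length := by exact_mod_cast List.length_pos_iff.2 he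
  obtain ⟨ν, hν⟩ := ex_mix (fun _ : Fin e.length => (e.length : ℝ)⁻¹) (fun _ => by positivity)
    (by simp [h0.ne']) fun i => diracProba (ab_pt e[i.1])
  refine ⟨ν, fun L => ?_⟩
  rw [ab_cnt, ev, ← List.sum_map_mul_left]
  congr 2
  funext C
  rw [hν, ← Finset.mul_sum, ← mul_assoc, mul_inv_cancel₀ h0.ne', one_mul, ab_c,
    ← Fin.sum_univ_fun_getElem]
  refine Finset.sum_congr rfl fun i _ => ?_
  simp only [ms, diracProba, ProbabilityMeasure.coe_mk, Measure.real,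
    Measure.dirac_apply' _ (meas_cyl C)]
  by_cases h : ab_pt e[i.1] ∈ cyl C <;> simp [h]
theorem ab_app (μ : PP) (W : List Co) : ∃ e : ℕ → List (List Co), (∀ N, e N ≠ []) ∧
    ∀ C : Cy, (∀ b ∈ C, b.1 ∈ W) →
      Tendsto (fun N : ℕ => ab_c C (e N) / N) atTop (𝓝 (ms μ (cyl C))) := by
  classical
  let φ : XX → Finset Co := fun ζ => W.toFinset.filter fun q => ζ q = true
  have hφ : ∀ ζ, ∀ q ∈ W, ab_pt (φ ζ).toList q = ζ q := fun ζ q hq => by
    simp [ab_pt, φ, hq]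
  have hm : ∀ T, MeasurableSet (φ ⁻¹' {T}) := fun T => by
    rcases (φ ⁻¹' {T}).eq_empty_or_nonempty with h | ⟨ζ, h⟩
    · rw [h]; exact MeasurableSet.empty
    · have : φ ⁻¹' {T} = cyl (wd W ζ) := by
        ext η
        rw [mem_wd, mem_preimage, mem_singleton_iff, ← show φ ζ = T from h]
        constructor
        · intro e q hq
          rw [← hφ η q hq, ← hφ ζ q hq, e]
        · intro e
          exact Finset.filter_congr fun q hq => by rw [e q (List.mem_toFinset.1 hq)]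
      rw [this]; exact meas_cyl _
  let k : ℕ → Finset Co → ℕ := fun N T => ⌊ms μ (φ ⁻¹' {T}) * (N : ℝ)⌋₊ + 1
  refine ⟨fun N => W.toFinset.powerset.toList.flatMap fun T => List.replicate (k N T) T.toList,
    fun N h => ?_, fun C hC => ?_⟩
  · have := List.flatMap_eq_nil_iff.1 h ∅ (by simp)
    simp [k] at this
  · have e1 : ∀ N, ab_c C (W.toFinset.powerset.toList.flatMap fun T =>
        List.replicate (k N T) T.toList) / N = ∑ T ∈ W.toFinset.powerset,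
          (k N T : ℝ) / N * (cyl C).indicator (fun _ => (1 : ℝ)) (ab_pt T.toList) := fun N => by
      rw [ab_c, List.map_flatMap, List.flatMap_def, List.sum_flatten, List.map_map,
        Finset.sum_map_toList, Finset.sum_div]
      refine Finset.sum_congr rfl fun T _ => ?_
      simp only [Function.comp, List.map_replicate, List.sum_replicate, nsmul_eq_mul]
      ring
    have e2 : ms μ (cyl C) = ∑ T ∈ W.toFinset.powerset,
        ms μ (φ ⁻¹' {T}) * (cyl C).indicator (fun _ => (1 : ℝ)) (ab_pt T.toList) := by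
      simp only [Set.indicator_apply, mul_ite, mul_one, mul_zero, ← Finset.sum_filter, ms]
      rw [sum_measureReal_preimage_singleton _ fun T _ => hm T]
      congr 1
      ext ζ
      rw [mem_preimage, Finset.mem_coe, Finset.mem_filter, Finset.mem_powerset]
      refine ⟨fun h => ⟨Finset.filter_subset _ _, fun b hb => ?_⟩, fun h b hb => ?_⟩
      · rw [hφ ζ _ (hC b hb), h b hb]
      · rw [← hφ ζ _ (hC b hb), h.2 b hb]
    simp only [e1]
    rw [e2]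
    refine tendsto_finsetSum _ fun T _ => Tendsto.mul_const _ ?_
    have h1 := (tendsto_nat_floor_mul_div_atTop (R := ℝ) (a := ms μ (φ ⁻¹' {T}))
      measureReal_nonneg).comp tendsto_natCast_atTop_atTop
    have h2 := h1.add (tendsto_const_div_atTop_nhds_zero_nat (1 : ℝ))
    rw [add_zero] at h2
    refine h2.congr fun N => ?_
    simp only [k, Function.comp, Nat.cast_add, Nat.cast_one, add_div]
theorem cov_univP (l : List Bo) : Cov bo univ l ↔ ∃ m : ℕ, ∀ e : List (List Co), e ≠ [] →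
    ∃ u, u ∈ l ∧ ∀ h, h ∈ u → m * cnt h.2 e + e.length ≤ m * cnt h.1 e := by
  constructor
  · intro hc
    let U : ℕ → Set PP := fun m => ⋃ u ∈ {u | u ∈ l}, ⋂ h ∈ {h | h ∈ u},
      {μ | (m : ℝ) * ev h.2 μ + 1 < m * ev h.1 μ}
    have hU : ∀ m μ, μ ∈ U m ↔ ∃ u ∈ l, ∀ h ∈ u, (m : ℝ) * ev h.2 μ + 1 < m * ev h.1 μ := by
      simp [U]
    have ho : ∀ m, IsOpen (U m) := fun m => isOpen_biUnion fun u _ =>
      (List.finite_toSet u).isOpen_biInter fun h _ => isOpen_lt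
        ((continuous_const.mul (cont_ev _)).add continuous_const)
        (continuous_const.mul (cont_ev _))
    have hmo : Monotone U := monotone_nat_of_le_succ fun m μ h => by
      obtain ⟨u, hu, h⟩ := (hU _ _).1 h
      refine (hU _ _).2 ⟨u, hu, fun a ha => ?_⟩
      have h1 := h a ha
      have h2 : (0 : ℝ) ≤ m := Nat.cast_nonneg m
      have h3 : ev a.2 μ < ev a.1 μ := lt_of_mul_lt_mul_left (by linarith) h2
      push_cast
      linarith
    obtain ⟨m, hm⟩ := isCompact_univ.elim_directed_cover U ho (fun μ _ => by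
      obtain ⟨u, hu, h⟩ := hc μ trivial
      have : ∀ᶠ m : ℕ in atTop, ∀ a ∈ {a | a ∈ u}, (m : ℝ) * ev a.2 μ + 1 < m * ev a.1 μ :=
        (eventually_all_finite (List.finite_toSet u)).2 fun a ha => by
          have h1 : 0 < ev a.1 μ - ev a.2 μ := sub_pos.2 (h a ha)
          filter_upwards [(tendsto_natCast_atTop_atTop.atTop_mul_const h1).eventually_gt_atTop 1]
            with m hm
          linarith
      obtain ⟨m, hm⟩ := this.exists
      exact mem_iUnion.2 ⟨m, (hU _ _).2 ⟨u, hu, hm⟩⟩) hmo.directed_le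
    refine ⟨m, fun e he => ?_⟩
    obtain ⟨ν, hν⟩ := ab_sig e he
    obtain ⟨u, hu, h⟩ := (hU _ _).1 (hm (mem_univ ν))
    refine ⟨u, hu, fun a ha => ?_⟩
    have h0 : (0 : ℝ) ≤ e.length := Nat.cast_nonneg _
    have h1 := mul_le_mul_of_nonneg_left (h a ha).le h0
    have : (m : ℝ) * cnt a.2 e + e.length ≤ m * cnt a.1 e := by
      rw [← hν, ← hν]; linarith
    exact_mod_cast this
  · rintro ⟨m, hm⟩ μ -
    by_contra hn
    obtain ⟨e, he, ht⟩ := ab_app μ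
      (l.flatMap fun u => u.flatMap fun h => (h.1 ++ h.2).flatMap fun C => C.map Prod.fst)
    have hL : ∀ L : List Cy, (∀ C ∈ L, Tendsto (fun N : ℕ => ab_c C (e N) / N) atTop
        (𝓝 (ms μ (cyl C)))) → Tendsto (fun N : ℕ => (cnt L (e N) : ℝ) / N) atTop (𝓝 (ev L μ)) :=
      fun L h => (tendsto_list_sum L h).congr fun N => by
        simp only [ab_cnt, div_eq_mul_inv, List.sum_map_mul_right]
    have h1 : Tendsto (fun N : ℕ => ((e N).length : ℝ) / N) atTop (𝓝 1) := by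
      have := ht [] (by simp)
      simpa [ab_nil, cyl_nil, ms] using this
    have : ∀ᶠ N : ℕ in atTop, ∀ u ∈ {u | u ∈ l}, ∃ h ∈ u,
        ¬ m * cnt h.2 (e N) + (e N).length ≤ m * cnt h.1 (e N) :=
      (eventually_all_finite (List.finite_toSet l)).2 fun u hu => by
        obtain ⟨a, ha, h⟩ : ∃ a ∈ u, ev a.1 μ ≤ ev a.2 μ := by
          by_contra h
          exact hn ⟨u, hu, fun a ha => lt_of_not_ge fun h' => h ⟨a, ha, h'⟩⟩
        have hW : ∀ C ∈ a.1 ++ a.2, ∀ b ∈ C, b.1 ∈ l.flatMap fun u => u.flatMap fun h =>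
            (h.1 ++ h.2).flatMap fun C => C.map Prod.fst := fun C hC b hb =>
          List.mem_flatMap.2 ⟨u, hu, List.mem_flatMap.2 ⟨a, ha,
            List.mem_flatMap.2 ⟨C, hC, List.mem_map_of_mem hb⟩⟩⟩
        have t1 := (hL a.1 fun C hC => ht C (hW C (List.mem_append_left _ hC))).const_mul (m : ℝ)
        have t2 := ((hL a.2 fun C hC => ht C (hW C (List.mem_append_right _ hC))).const_mul
          (m : ℝ)).add h1
        have h2 : (m : ℝ) * ev a.1 μ < m * ev a.2 μ + 1 := by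
          have := mul_le_mul_of_nonneg_left h (Nat.cast_nonneg m : (0 : ℝ) ≤ m)
          linarith
        filter_upwards [t1.eventually_lt t2 h2] with N hN
        refine ⟨a, ha, fun h3 => hN.not_ge ?_⟩
        have h4 : (m : ℝ) * cnt a.2 (e N) + (e N).length ≤ m * cnt a.1 (e N) := by
          exact_mod_cast h3
        rw [← mul_div_assoc, ← mul_div_assoc, ← add_div]
        exact div_le_div_of_nonneg_right h4 (Nat.cast_nonneg N)
    obtain ⟨N, hN⟩ := this.exists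
    obtain ⟨u, hu, h⟩ := hm (e N) (he N)
    obtain ⟨a, ha, h'⟩ := hN u hu
    exact h' (h a ha)

theorem ac_cnt {L : D → α → List Cy} {e : D → α → List (List Co)} (hL : AF L) (he : AF e) :
    AF fun a x => cnt (L a x) (e a x) :=
  AF.sum (AF.map (g := fun a x (C : Cy) => ((e a x).map fun p =>
      if ∀ b, b ∈ C → decide (b.1 ∈ p) = b.2 then 1 else 0).sum) hL
    (AF.sum (AF.map (g := fun _ (y : α × Cy) (p : List Co) =>
        if ∀ b, b ∈ y.2 → decide (b.1 ∈ p) = b.2 then 1 else 0) (he.app AF.id.fst)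
      (AF.ite (p := fun _ (y : (α × Cy) × List Co) => ∀ b, b ∈ y.1.2 → decide (b.1 ∈ y.2) = b.2)
        (Ar.all ((Ar.mem AF.id.snd AF.id.fst.fst.snd).imp
          (Ar.eq (AF.dec (Ar.mem AF.id.snd.fst AF.id.fst.snd)) AF.id.snd.snd)))
        AF.const AF.const))))
theorem ar_univP : Ar fun (_ : D) l => Cov bo univ l :=
  Ar.of_iff (p := fun (_ : D) (l : List Bo) => ∃ m : ℕ, ∀ e : List (List Co), e ≠ [] →
      ∃ u, u ∈ l ∧ ∀ h, h ∈ u → m * cnt h.2 e + e.length ≤ m * cnt h.1 e)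
    (Ar.ex (Ar.all ((Ar.ne AF.id.snd AF.const).imp (Ar.ex ((Ar.mem AF.id.snd
      AF.id.fst.fst.fst).and (Ar.all ((Ar.mem AF.id.snd AF.id.fst.snd).imp
        (Ar.le (AF.add (AF.mul AF.id.fst.fst.fst.snd (ac_cnt AF.id.snd.snd AF.id.fst.fst.snd))
          AF.id.fst.fst.snd.length)
          (AF.mul AF.id.fst.fst.fst.snd (ac_cnt AF.id.snd.fst AF.id.fst.fst.snd))))))))))
    fun _ l => cov_univP l
theorem setM {x : D → XX} (hx : Ar fun a C => x a ∈ cyl C) : ∃ M : D → Set XX,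
    (Ar fun a => Cov cyl (M a)) ∧ ∀ a, Minl act (M a) ∧ M a ⊆ Om (x a) := by
  have hI : Ar fun a (C : Cy) => ∃ n, ∀ w, n < w → x a ∉ cyl (sh w C) :=
    Ar.ex (Ar.all ((Ar.lt AF.id.fst.snd AF.id.snd).imp
      (hx.app (af_sh AF.id.snd AF.id.fst.fst)).not))
  have hc : Ar fun a => Cov cyl (Om (x a)) :=
    ar_rem open_cyl (A := fun _ => univ) (fun _ => isClosed_univ) ar_univX hI
  have hJ : Ar fun (_ : D) (y : Cy × Cy) => ∃ t, y.2 = sh t y.1 :=
    Ar.ex (Ar.eq AF.id.fst.snd (af_sh AF.id.snd AF.id.fst.fst))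
  obtain ⟨R, hR, h⟩ := greedy open_cyl (fun a => om_closed (x a)) (fun a => om_ne (x a)) hc
    (J := fun j i => ∃ t, i = sh t j) hJ
  refine ⟨fun a => Rem cyl (Om (x a)) fun i => ∃ j, R a j ∧ ∃ t, i = sh t j,
    ar_rem open_cyl (fun a => om_closed (x a)) hc
      (Ar.ex ((hR.app AF.id.snd).and (hJ.app (AF.id.snd.pair AF.id.fst)))), fun a =>
    ⟨⟨(h a).1, Rem.closed open_cyl (om_closed _) _, fun t p hp => ⟨om_inv _ t p hp.1, ?_⟩,
      fun p hp q hq => mem_closure_iff_nhds.2 fun U hU => ?_⟩, fun p hp => hp.1⟩⟩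
  · rintro i ⟨j, hj, s, rfl⟩ k
    rw [mem_sh, act_act, ← mem_sh] at k
    exact hp.2 _ ⟨j, hj, _, rfl⟩ k
  · obtain ⟨C, h1, h2⟩ := cyl_basis hU
    obtain ⟨i, ⟨t, rfl⟩, k⟩ := (h a).2 C
      (fun k => hq.2 _ ⟨C, k, 0, rfl⟩ (by rwa [mem_sh, act_zero])) p hp
    exact ⟨act t p, h2 (mem_sh.1 k), t, rfl⟩

theorem ad_rem_inv {S ι κ : Type} {O : ι → Set S} {ac : ℕ → S → S} {A : Set S} (hA : Inv ac A)
    {R : κ → Prop} {J : κ → ι → Prop}
    (hJ : ∀ j i t p, J j i → ac t p ∈ O i → ∃ i', J j i' ∧ p ∈ O i') :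
    Inv ac (Rem O A fun i => ∃ j, R j ∧ J j i) := fun t p hp =>
  ⟨hA t p hp.1, fun i ⟨j, h1, h2⟩ h3 =>
    let ⟨i', k1, k2⟩ := hJ j i t p h2 h3
    hp.2 i' ⟨j, h1, k1⟩ k2⟩
theorem ad_single {h : At} {μ : PP} : μ ∈ bo [h] ↔ μ ∈ hs h := by simp [bo]
theorem ad_qi {M : D → Set XX} (hM : Ar fun a => Cov cyl (M a)) : Ar fun a => QI (M a) :=
  (Ar.ex ((hM.app (af_ng AF.id.snd)).and (Ar.eq AF.id.fst
    (((AF.id.snd.cons AF.const).pair AF.const).cons AF.const)))).or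
  (Ar.ex (Ar.ex (Ar.eq AF.id.fst.fst
    (((((((AF.id.fst.snd.pair (AF.id.snd.pair AF.const)).pair AF.const).cons AF.const).cons
      AF.const).pair AF.const)).cons
    ((((((AF.id.fst.snd.pair (AF.id.snd.pair AF.const)).pair AF.const).cons AF.const).cons
      AF.const).pair AF.const).cons AF.const)))))
theorem setQ {M : D → Set XX} (hM : Ar fun a => Cov cyl (M a)) (hm : ∀ a, Minl act (M a)) :
    ∃ Q : D → Set PP, (Ar fun a => Cov bo (Q a)) ∧ ∀ a, Irr (M a) (Q a) := by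
  have hcl : ∀ a, IsClosed (Rem bo univ (QI (M a))) := fun a => Rem.closed open_bo isClosed_univ _
  have har : Ar fun a => Cov bo (Rem bo univ (QI (M a))) :=
    ar_rem open_bo (fun _ => isClosed_univ) ar_univP (ad_qi hM)
  have hJ : Ar fun (_ : D) (x : At × Bo) => ∃ t, x.2 = [shA t x.1] :=
    Ar.ex (Ar.eq AF.id.fst.snd ((af_shA AF.id.snd AF.id.fst.fst).cons AF.const))
  obtain ⟨R, hR, h⟩ := greedy open_bo hcl (fun a =>
    let ⟨ω, μ, hμ⟩ := q_ne (hm a).ne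
    ⟨μ, (mem_q (hm a).cl).2 ⟨ω, hμ⟩⟩) har (J := fun (h : At) (u : Bo) => ∃ t, u = [shA t h]) hJ
  refine ⟨_, ar_rem open_bo hcl har (I := fun a u => ∃ j, R a j ∧ ∃ t, u = [shA t j])
    (Ar.ex ((hR.app AF.id.snd).and (hJ.app (AF.id.snd.pair AF.id.fst)))), fun a =>
    ⟨(h a).1, Rem.closed open_bo (hcl a) _, ad_rem_inv (fun t μ hμ => ?_) ?_,
      fun μ hμ => (mem_q (hm a).cl).1 hμ.1, fun ν ω h1 h2 => ⟨(mem_q (hm a).cl).2 ⟨ω, h1⟩, ?_⟩,
      fun j ⟨μ0, h1, h2⟩ μ hμ => ?_⟩⟩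
  · obtain ⟨ω, h1⟩ := (mem_q (hm a).cl).1 hμ
    obtain ⟨ζ, -, rfl⟩ := fib_pt h1
    exact (mem_q (hm a).cl).2 ⟨_, fib_act (hm a).inv h1 t⟩
  · rintro j i t μ ⟨s, rfl⟩ h1
    rw [ad_single, mem_shA, pact_pact] at h1
    exact ⟨_, ⟨_, rfl⟩, ad_single.2 (mem_shA.2 h1)⟩
  · rintro i ⟨j, k1, t, rfl⟩ k2
    obtain ⟨μ, k3, k4⟩ := h2 _ (ad_single.1 k2)
    exact k3.2 _ ⟨j, k1, t, rfl⟩ (ad_single.2 k4)
  · obtain ⟨i, ⟨t, rfl⟩, k⟩ := (h a).2 j (fun hj => h1.2 _ ⟨j, hj, 0, rfl⟩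
      (ad_single.2 (mem_shA.2 (by rwa [pact_zero])))) μ hμ
    exact ⟨t, mem_shA.1 (ad_single.1 k)⟩
theorem setY {Q : D → Set PP} (hQ : Ar fun a => Cov bo (Q a))
    (hq : ∀ a, (Q a).Nonempty ∧ IsClosed (Q a) ∧ Inv pact (Q a)) :
    ∃ Y : D → Set PP, (Ar fun a => Cov bo (Y a)) ∧ ∀ a, Minl pact (Y a) ∧ Y a ⊆ Q a := by
  have hJ : Ar fun (_ : D) (x : Bo × Bo) => ∃ t, x.2 = shB t x.1 :=
    Ar.ex (Ar.eq AF.id.fst.snd (af_shB AF.id.snd AF.id.fst.fst))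
  obtain ⟨R, hR, h⟩ := greedy open_bo (fun a => (hq a).2.1) (fun a => (hq a).1) hQ
    (J := fun (u u' : Bo) => ∃ t, u' = shB t u) hJ
  refine ⟨_, ar_rem open_bo (fun a => (hq a).2.1) hQ (I := fun a u => ∃ j, R a j ∧ ∃ t, u = shB t j)
    (Ar.ex ((hR.app AF.id.snd).and (hJ.app (AF.id.snd.pair AF.id.fst)))), fun a =>
    ⟨⟨(h a).1, Rem.closed open_bo (hq a).2.1 _, ad_rem_inv (hq a).2.2 ?_, fun p hp q hq' => ?_⟩,
      fun μ hμ => hμ.1⟩⟩
  · rintro j i t μ ⟨s, rfl⟩ h1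
    rw [mem_shB, pact_pact] at h1
    exact ⟨_, ⟨_, rfl⟩, mem_shB.2 h1⟩
  · refine mem_closure_iff_nhds.2 fun U hU => ?_
    obtain ⟨u, k1, k2⟩ := bo_basis hU
    obtain ⟨i, ⟨t, rfl⟩, k⟩ := (h a).2 u (fun hj => hq'.2 _ ⟨u, hj, 0, rfl⟩
      (mem_shB.2 (by rwa [pact_zero]))) p hp
    exact ⟨_, k2 (mem_shB.1 k), t, rfl⟩

theorem aj_arI : Ar fun (_ : D) (u : Bo) =>
    ∃ s i : ℕ, u = [([[((s, i, true), !(s.testBit i))]], [])] :=
  Ar.ex (r := fun _ (u : Bo) (s : ℕ) => ∃ i : ℕ, u = [([[((s, i, true), !(s.testBit i))]], [])])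
    (Ar.ex (r := fun _ (x : Bo × ℕ) (i : ℕ) =>
        x.1 = [([[((x.2, i, true), !(x.2.testBit i))]], [])])
      (Ar.eq AF.id.fst.fst
        (AF.cons (AF.pair (AF.cons (AF.cons (AF.pair
          (AF.pair AF.id.fst.snd (AF.pair AF.id.snd (AF.const (c := fun _ => true))))
          (AF.p1 Primrec.not (AF.bit AF.id.fst.snd AF.id.snd))) (AF.const (c := fun _ => [])))
          (AF.const (c := fun _ => []))) (AF.const (c := fun _ => [])))
          (AF.const (c := fun _ => [])))))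
theorem setup {c : D → ℕ → ℕ} (hc : AF c) : ∃ (l : D → PP) (z g : D → XX),
    (Ar fun a u => l a ∈ bo u) ∧ (Ar fun a C => g a ∈ cyl C) ∧ ∀ a, Ctx (xof (c a)) (l a) (z a) ∧
      g a ∈ Go (xof (c a)) (l a) (z a) ∧ Supp (l a) ⊆ Om (xof (c a)) ∧
      ∀ n, ∀ᵐ ζ ∂(l a : Measure XX), ζ ∈ cyl (nb n) := by
  have hx := ar_x hc
  obtain ⟨M, hM, hm⟩ := setM hx
  obtain ⟨Q, hQ, hq⟩ := setQ hM fun a => (hm a).1
  obtain ⟨Y, hY, hy⟩ := setY hQ fun a => ⟨(hq a).ne, (hq a).cl, (hq a).inv⟩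
  have hf : ∀ a, ∀ μ ∈ Y a, ∃ ω, μ ∈ Fib (M a) ω := fun a μ hμ => (hq a).fib μ ((hy a).2 hμ)
  obtain ⟨l, hl, hl0⟩ := point open_bo
    (A := fun a => Rem bo (Y a) fun u => ∃ s i : ℕ, u = [([[((s, i, true), !(s.testBit i))]], [])])
    (fun a => Rem.closed open_bo (hy a).1.cl _)
    (fun a => by
      rw [mem_y0 (c := c a) (hf a)]
      exact fib_zero (hm a).1 (hm a).2 (hy a).1 (hf a))
    (ar_rem open_bo (fun a => (hy a).1.cl) hY aj_arI)
  have hl1 : ∀ a, l a ∈ Y a ∩ Fib (M a) (tr (xof (c a))) := fun a => by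
    rw [← mem_y0 (c := c a) (hf a)]
    exact hl0 a
  obtain ⟨z, hz, hz0⟩ := point open_cyl (A := fun a => Supp (l a)) (fun a => supp_closed _)
    (fun a => (ae_supp (l a)).exists)
    (ar_rem open_cyl (fun _ => isClosed_univ) ar_univX (ar_pos hl AF.id).not)
  have hctx : ∀ a, Ctx (xof (c a)) (l a) (z a) := fun a =>
    ctx_of (hm a).1 (hm a).2 (hq a) (hy a).1 (hy a).2 (hl1 a).1 (hl1 a).2 (hz0 a)
  obtain ⟨g, hg, hg0⟩ := point open_cyl (A := fun a => Go (xof (c a)) (l a) (z a))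
    (fun a => Rem.closed open_cyl isClosed_univ _) (fun a => go_ne (hctx a))
    (ar_rem open_cyl (fun _ => isClosed_univ) ar_univX (ar_pio hx hz hl).not)
  refine ⟨l, z, g, hl, hg, fun a => ⟨hctx a, hg0 a, ?_, fib_nb (hl1 a).2⟩⟩
  exact (supp_sub (hm a).1.cl (Filter.Eventually.mono (hl1 a).2 fun _ h => h.1)).trans (hm a).2

theorem ae_pos {l : PP} {C N : Cy} (h : Pos l C) (hN : ∀ᵐ ζ ∂(l : Measure XX), ζ ∈ cyl N) :
    Pos l (C ++ N) := by
  have e : ms l (cyl (C ++ N)) = ms l (cyl C) := by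
    rw [cyl_append, inter_comm, ms, ms, Measure.real, Measure.real,
      Measure.measure_inter_eq_of_ae hN]
  exact h.trans_eq e.symm
theorem ae_col {c : ℕ → ℕ} {y a : ℕ} (h : act y (xof c) ∈ cyl (ca a)) : c y = a := by
  simpa [act, xof] using mem_ca.1 h
theorem solb {c : D → ℕ → ℕ} (hc : AF c) {l : D → PP} (hl : Ar fun a u => l a ∈ bo u)
    (col : D → ℕ) (P0 : D → Cy) (h0 : ∀ a n, ∀ᵐ ζ ∂(l a : Measure XX), ζ ∈ cyl (nb n)) :
    ∃ y : D → ℕ → ℕ, AF y ∧ ∀ a, Sol (xof (c a)) (l a) (col a) (P0 a) → Goal (c a) (y a) := by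
  obtain ⟨f, hf, H⟩ := dc (r := fun a (p q : Cy × ℕ × ℕ) =>
      Sol (xof (c a)) (l a) (col a) (P0 a) → q.2.2 = p.2.2 + 1 ∧ q.2.1 ≠ 0 ∧
        xof (c a) ∈ cyl (sh q.2.1 (ca (col a) ++ P0 a ++ p.1)) ∧
        q.1 = p.1 ++ (sh q.2.1 (ca (col a)) ++ nb q.2.2) ∧ Pos (l a) (ca (col a) ++ P0 a ++ q.1))
    ((Ar.cst _).imp ((Ar.eq AF.id.snd.snd.snd (AF.add AF.id.fst.snd.snd AF.const)).and
      ((Ar.ne AF.id.snd.snd.fst AF.const).and
        (((ar_x hc).app (af_sh AF.id.snd.snd.fst (AF.const.append AF.id.fst.fst))).and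
          ((Ar.eq AF.id.snd.fst (AF.id.fst.fst.append ((af_sh AF.id.snd.snd.fst AF.const).append
            (af_nb AF.id.snd.snd.snd)))).and (ar_pos hl (AF.const.append AF.id.snd.fst)))))))
    (fun _ => ([], 0, 0))
    (fun a p => Sol (xof (c a)) (l a) (col a) (P0 a) → Pos (l a) (ca (col a) ++ P0 a ++ p.1))
    (fun a h => by rw [List.append_nil]; exact h.1)
    (fun a p hp => by
      by_cases h : Sol (xof (c a)) (l a) (col a) (P0 a)
      · obtain ⟨y, y0, y1, y2⟩ := h.2 p.1 (hp h)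
        have k := ae_pos y2 (h0 a (p.2.2 + 1))
        rw [List.append_assoc, List.append_assoc] at k
        exact ⟨(p.1 ++ (sh y (ca (col a)) ++ nb (p.2.2 + 1)), y, p.2.2 + 1),
          fun _ => ⟨rfl, y0, y1, rfl, k⟩, fun _ => k⟩
      · exact ⟨p, fun k => (h k).elim, hp⟩)
    fun a p q _ h k => (h k).2.2.2.2
  refine ⟨fun a n => (f a (n + 1)).2.1, (hf.app (AF.add AF.id AF.const)).snd.fst, fun a h => ?_⟩
  obtain ⟨f0, H⟩ := H a
  replace H := fun n => (H n).2 h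
  have hj : ∀ n, (f a n).2.2 = n := fun n => by
    induction n with
    | zero => rw [f0]
    | succ n ih => rw [(H n).1, ih]
  have hx : ∀ n, act (f a (n + 1)).2.1 (xof (c a)) ∈ cyl (ca (col a)) ∧
      act (f a (n + 1)).2.1 (xof (c a)) ∈ cyl (f a n).1 := fun n => by
    have := mem_sh.1 (H n).2.2.1
    rw [cyl_append, cyl_append] at this
    exact ⟨this.1.1, this.2⟩
  have hP : ∀ n, cyl (f a (n + 1)).1 =
      cyl (f a n).1 ∩ (cyl (sh (f a (n + 1)).2.1 (ca (col a))) ∩ cyl (nb (n + 1))) := fun n => by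
    rw [(H n).2.2.2.1, hj, cyl_append, cyl_append]
  have hm : Antitone fun n => cyl (f a n).1 :=
    antitone_nat_of_succ_le fun n => (hP n).trans_le inter_subset_left
  refine ⟨fun i => ⟨(H i).2.1, ?_⟩, col a, fun i => ae_col (hx i).1, fun i j hij => ae_col ?_⟩
  · rcases i with _ | i
    · exact one_dvd _
    · exact nb_dvd (mem_sh.2 ((hP i).le (hx (i + 1)).2).2.2)
  · rw [← act_act]
    exact mem_sh.1 ((hP i).le (hm (Nat.succ_le_of_lt hij) (hx j).2)).2.1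

/-- The xor of the `b i` over the bits `i < j` of `n`. -/
def ar_ph (b : ℕ → ℕ) (n j : ℕ) : ℕ :=
  Nat.rec (motive := fun _ => ℕ) 0 (fun i s => if n.testBit i then s ^^^ b i else s) j
theorem ar_succ (b : ℕ → ℕ) (n j : ℕ) :
    ar_ph b n (j + 1) = if n.testBit j then ar_ph b n j ^^^ b j else ar_ph b n j := rfl
theorem ar_xor (b : ℕ → ℕ) (n m j : ℕ) : ar_ph b (n ^^^ m) j = ar_ph b n j ^^^ ar_ph b m j := by
  induction j with
  | zero => exact (Nat.xor_self 0).symm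
  | succ j ih =>
    rw [ar_succ, ar_succ, ar_succ, ih, Nat.testBit_xor]
    cases n.testBit j <;> cases m.testBit j
    · rfl
    · exact Nat.xor_assoc _ _ _
    · exact Nat.xor_right_comm _ _ _
    · change _ ^^^ _ = _ ^^^ _ ^^^ (_ ^^^ _)
      rw [Nat.xor_assoc, Nat.xor_comm (ar_ph b m j), Nat.xor_xor_cancel_left]
theorem ar_lt {n i : ℕ} (h : n.testBit i = true) : i < n :=
  Nat.lt_two_pow_self.trans_le (Nat.ge_two_pow_of_testBit h)
theorem ar_stab (b : ℕ → ℕ) {n j : ℕ} (h : n ≤ j) : ar_ph b n j = ar_ph b n n := by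
  induction h with
  | refl => rfl
  | step h ih => rw [ar_succ, if_neg fun k => (ar_lt k).not_ge h, ih]
theorem ar_dvd {b : ℕ → ℕ} (hb : ∀ i, 2 ^ i ∣ b i) {m n : ℕ} (h : 2 ^ m ∣ n) (j : ℕ) :
    2 ^ m ∣ ar_ph b n j := by
  induction j with
  | zero => exact dvd_zero _
  | succ j ih =>
    rw [ar_succ]
    split_ifs with k
    · have e : m ≤ j := by
        by_contra c
        have := Nat.testBit_mod_two_pow n m j
        rw [Nat.mod_eq_zero_of_dvd h, k, Nat.zero_testBit, decide_eq_true (not_le.1 c)] at this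
        exact Bool.noConfusion this
      refine Nat.dvd_of_mod_eq_zero ?_
      rw [Nat.xor_mod_two_pow, Nat.mod_eq_zero_of_dvd ih,
        Nat.mod_eq_zero_of_dvd ((pow_dvd_pow 2 e).trans (hb j))]
      rfl
    · exact ih
theorem redb {c : D → ℕ → ℕ} (hc : AF c) (col : D → ℕ) {A : D → ℕ → Prop} (hA : Ar A) :
    ∃ Φ : D → ℕ → ℕ, AF Φ ∧ ∀ a, A a 0 → (∀ S : List ℕ, (∀ s ∈ S, A a s) → ∀ n, ∃ y, n < y ∧
      2 ^ n ∣ y ∧ ∀ s ∈ S, c a (s ^^^ y) ≠ col a ∧ A a (s ^^^ y)) → Red (c a) (col a) (Φ a) := by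
  let G : D → Prop := fun a => A a 0 ∧ ∀ S : List ℕ, (∀ s ∈ S, A a s) → ∀ n, ∃ y, n < y ∧
      2 ^ n ∣ y ∧ ∀ s ∈ S, c a (s ^^^ y) ≠ col a ∧ A a (s ^^^ y)
  have hx : AF fun (_ : D) (x : ((ℕ × List ℕ × ℕ) × ℕ × List ℕ × ℕ) × ℕ) => x.2 ^^^ x.1.2.2.2 :=
    AF.xor AF.id.snd AF.id.fst.snd.snd.snd
  obtain ⟨f, hf, H⟩ := dc (r := fun a (p q : ℕ × List ℕ × ℕ) => G a → q.1 = p.1 + 1 ∧
      2 ^ p.1 ∣ q.2.2 ∧ (∀ s, s ∈ p.2.1 → (s ∈ q.2.1 ∧ s ^^^ q.2.2 ∈ q.2.1) ∧ s ^^^ q.2.2 ≠ 0 ∧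
        c a (s ^^^ q.2.2) ≠ col a) ∧ ∀ s, s ∈ q.2.1 → A a s)
    ((Ar.cst _).imp ((Ar.eq AF.id.snd.fst (AF.add AF.id.fst.fst AF.const)).and
      ((Ar.dvd (AF.pow AF.const AF.id.fst.fst) AF.id.snd.snd.snd).and
        ((Ar.all ((Ar.mem AF.id.snd AF.id.fst.fst.snd.fst).imp
          (((Ar.mem AF.id.snd AF.id.fst.snd.snd.fst).and (Ar.mem hx AF.id.fst.snd.snd.fst)).and
            ((Ar.ne hx AF.const).and (Ar.ne (hc.app hx) AF.const))))).and
          (Ar.all ((Ar.mem AF.id.snd AF.id.fst.snd.snd.fst).imp (hA.app AF.id.snd)))))))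
    (fun _ => (0, [0], 0)) (fun a p => G a → ∀ s, s ∈ p.2.1 → A a s)
    (fun a h s hs => by rw [List.mem_singleton.1 hs]; exact h.1)
    (fun a p hp => by
      by_cases h : G a
      · obtain ⟨y, y0, y1, y2⟩ := h.2 p.2.1 (hp h) (p.1 + p.2.1.sum)
        have k : ∀ s, s ∈ p.2.1 ++ p.2.1.map (· ^^^ y) → A a s := fun s hs =>
          (List.mem_append.1 hs).elim (hp h s) fun e => by
            obtain ⟨t, ht, rfl⟩ := List.mem_map.1 e
            exact (y2 t ht).2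
        refine ⟨(p.1 + 1, p.2.1 ++ p.2.1.map (· ^^^ y), y), fun _ => ⟨rfl,
          (pow_dvd_pow 2 (Nat.le_add_right _ _)).trans y1, fun s hs => ⟨⟨List.mem_append_left _ hs,
            List.mem_append_right _ (List.mem_map.2 ⟨s, hs, rfl⟩)⟩, fun e => ?_, (y2 s hs).1⟩, k⟩,
          fun _ => k⟩
        have e1 : s = y := Nat.xor_eq_zero_iff.1 e
        have e2 : s ≤ p.2.1.sum := List.single_le_sum (fun _ _ => Nat.zero_le _) s hs
        omega
      · exact ⟨p, fun k => (h k).elim, hp⟩)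
    fun a p q _ h k => (h k).2.2.2
  have hb : AF fun a n => (f a (n + 1)).2.2 := (hf.app (AF.add AF.id AF.const)).snd.snd
  refine ⟨fun a n => ar_ph (fun i => (f a (i + 1)).2.2) n n,
    AF.natrec (g := fun a n i s => if n.testBit i then s ^^^ (f a (i + 1)).2.2 else s) AF.id
      AF.const (AF.ite (Ar.eq (AF.bit AF.id.fst AF.id.snd.fst) AF.const)
        (AF.xor AF.id.snd.snd (hb.app AF.id.snd.fst)) AF.id.snd.snd), fun a h0 h1 => ?_⟩
  obtain ⟨f0, H⟩ := H a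
  replace H := fun n => (H n).2 ⟨h0, h1⟩
  have hj : ∀ n, (f a n).1 = n := fun n => by
    induction n with
    | zero => rw [f0]
    | succ n ih => rw [(H n).1, ih]
  have hm : ∀ n j, ar_ph (fun i => (f a (i + 1)).2.2) n j ∈ (f a j).2.1 := fun n j => by
    induction j with
    | zero => rw [f0]; exact List.mem_singleton.2 rfl
    | succ j ih =>
      rw [ar_succ]
      split_ifs
      exacts [((H j).2.2.1 _ ih).1.2, ((H j).2.2.1 _ ih).1.1]
  have hn : ∀ n j, (∃ i, i < j ∧ n.testBit i = true) →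
      ar_ph (fun i => (f a (i + 1)).2.2) n j ≠ 0 ∧
        c a (ar_ph (fun i => (f a (i + 1)).2.2) n j) ≠ col a := fun n j => by
    induction j with
    | zero => exact fun ⟨_, h, _⟩ => (Nat.not_lt_zero _ h).elim
    | succ j ih =>
      rintro ⟨i, h, hi⟩
      rw [ar_succ]
      split_ifs with k
      · exact ((H j).2.2.1 _ (hm n j)).2
      · exact ih ⟨i, (Nat.lt_succ_iff_lt_or_eq.1 h).resolve_right fun e => k (e ▸ hi), hi⟩
  refine ⟨fun n m => ?_, fun n h => hn n n ?_,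
    fun m n h => ar_dvd (fun i => by simpa only [hj] using (H i).2.1) h n⟩
  · have e := ar_xor (fun i => (f a (i + 1)).2.2) n m ((n ^^^ m) + (n + m))
    rwa [ar_stab _ (Nat.le_add_right _ _), ar_stab _ (n := n) (by omega),
      ar_stab _ (n := m) (by omega)] at e
  · obtain ⟨i, hi⟩ := Nat.exists_testBit_of_ne_zero h
    exact ⟨i, ar_lt hi, hi⟩

theorem step {c : D → ℕ → ℕ} (hc : AF c) {I : D → Finset ℕ} (hI : ∀ a s, s ≠ 0 → c a s ∈ I a) :
    ∃ (col : D → ℕ) (S : D → Prop) (y Φ : D → ℕ → ℕ), AF y ∧ AF Φ ∧ ∀ a, col a ∈ I a ∧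
      (S a → Goal (c a) (y a)) ∧ (¬ S a → Red (c a) (col a) (Φ a)) := by
  obtain ⟨l, z, g, hl, hg, h⟩ := setup hc
  choose V hV using fun a => go_ref (h a).2.1
  choose col hcol hga using fun a => om_col (hI a) ((h a).2.2.1 (hV a).supp)
  have hP : ∀ a, ∃ P0, (∃ P, Sol (xof (c a)) (l a) (col a) P) →
      Sol (xof (c a)) (l a) (col a) P0 := fun a => by
    by_cases e : ∃ P, Sol (xof (c a)) (l a) (col a) P
    · exact ⟨e.choose, fun _ => e.choose_spec⟩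
    · exact ⟨[], fun e' => absurd e' e⟩
  choose P0 hP0 using hP
  obtain ⟨y, hy, hy'⟩ := solb hc hl col P0 fun a => (h a).2.2.2
  obtain ⟨Φ, hΦ, hΦ'⟩ := redb hc col (ar_ast hg hl col)
  refine ⟨col, fun a => ∃ P, Sol (xof (c a)) (l a) (col a) P, y, Φ, hy, hΦ, fun a =>
    ⟨hcol a, fun e => hy' a (hP0 a e), fun e => hΦ' a (ast_zero _ _ _) fun S hS n => ?_⟩⟩
  obtain ⟨w, h1, h2, h3⟩ := extend (h a).1 (hV a) (hga a) (not_exists.1 e) (h a).2.2.2 S hS n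
  refine ⟨w, h1, nb_dvd h2, fun s hs => ⟨?_, (h3 s hs).2⟩⟩
  simpa [xof] using (h3 s hs).1

theorem ind (k : ℕ) : ∀ (D : Type) [HB D] (c : D → ℕ → ℕ) (I : D → Finset ℕ), AF c →
    (∀ a, (I a).card ≤ k) → (∀ a s, s ≠ 0 → c a s ∈ I a) →
    ∃ y : D → ℕ → ℕ, AF y ∧ ∀ a, Goal (c a) (y a) := by
  induction k with
  | zero =>
    intro D _ c I _ hk hI
    refine ⟨fun _ _ => 0, AF.const, fun a => ?_⟩
    have h1 := Finset.card_pos.2 ⟨_, hI a 1 one_ne_zero⟩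
    have h2 := hk a
    omega
  | succ k ih =>
    intro D _ c I hc hk hI
    obtain ⟨col, S, y, Φ, hy, hΦ, h⟩ := step hc hI
    obtain ⟨y', hy', h'⟩ := ih {a // ¬ S a} (fun a n => c a.1 (Φ a.1 n))
      (fun a => (I a.1).erase (col a.1)) ((hc.sub _).app (hΦ.sub _))
      (fun a => by
        have h2 := hk a.1
        rw [Finset.card_erase_of_mem (h a.1).1]
        omega)
      (fun a s hs => Finset.mem_erase.2
        ⟨(((h a.1).2.2 a.2).2.1 s hs).2, hI _ _ (((h a.1).2.2 a.2).2.1 s hs).1⟩)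
    refine ⟨_, AF.split (S := S) (g := fun a n => Φ a.1 (y' a n)) hy ((hΦ.sub _).app hy'),
      fun a => ?_⟩
    by_cases e : S a
    · simpa only [dif_pos e] using (h a).2.1 e
    · simp only [dif_neg e]
      obtain ⟨r1, r2, r3⟩ := (h a).2.2 e
      obtain ⟨g1, b, g2, g3⟩ := h' ⟨a, e⟩
      exact ⟨fun i => ⟨(r2 _ (g1 i).1).1, r3 _ _ (g1 i).2⟩, b, g2, fun i j hij => by
        rw [← r1]; exact g3 i j hij⟩

theorem ah_xor {u v k : ℕ} (hu : u < 2 ^ k) (hv : 2 ^ k ∣ v) : u + v = u ^^^ v := by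
  obtain ⟨w, rfl⟩ := hv
  apply Nat.eq_of_testBit_eq
  intro j
  rw [add_comm, Nat.testBit_two_pow_mul_add _ hu, Nat.testBit_xor, Nat.testBit_two_pow_mul]
  by_cases h : j < k
  · simp [h, not_le.2 h]
  · have : u.testBit j = false :=
      Nat.testBit_lt_two_pow (hu.trans_le (Nat.pow_le_pow_right two_pos (not_lt.1 h)))
    simp [h, not_lt.1 h, this]

theorem thin {c y : D → ℕ → ℕ} (hy : AF y) (h : ∀ a, Goal (c a) (y a)) : ∃ X : D → ℕ → Prop,
    Ar X ∧ ∀ a, {n | X a n}.Infinite ∧ (∀ n, X a n → 0 < n) ∧ ∃ i, ∀ F : Finset ℕ, F.Nonempty →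
      F.card ≤ 2 → (∀ n ∈ F, X a n) → c a (∑ n ∈ F, n) = i := by
  let I : D → ℕ → ℕ := fun a j => Nat.rec (motive := fun _ => ℕ) 0 (fun _ i => i + y a i + 1) j
  have hI : AF I := AF.natrec (n := fun _ j => j) (s := fun _ _ => 0)
    (g := fun a (_ : ℕ) _ i => i + y a i + 1) AF.id AF.const
    ((AF.id.snd.snd.add (hy.app AF.id.snd.snd)).add AF.const)
  refine ⟨fun a n => ∃ j, y a (I a j) = n, Ar.ex (Ar.eq (hy.app (hI.app AF.id.snd)) AF.id.fst),
    fun a => ?_⟩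
  obtain ⟨h1, i, h2, h3⟩ := h a
  have hs : ∀ j, I a (j + 1) = I a j + y a (I a j) + 1 := fun _ => rfl
  have hm : StrictMono (I a) := strictMono_nat_of_lt_succ fun j => by rw [hs]; omega
  have hl : ∀ j l, j < l → y a (I a j) < 2 ^ I a l := fun j l hjl => by
    have e1 : I a (j + 1) ≤ I a l := hm.monotone hjl
    have e2 := @Nat.lt_two_pow_self (I a l)
    rw [hs] at e1; omega
  have hx : StrictMono fun j => y a (I a j) := fun j l hjl =>
    (hl j l hjl).trans_le (Nat.le_of_dvd (Nat.pos_of_ne_zero (h1 _).1) (h1 _).2)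
  have hp : ∀ j l, j < l → c a (y a (I a j) + y a (I a l)) = i := fun j l hjl => by
    rw [ah_xor (hl j l hjl) (h1 _).2]; exact h3 _ _ (hm hjl)
  refine ⟨Set.infinite_range_of_injective hx.injective, ?_, i, fun F hF hc hX => ?_⟩
  · rintro n ⟨j, rfl⟩
    exact Nat.pos_of_ne_zero (h1 _).1
  · have := hF.card_pos
    obtain e | e : F.card = 1 ∨ F.card = 2 := by omega
    · obtain ⟨u, rfl⟩ := Finset.card_eq_one.1 e
      obtain ⟨j, rfl⟩ := hX u (by simp)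
      rw [Finset.sum_singleton]; exact h2 _
    · obtain ⟨u, v, huv, rfl⟩ := Finset.card_eq_two.1 e
      obtain ⟨j, rfl⟩ := hX u (by simp)
      obtain ⟨l, rfl⟩ := hX v (by simp)
      rw [Finset.sum_pair huv]
      rcases lt_trichotomy j l with e | rfl | e
      · exact hp j l e
      · exact absurd rfl huv
      · rw [add_comm]; exact hp l j e

theorem main (k : ℕ) : ∃ n : ℕ, ∀ B : Set (ℕ → Prop), IsBase B → ∀ c : ℕ → Fin k,
    (fun x => (c x.unpair.1 : ℕ) = x.unpair.2) ∈ B →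
    ∃ X : Set ℕ, SigmaOver B n (fun x => x ∈ X) ∧ X.Infinite ∧ (∀ x ∈ X, 0 < x) ∧
      ∃ i : Fin k, ∀ F : Finset ℕ, F.Nonempty → F.card ≤ 2 → (F : Set ℕ) ⊆ X →
        c (∑ x ∈ F, x) = i := by
  let E := {p : Base × (ℕ → Fin k) // (fun x : ℕ => (p.2 x.unpair.1 : ℕ) = x.unpair.2) ∈ p.1.1}
  letI : HB E := ⟨fun p => p.1.1⟩
  let c : E → ℕ → ℕ := fun p s => (p.1.2 s : ℕ)
  have hc : AF c := ⟨0, fun p => ⟨_, p.2, fun x => by
    rw [show Encodable.encode x = Nat.pair x.1 x.2 from rfl, Nat.unpair_pair]⟩⟩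
  obtain ⟨y, hy, h⟩ := ind k E c (fun _ => Finset.range k) hc (fun _ => (Finset.card_range k).le)
    fun p s _ => Finset.mem_range.2 (p.1.2 s).2
  obtain ⟨X, ⟨n, hn⟩, hX⟩ := thin hy h
  refine ⟨n, fun B hB c' hc' => ?_⟩
  let p : E := ⟨(⟨B, hB⟩, c'), hc'⟩
  obtain ⟨h1, h2, i, h3⟩ := hX p
  obtain ⟨x0, hx0⟩ := h1.nonempty
  refine ⟨{n | X p n}, (Sg.sigmaOver n).1 (hn p), h1, h2, c' x0, fun F hF h4 h5 => Fin.ext ?_⟩
  have e0 := h3 {x0} (Finset.singleton_nonempty _) (by simp) (by simpa using hx0)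
  rw [Finset.sum_singleton] at e0
  exact (h3 F hF h4 fun m hm => h5 hm).trans e0.symm

end

end Pool.Agent.MP_850d05_lc.H20
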